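import Pool.Agent.H37.FG.Defs

/-!
# Locality, high slots [H37 FG Loc]

MODULE: adaptation of the finished files `Pool/Agent/H13/BD/Loc.lean` and `Pool/Agent/H13/BD/Flx.lean`. The orbit maps
`T ^ k`, `|k| ≤ R`, are replaced by `FreeGroup.lift S.T k` for `k` in a finite set `K` of elements of `FreeGroup I`.
-/

set_option autoImplicit false

open Classical

namespace Pool.Agent.H37.FG

open Pool.Agent.H13.TFG
open Pool.Agent.H13.BD (up up_zero up_succ bp bp_apply ii ii_pos ii_neg tau tau_apply tau_inv_apply Fin1 FH)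

variable {I V V' : Type}

private theorem loc_Ph_inl (S : Sys I V) (e : V → (I → V) → Fin1) :
    S.Ph (FreeGroup.of (Sum.inl e)) = S.bF (fun v w => (e v w : Equiv.Perm ℕ)) := by
  unfold Sys.Ph
  rw [FreeGroup.lift_apply_of]
  rfl

private theorem loc_Ph_inr (S : Sys I V) (i : I) (A : Set V) :
    S.Ph (FreeGroup.of (Sum.inr (i, A))) = S.bT i A := by
  unfold Sys.Ph
  rw [FreeGroup.lift_apply_of]
  rfl

/-- refinement of the colours does not change the permutation; `FreeGroup.induction_on` -/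
theorem Ph_rf (π : V' → V) (S : Sys I V') (p : PP I V) : S.Ph (rf π p) = (S.push π).Ph p := by
  induction p using FreeGroup.induction_on with
  | C1 =>
    rw [map_one, map_one, map_one]
    rfl
  | of x =>
    rcases x with e | ⟨i, A⟩
    · rw [loc_Ph_inl]
      unfold rf
      rw [FreeGroup.map.of]
      exact loc_Ph_inl S _
    · rw [loc_Ph_inr]
      unfold rf
      rw [FreeGroup.map.of]
      exact loc_Ph_inr S _ _
  | inv_of x hx =>
    rw [map_inv, map_inv, map_inv, hx]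
    rfl
  | mul p q hp hq =>
    rw [map_mul, map_mul, map_mul, hp, hq]
    rfl

/-- the right part of `ev`; `FreeGroup.induction_on` -/
theorem ev_right [Finite V] (S : Sys I V) (p : PP I V) : (S.ev p).right = S.Ph p := by
  induction p using FreeGroup.induction_on with
  | C1 =>
    rw [map_one, map_one]
    rfl
  | of x =>
    rcases x with e | ⟨i, A⟩
    · rw [loc_Ph_inl]
      unfold Sys.ev
      rw [FreeGroup.lift_apply_of]
      rfl
    · rw [loc_Ph_inr]
      unfold Sys.ev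
      rw [FreeGroup.lift_apply_of]
      rfl
  | inv_of x hx =>
    rw [map_inv, map_inv, SemidirectProduct.inv_right, hx]
  | mul p q hp hq =>
    rw [map_mul, map_mul, SemidirectProduct.mul_right, hp, hq]

/-- the window of a generator -/
private noncomputable def locK (I : Type) [Fintype I] : Finset (FreeGroup I) :=
  insert 1 (Finset.univ.image FreeGroup.of ∪ Finset.univ.image (fun i => (FreeGroup.of i)⁻¹))

private theorem locK_one [Fintype I] : (1 : FreeGroup I) ∈ locK I := Finset.mem_insert_self _ _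

private theorem locK_of [Fintype I] (i : I) : FreeGroup.of i ∈ locK I :=
  Finset.mem_insert_of_mem (Finset.mem_union_left _
    (Finset.mem_image.2 ⟨i, Finset.mem_univ _, rfl⟩))

private theorem locK_inv [Fintype I] (i : I) : (FreeGroup.of i)⁻¹ ∈ locK I :=
  Finset.mem_insert_of_mem (Finset.mem_union_right _
    (Finset.mem_image.2 ⟨i, Finset.mem_univ _, rfl⟩))

private theorem lift_one' {Z : Type} (T : I → Equiv.Perm Z) (z : Z) :
    FreeGroup.lift T 1 z = z := by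
  rw [map_one, Equiv.Perm.one_apply]

private theorem lift_of' {Z : Type} (T : I → Equiv.Perm Z) (i : I) (z : Z) :
    FreeGroup.lift T (FreeGroup.of i) z = T i z := by
  rw [FreeGroup.lift_apply_of]

private theorem lift_inv' {Z : Type} (T : I → Equiv.Perm Z) (i : I) (z : Z) :
    FreeGroup.lift T (FreeGroup.of i)⁻¹ z = (T i).symm z := by
  rw [map_inv, FreeGroup.lift_apply_of]
  rfl

private theorem loc_bF [Fintype I] (S S' : Sys I V) (z : S.Z) (z' : S'.Z)
    (h : ∀ k ∈ locK I, S.c (FreeGroup.lift S.T k z) = S'.c (FreeGroup.lift S'.T k z'))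
    (e : Bl I V) (n : ℕ) :
    ∃ k ∈ locK I, ∃ n' : ℕ, S.bF e (z, n) = (FreeGroup.lift S.T k z, n') ∧
      S'.bF e (z', n) = (FreeGroup.lift S'.T k z', n') := by
  have h0 := h 1 locK_one
  rw [lift_one', lift_one'] at h0
  have h1 : S.nb z = S'.nb z' := by
    funext i
    have h2 := h (FreeGroup.of i) (locK_of i)
    rw [lift_of', lift_of'] at h2
    exact h2
  refine ⟨1, locK_one, e (S.c z) (S.nb z) n, ?_, ?_⟩
  · rw [Sys.bF_apply, lift_one']
  · rw [Sys.bF_apply, lift_one', h0, h1]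

private theorem loc_bT [Fintype I] (S S' : Sys I V) (z : S.Z) (z' : S'.Z)
    (h : ∀ k ∈ locK I, S.c (FreeGroup.lift S.T k z) = S'.c (FreeGroup.lift S'.T k z'))
    (i : I) (A : Set V) (n : ℕ) :
    ∃ k ∈ locK I, ∃ n' : ℕ, S.bT i A (z, n) = (FreeGroup.lift S.T k z, n') ∧
      S'.bT i A (z', n) = (FreeGroup.lift S'.T k z', n') := by
  have h0 := h 1 locK_one
  have h1 := h (FreeGroup.of i) (locK_of i)
  rw [lift_one', lift_one'] at h0
  rw [lift_of', lift_of'] at h1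
  have h2 : (z ∈ S.c ⁻¹' A) = (z' ∈ S'.c ⁻¹' A) := by
    rw [Set.mem_preimage, Set.mem_preimage, h0]
  have h3 : (S.T i z ∈ S.c ⁻¹' A) = (S'.T i z' ∈ S'.c ⁻¹' A) := by
    rw [Set.mem_preimage, Set.mem_preimage, h1]
  unfold Sys.bT
  by_cases hc : S'.T i z' ∈ S'.c ⁻¹' A ∧ n = 0
  · refine ⟨FreeGroup.of i, locK_of i, 0, ?_, ?_⟩
    · rw [tau_apply, h3, if_pos hc, lift_of']
    · rw [tau_apply, if_pos hc, lift_of']
  · refine ⟨1, locK_one, n - ii (S'.T i z' ∈ S'.c ⁻¹' A) + ii (z' ∈ S'.c ⁻¹' A), ?_, ?_⟩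
    · rw [tau_apply, h3, h2, if_neg hc, lift_one']
    · rw [tau_apply, if_neg hc, lift_one']

private theorem loc_bT_inv [Fintype I] (S S' : Sys I V) (z : S.Z) (z' : S'.Z)
    (h : ∀ k ∈ locK I, S.c (FreeGroup.lift S.T k z) = S'.c (FreeGroup.lift S'.T k z'))
    (i : I) (A : Set V) (n : ℕ) :
    ∃ k ∈ locK I, ∃ n' : ℕ, (S.bT i A)⁻¹ (z, n) = (FreeGroup.lift S.T k z, n') ∧
      (S'.bT i A)⁻¹ (z', n) = (FreeGroup.lift S'.T k z', n') := by
  have h0 := h 1 locK_one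
  have h1 := h (FreeGroup.of i) (locK_of i)
  rw [lift_one', lift_one'] at h0
  rw [lift_of', lift_of'] at h1
  have h2 : (z ∈ S.c ⁻¹' A) = (z' ∈ S'.c ⁻¹' A) := by
    rw [Set.mem_preimage, Set.mem_preimage, h0]
  have h3 : (S.T i z ∈ S.c ⁻¹' A) = (S'.T i z' ∈ S'.c ⁻¹' A) := by
    rw [Set.mem_preimage, Set.mem_preimage, h1]
  unfold Sys.bT
  by_cases hc : z' ∈ S'.c ⁻¹' A ∧ n = 0
  · refine ⟨(FreeGroup.of i)⁻¹, locK_inv i, 0, ?_, ?_⟩
    · rw [tau_inv_apply, h2, if_pos hc, lift_inv']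
    · rw [tau_inv_apply, if_pos hc, lift_inv']
  · refine ⟨1, locK_one, n - ii (z' ∈ S'.c ⁻¹' A) + ii (S'.T i z' ∈ S'.c ⁻¹' A), ?_, ?_⟩
    · rw [tau_inv_apply, h3, h2, if_neg hc, lift_one']
    · rw [tau_inv_apply, if_neg hc, lift_one']

/-- What an element of the free group does to a slot depends only on the colours in a window.

Proof. `FreeGroup.induction_on`, as `loc` in `H13/BD/Loc.lean`. Generators `inl e` and their inverses: `k = 1`,
`K = {1} ∪ {of i}` (`I` is finite). Generators `inr (i, A)` and their inverses: `k ∈ {1, of i, (of i)⁻¹}` (`tau_apply`,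
`tau_inv_apply`). Products `p * q`: `K = K_q ∪ (K_p * K_q)` (`Finset.mul`, or the image of `K_p ×ˢ K_q`), which contains the
windows `K_p * k`, `k ∈ K_q`, and the products. It is convenient to demand `1 ∈ K`. -/
theorem loc [Finite I] (p : PP I V) : ∃ K : Finset (FreeGroup I), 1 ∈ K ∧
    ∀ (S S' : Sys I V) (z : S.Z) (z' : S'.Z),
    (∀ k ∈ K, S.c (FreeGroup.lift S.T k z) = S'.c (FreeGroup.lift S'.T k z')) →
    ∀ n : ℕ, ∃ k ∈ K, ∃ n' : ℕ, S.Ph p (z, n) = (FreeGroup.lift S.T k z, n') ∧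
      S'.Ph p (z', n) = (FreeGroup.lift S'.T k z', n') := by
  have : Fintype I := Fintype.ofFinite I
  induction p using FreeGroup.induction_on with
  | C1 =>
    refine ⟨{1}, Finset.mem_singleton_self _, fun S S' z z' _ n =>
      ⟨1, Finset.mem_singleton_self _, n, ?_, ?_⟩⟩
    · rw [map_one, lift_one']
      rfl
    · rw [map_one, lift_one']
      rfl
  | of x =>
    refine ⟨locK I, locK_one, fun S S' z z' h n => ?_⟩
    rcases x with e | ⟨i, A⟩
    · rw [loc_Ph_inl, loc_Ph_inl]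
      exact loc_bF S S' z z' h _ n
    · rw [loc_Ph_inr, loc_Ph_inr]
      exact loc_bT S S' z z' h i _ n
  | inv_of x _ =>
    refine ⟨locK I, locK_one, fun S S' z z' h n => ?_⟩
    rcases x with e | ⟨i, A⟩
    · change ∃ k ∈ locK I, ∃ n' : ℕ,
        S.Ph (FreeGroup.of (Sum.inl e))⁻¹ (z, n) = _ ∧
        S'.Ph (FreeGroup.of (Sum.inl e))⁻¹ (z', n) = _
      rw [map_inv, map_inv, loc_Ph_inl, loc_Ph_inl, ← map_inv, ← map_inv]
      exact loc_bF S S' z z' h _ n
    · change ∃ k ∈ locK I, ∃ n' : ℕ,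
        S.Ph (FreeGroup.of (Sum.inr (i, A)))⁻¹ (z, n) = _ ∧
        S'.Ph (FreeGroup.of (Sum.inr (i, A)))⁻¹ (z', n) = _
      rw [map_inv, map_inv, loc_Ph_inr, loc_Ph_inr]
      exact loc_bT_inv S S' z z' h i _ n
  | mul p q hp hq =>
    obtain ⟨Kp, h1p, hp⟩ := hp
    obtain ⟨Kq, h1q, hq⟩ := hq
    refine ⟨Kq ∪ (Kp ×ˢ Kq).image (fun x => x.1 * x.2), Finset.mem_union_left _ h1q,
      fun S S' z z' h n => ?_⟩
    have hmem : ∀ m ∈ Kp, ∀ k ∈ Kq, m * k ∈ Kq ∪ (Kp ×ˢ Kq).image (fun x => x.1 * x.2) :=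
      fun m hm k hk => Finset.mem_union_right _
        (Finset.mem_image.2 ⟨(m, k), Finset.mem_product.2 ⟨hm, hk⟩, rfl⟩)
    obtain ⟨k, hk, n1, h1, h2⟩ := hq S S' z z' (fun m hm => h m (Finset.mem_union_left _ hm)) n
    obtain ⟨l, hl, n2, h3, h4⟩ := hp S S' (FreeGroup.lift S.T k z) (FreeGroup.lift S'.T k z')
      (fun m hm => by
        rw [← Equiv.Perm.mul_apply, ← Equiv.Perm.mul_apply, ← map_mul, ← map_mul]
        exact h (m * k) (hmem m hm k hk)) n1
    refine ⟨l * k, hmem l hl k hk, n2, ?_, ?_⟩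
    · rw [map_mul, Equiv.Perm.mul_apply, h1, h3, map_mul, Equiv.Perm.mul_apply]
    · rw [map_mul, Equiv.Perm.mul_apply, h2, h4, map_mul, Equiv.Perm.mul_apply]

/-- the statement of `flx` -/
private def FlxP (p : PP I V) : Prop := ∃ (M : ℕ) (k : V → (I → V) → ℤ),
    ∀ (S : Sys I V) (y : S.Z) (n : ℕ),
    M ≤ n → ∃ n' : ℕ, (n' : ℤ) = n + k (S.c y) (S.nb y) ∧ S.Ph p (y, n) = (y, n')

private theorem flx_bd [Finite I] [Finite V] (k : V → (I → V) → ℤ) :
    ∃ K : ℕ, ∀ v w, |k v w| ≤ K := by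
  have h1 : (Set.range fun x : V × (I → V) => (k x.1 x.2).natAbs).Finite := Set.finite_range _
  obtain ⟨K, hK⟩ := h1.bddAbove
  refine ⟨K, fun v w => ?_⟩
  have h2 : (k v w).natAbs ≤ K := hK ⟨(v, w), rfl⟩
  rw [Int.abs_eq_natAbs]
  exact_mod_cast h2

private theorem flx_one : FlxP (1 : PP I V) := by
  refine ⟨0, fun _ _ => 0, fun S y n _ => ⟨n, ?_, ?_⟩⟩
  · rw [add_zero]
  · rw [map_one, Equiv.Perm.one_apply]

private theorem flx_mul [Finite I] [Finite V] (p q : PP I V) (hp : FlxP p) (hq : FlxP q) :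
    FlxP (p * q) := by
  obtain ⟨M, k, h1⟩ := hp
  obtain ⟨M', k', h2⟩ := hq
  obtain ⟨K, hK⟩ := flx_bd k'
  refine ⟨M' + M + K, fun v w => k v w + k' v w, fun S y n hn => ?_⟩
  obtain ⟨n', h3, h4⟩ := h2 S y n (by omega)
  have h5 := abs_le.1 (hK (S.c y) (S.nb y))
  obtain ⟨n'', h6, h7⟩ := h1 S y n' (by omega)
  refine ⟨n'', ?_, ?_⟩
  · rw [h6, h3]
    ring
  · rw [map_mul, Equiv.Perm.mul_apply, h4, h7]

private theorem flx_inv [Finite I] [Finite V] (p : PP I V) (hp : FlxP p) : FlxP p⁻¹ := by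
  obtain ⟨M, k, h1⟩ := hp
  obtain ⟨K, hK⟩ := flx_bd k
  refine ⟨M + K, fun v w => -k v w, fun S y n hn => ?_⟩
  have h5 := abs_le.1 (hK (S.c y) (S.nb y))
  obtain ⟨m, hm⟩ : ∃ m : ℕ, (m : ℤ) = n - k (S.c y) (S.nb y) :=
    ⟨((n : ℤ) - k (S.c y) (S.nb y)).toNat, Int.toNat_of_nonneg (by omega)⟩
  refine ⟨m, ?_, ?_⟩
  · rw [hm]
    ring
  · obtain ⟨n', h3, h4⟩ := h1 S y m (by omega)
    have h6 : n' = n := by omega
    rw [h6] at h4
    rw [map_inv, Equiv.Perm.inv_eq_iff_eq, h4]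

private theorem flx_inl [Finite I] [Finite V] (e : V → (I → V) → Fin1) :
    FlxP (FreeGroup.of (Sum.inl e) : PP I V) := by
  choose M hM using fun v w => (e v w).2
  have h1 : (Set.range fun x : V × (I → V) => M x.1 x.2).Finite := Set.finite_range _
  obtain ⟨K, hK⟩ := h1.bddAbove
  refine ⟨K, fun _ _ => 0, fun S y n hn => ⟨n, by rw [add_zero], ?_⟩⟩
  have h2 : M (S.c y) (S.nb y) ≤ K := hK ⟨(S.c y, S.nb y), rfl⟩
  have h3 := hM (S.c y) (S.nb y) n (h2.trans hn)
  unfold Sys.Ph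
  rw [FreeGroup.lift_apply_of, Sum.elim_inl, Sys.bF_apply]
  exact Prod.ext rfl h3

private theorem flx_inr (i : I) (A : Set V) : FlxP (FreeGroup.of (Sum.inr (i, A)) : PP I V) := by
  refine ⟨1, fun v w => (ii (v ∈ A) : ℤ) - ii (w i ∈ A), fun S y n hn => ?_⟩
  have h0 : ¬ (S.T i y ∈ S.c ⁻¹' A ∧ n = 0) := fun h => by omega
  refine ⟨n - ii (S.T i y ∈ S.c ⁻¹' A) + ii (y ∈ S.c ⁻¹' A), ?_, ?_⟩
  · have h2 : ii (S.T i y ∈ S.c ⁻¹' A) = ii (S.c (S.T i y) ∈ A) := rfl
    have h3 : ii (y ∈ S.c ⁻¹' A) = ii (S.c y ∈ A) := rfl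
    have h4 : ii (S.c (S.T i y) ∈ A) ≤ 1 := by
      unfold ii
      split_ifs <;> omega
    rw [h2, h3]
    show ((n - ii (S.c (S.T i y) ∈ A) + ii (S.c y ∈ A) : ℕ) : ℤ) =
      n + ((ii (S.c y ∈ A) : ℤ) - ii (S.c (S.T i y) ∈ A))
    omega
  · unfold Sys.Ph
    rw [FreeGroup.lift_apply_of, Sum.elim_inr]
    unfold Sys.bT
    rw [tau_apply, if_neg h0]

/-- High slots are shifted by a constant which depends only on the type of the block: `flx` in `H13/BD/Flx.lean`, same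
proof (`V → (I → V) → ℤ` instead of `V → V → ℤ`; the set of types `V × (I → V)` is finite). -/
theorem flx [Finite I] [Finite V] (p : PP I V) : ∃ (M : ℕ) (k : V → (I → V) → ℤ),
    ∀ (S : Sys I V) (y : S.Z) (n : ℕ),
    M ≤ n → ∃ n' : ℕ, (n' : ℤ) = n + k (S.c y) (S.nb y) ∧ S.Ph p (y, n) = (y, n') := by
  show FlxP p
  induction p using FreeGroup.induction_on with
  | C1 => exact flx_one
  | of x =>
    rcases x with e | ⟨i, A⟩
    · exact flx_inl e
    · exact flx_inr i A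
  | inv_of x hx => exact flx_inv _ hx
  | mul p q hp hq => exact flx_mul p q hp hq

/-- `flx`: `k v w = 0` for all types of `S`, hence of `R` (`FH_of_edge` in `H13/BD/Flx.lean`) -/
theorem FH_of_edge [Finite I] [Finite V] (S R : Sys I V) (hE : ∀ v w, R.Edge v w → S.Edge v w)
    (p : PP I V) (h : S.Ph p ∈ FH S.Z) : R.Ph p ∈ FH R.Z := by
  obtain ⟨M, k, h1⟩ := flx p
  obtain ⟨M', h2⟩ := h
  have hk : ∀ v w, S.Edge v w → k v w = 0 := by
    rintro v w ⟨z, rfl, rfl⟩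
    obtain ⟨n', h3, h4⟩ := h1 S z (max M M') (le_max_left _ _)
    have h5 := h2 z (max M M') (le_max_right _ _)
    rw [h5] at h4
    have h6 := congrArg Prod.snd h4
    dsimp only at h6
    omega
  refine ⟨M, fun y n hn => ?_⟩
  obtain ⟨n', h3, h4⟩ := h1 R y n hn
  rw [hk _ _ (hE _ _ ⟨y, rfl, rfl⟩), add_zero] at h3
  rw [h4]
  have h5 : n' = n := by exact_mod_cast h3
  rw [h5]

end Pool.Agent.H37.FG
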