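import Pool.Agent.H37.FG.Tau2

/-!
# Deflation [H37 FG Dfl]

MODULE: adaptation of the finished file `Pool/Agent/H13/BD/Dfl.lean` (copy its auxiliary lemmas `Dfl_up`, `Dfl_sh`,
`Dfl_congr`, `Dfl_fac`, `svl_fix`, `step` and proofs). The changes: letters are `(e, (i, d), ε)`; a type is `(v, w)` with
`w : I → V`; `if ε then v else w` (the colour of the boundary of the letter seen from the block) becomes
`if ε then v else w i`; `S.c (S.T z)` becomes `S.nb z` (with `S.nb z i = S.c (S.T i z)`, by `rfl`); `S.T.symm b` becomes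
`(S.T i).symm b`; `tw_fix` is the one of `Tau2`.
-/

set_option autoImplicit false

open Classical

namespace Pool.Agent.H37.FG

open Pool.Agent.H13.TFG
open Pool.Agent.H13.BD (up up_zero up_succ bp bp_apply ii ii_pos ii_neg tau tau_apply tau_inv_apply swp swp_pos
  swp_neg sw2 tau_empty tau_bp tau_union slot_union Fin1 FH)

/-- a permutation which fixes `0` is shifted -/
private theorem Dfl_up (σ : Equiv.Perm ℕ) (h : σ 0 = 0) : ∃ ρ : Equiv.Perm ℕ, up ρ = σ := by
  have hs : σ.symm 0 = 0 := by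
    rw [Equiv.symm_apply_eq]
    exact h.symm
  have h1 : ∀ n, σ (n + 1) ≠ 0 := by
    intro n h2
    have h3 : n + 1 = 0 := σ.injective (h2.trans h.symm)
    omega
  have h2 : ∀ n, σ.symm (n + 1) ≠ 0 := by
    intro n h2
    have h3 : n + 1 = 0 := σ.symm.injective (h2.trans hs.symm)
    omega
  refine ⟨⟨fun n => σ (n + 1) - 1, fun n => σ.symm (n + 1) - 1, ?_, ?_⟩, ?_⟩
  · intro n
    have h3 : σ (n + 1) - 1 + 1 = σ (n + 1) := Nat.succ_pred_eq_of_ne_zero (h1 n)
    show σ.symm (σ (n + 1) - 1 + 1) - 1 = n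
    rw [h3, Equiv.symm_apply_apply]
    rfl
  · intro n
    have h3 : σ.symm (n + 1) - 1 + 1 = σ.symm (n + 1) := Nat.succ_pred_eq_of_ne_zero (h2 n)
    show σ (σ.symm (n + 1) - 1 + 1) - 1 = n
    rw [h3, Equiv.apply_symm_apply]
    rfl
  · apply Equiv.ext
    intro n
    cases n with
    | zero => rw [up_zero, h]
    | succ n =>
      rw [up_succ]
      exact Nat.succ_pred_eq_of_ne_zero (h1 n)

/-- a family of block permutations which fix `0` for the edges in `r` is shifted by `r` -/
private theorem Dfl_sh {I V : Type} (r : V → (I → V) → Prop) (a : Bl I V) (h : ∀ v w, r v w → a v w 0 = 0) :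
    ∃ e : Bl I V, sh r e = a := by
  have h1 : ∀ v w, ∃ ρ : Equiv.Perm ℕ, (if r v w then up ρ else ρ) = a v w := by
    intro v w
    by_cases hr : r v w
    · obtain ⟨ρ, hρ⟩ := Dfl_up (a v w) (h v w hr)
      exact ⟨ρ, by rw [if_pos hr, hρ]⟩
    · exact ⟨a v w, if_neg hr⟩
  choose e he using h1
  exact ⟨e, funext fun v => funext fun w => he v w⟩

/-- the image of a family depends only on the edges -/
private theorem Dfl_congr {I V : Type} {E : V → (I → V) → Prop} {G : Type} [Group G]
    {f : Bl I V →* G} {t : I → V → G}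
    (h : IsModel E f t) {a b : Bl I V} (hab : ∀ v w, E v w → a v w = b v w) : f a = f b := by
  have h1 : f (a * b⁻¹) = 1 := by
    refine h.rela _ fun v w hvw => ?_
    rw [Pi.mul_apply, Pi.mul_apply, Pi.inv_apply, Pi.inv_apply, hab v w hvw, mul_inv_cancel]
  rw [map_mul, map_inv, mul_inv_eq_one] at h1
  exact h1

/-- the first factor in `step` -/
private theorem Dfl_fac {I V : Type} (r : V → (I → V) → Prop) (P : V → (I → V) → Prop) (a : Bl I V)
    (ha : ∀ v w, P v w → r v w → a v w 0 ≠ 0) :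
    ∃ b : Bl I V, ∀ v w, P v w → ((sh r b)⁻¹ * a) v w 0 = ii (r v w) := by
  refine ⟨fun v w => if r v w then Equiv.swap 0 (a v w 0 - 1) else Equiv.swap 0 (a v w 0), ?_⟩
  intro v w hP
  by_cases hr : r v w
  · have h1 := ha v w hP hr
    have h2 : a v w 0 - 1 + 1 = a v w 0 := Nat.succ_pred_eq_of_ne_zero h1
    rw [Pi.mul_apply, Pi.mul_apply, Pi.inv_apply, Pi.inv_apply, sh_pos hr, if_pos hr, ii_pos hr,
      Equiv.Perm.mul_apply, Equiv.Perm.inv_eq_iff_eq]
    show a v w 0 = up (Equiv.swap 0 (a v w 0 - 1)) (0 + 1)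
    rw [up_succ, Equiv.swap_apply_left, h2]
  · rw [Pi.mul_apply, Pi.mul_apply, Pi.inv_apply, Pi.inv_apply, sh_neg hr, if_neg hr, ii_neg hr,
      Equiv.Perm.mul_apply, Equiv.Perm.inv_eq_iff_eq, Equiv.swap_apply_left]

namespace Sys

variable {I V : Type} (S : Sys I V)

/-- the shifted words fix the slots `(z, 0)` for the blocks `z` with type in `r`: induction on `w` -/
theorem svl_fix (r : V → (I → V) → Prop) (w : Wd I V) (z : S.Z) (hz : S.On r z) :
    svl S.bF S.bt r w (z, 0) = (z, 0) := by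
  have key : ∀ (i : I) (d : V) (ε : Bool),
      (sg (tw S.bF r i {d} (S.bt i d)) ε : Equiv.Perm (S.Z × ℕ)) (z, 0) = (z, 0) := by
    intro i d ε
    have h1 : (tw S.bF r i {d} (S.bt i d) : Equiv.Perm (S.Z × ℕ)) (z, 0) = (z, 0) :=
      tw_fix (S.T i) {y | S.On r y} (S.c ⁻¹' {d}) z hz
    cases ε with
    | true => exact h1
    | false =>
      rw [sg_false, Equiv.Perm.inv_eq_iff_eq]
      exact h1.symm
  induction w with
  | nil => rfl
  | cons x w ih =>
    have hz' : r (S.c z) (S.nb z) := hz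
    rw [svl_cons, Equiv.Perm.mul_apply, ih, Equiv.Perm.mul_apply, key, S.bF_apply]
    show (z, sh r x.1 (S.c z) (S.nb z) 0) = (z, 0)
    rw [sh_pos hz', up_zero]

private theorem step {G : Type} [Group G] (f : Bl I V →* G) (t : I → V → G) {E : V → (I → V) → Prop}
    (h : IsModel E f t) (r : V → (I → V) → Prop) (a : Bl I V) (i : I) (d : V) (ε : Bool)
    (ha : ∀ v w, E v w → r v w → (if ε then v else w i) = d → a v w 0 ≠ 0) :
    ∃ b a' : Bl I V, f a * sg (t i d) ε = f (sh r b) * sg (tw f r i {d} (t i d)) ε * f a' := by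
  -- the hypothesis may be assumed for all pairs
  obtain ⟨a1, ha1, ha1'⟩ : ∃ a1 : Bl I V, f a1 = f a ∧
      ∀ v w, (if ε then v else w i) = d → r v w → a1 v w 0 ≠ 0 := by
    refine ⟨fun v w => if E v w then a v w else Equiv.swap 0 1, ?_, ?_⟩
    · refine Dfl_congr h fun v w hvw => ?_
      exact if_pos hvw
    · intro v w hd hr
      by_cases hE : E v w
      · show (if E v w then a v w else Equiv.swap 0 1) 0 ≠ 0
        rw [if_pos hE]
        exact ha v w hE hr hd
      · show (if E v w then a v w else Equiv.swap 0 1) 0 ≠ 0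
        rw [if_neg hE, Equiv.swap_apply_left]
        exact one_ne_zero
  obtain ⟨b, hb⟩ := Dfl_fac r (fun v w => (if ε then v else w i) = d) a1 ha1'
  have hfa : f a = f (sh r b) * f ((sh r b)⁻¹ * a1) := by
    rw [← ha1, ← map_mul, mul_inv_cancel_left]
  cases ε with
  | true =>
    obtain ⟨e, he⟩ := Dfl_sh (out {d}) ((sw (fun v w => v ∈ ({d} : Set V) ∧ r v w))⁻¹ *
      ((sh r b)⁻¹ * a1)) (by
        intro v w hv
        have hv' : v = d := hv
        have h1 := hb v w hv'
        rw [Pi.mul_apply, Pi.mul_apply, Pi.inv_apply, Pi.inv_apply, Equiv.Perm.mul_apply,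
          Equiv.Perm.inv_eq_iff_eq, h1]
        by_cases hr : r v w
        · rw [ii_pos hr, sw_pos ⟨hv, hr⟩, Equiv.swap_apply_left]
        · rw [ii_neg hr, sw_neg (fun h2 => hr h2.2)]
          rfl)
    have h2 : (sh r b)⁻¹ * a1 = sw (fun v w => v ∈ ({d} : Set V) ∧ r v w) * sh (out {d}) e := by
      rw [he, mul_inv_cancel_left]
    refine ⟨b, (sw (fun v w => w i ∈ ({d} : Set V) ∧ r v w))⁻¹ * sh (inn i {d}) e, ?_⟩
    have h3 := h.relb i d e
    rw [hfa, h2, sg_true, sg_true, tw, map_mul, map_mul, map_inv]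
    calc f (sh r b) * (f (sw fun v w => v ∈ ({d} : Set V) ∧ r v w) * f (sh (out {d}) e)) * t i d
        = f (sh r b) * f (sw fun v w => v ∈ ({d} : Set V) ∧ r v w) *
          (f (sh (out {d}) e) * t i d) := by group
      _ = f (sh r b) * f (sw fun v w => v ∈ ({d} : Set V) ∧ r v w) *
          (t i d * f (sh (inn i {d}) e)) := by rw [h3]
      _ = _ := by group
  | false =>
    obtain ⟨e, he⟩ := Dfl_sh (inn i {d}) (sw (fun v w => w i ∈ ({d} : Set V) ∧ r v w) *
      ((sh r b)⁻¹ * a1)) (by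
        intro v w hv
        have hv' : w i = d := hv
        have h1 := hb v w hv'
        rw [Pi.mul_apply, Pi.mul_apply, Equiv.Perm.mul_apply, h1]
        by_cases hr : r v w
        · rw [ii_pos hr, sw_pos ⟨hv, hr⟩, Equiv.swap_apply_right]
        · rw [ii_neg hr, sw_neg (fun h2 => hr h2.2)]
          rfl)
    have h2 : (sh r b)⁻¹ * a1 = (sw (fun v w => w i ∈ ({d} : Set V) ∧ r v w))⁻¹ *
        sh (inn i {d}) e := by
      rw [he, inv_mul_cancel_left]
    refine ⟨b, sw (fun v w => v ∈ ({d} : Set V) ∧ r v w) * sh (out {d}) e, ?_⟩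
    have h3 : f (sh (inn i {d}) e) * (t i d)⁻¹ = (t i d)⁻¹ * f (sh (out {d}) e) := by
      rw [mul_inv_eq_iff_eq_mul, mul_assoc, ← h.relb i d e, inv_mul_cancel_left]
    rw [hfa, h2, sg_false, sg_false, tw, map_mul, map_mul, map_inv]
    calc f (sh r b) * ((f (sw fun v w => w i ∈ ({d} : Set V) ∧ r v w))⁻¹ * f (sh (inn i {d}) e)) *
          (t i d)⁻¹
        = f (sh r b) * (f (sw fun v w => w i ∈ ({d} : Set V) ∧ r v w))⁻¹ *
          (f (sh (inn i {d}) e) * (t i d)⁻¹) := by group
      _ = f (sh r b) * (f (sw fun v w => w i ∈ ({d} : Set V) ∧ r v w))⁻¹ *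
          ((t i d)⁻¹ * f (sh (out {d}) e)) := by rw [h3]
      _ = _ := by group

private theorem dfl {G : Type} [Group G] (f : Bl I V →* G) (t : I → V → G) (h : IsModel S.Edge f t)
    (ev : G →* Equiv.Perm (S.Z × ℕ)) (hf : ∀ e, ev (f e) = S.bF e) 
    (ht : ∀ i c, ev (t i c) = S.bt i c)
    (r : V → (I → V) → Prop) (w : Wd I V) (a : Bl I V) (hav : S.Avoid r a w) :
    ∃ (w' : Wd I V) (a' : Bl I V), w'.length = w.length ∧
      f a * vl f t w = svl f t r w' * f a' := by
  induction w generalizing a with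
  | nil => exact ⟨[], a, rfl, by rw [vl_nil, svl_nil, mul_one, one_mul]⟩
  | cons x w ih =>
    obtain ⟨e, ⟨i, d⟩, ε⟩ := x
    obtain ⟨b, a₁, h1⟩ := step f t h r (a * e) i d ε (by
      intro v w' hE hr hd h0
      obtain ⟨z, hzv, hzw⟩ := hE
      have hon : S.On r z := by
        show r (S.c z) (S.nb z)
        rw [hzv, hzw]
        exact hr
      cases ε with
      | true =>
        have hd' : v = d := hd
        have h2 := hav [] (e, (i, d), true) w rfl z z (hzv.trans hd') hon
        apply h2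
        show (S.bF a * vl S.bF S.bt [] * S.bF e) (z, 0) = (z, 0)
        rw [vl_nil, mul_one, ← map_mul, S.bF_apply]
        show (z, (a * e) (S.c z) (S.nb z) 0) = (z, 0)
        rw [hzv, hzw, h0]
      | false =>
        have hd' : w' i = d := hd
        have h2 := hav [] (e, (i, d), false) w rfl (S.T i z) z ((congrFun hzw i).trans hd') hon
        apply h2
        show (S.bF a * vl S.bF S.bt [] * S.bF e) ((S.T i).symm (S.T i z), 0) = (z, 0)
        rw [vl_nil, mul_one, ← map_mul, Equiv.symm_apply_apply, S.bF_apply]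
        show (z, (a * e) (S.c z) (S.nb z) 0) = (z, 0)
        rw [hzv, hzw, h0])
    -- the same identity for the permutations
    have h2 : S.bF a * (S.bF e * sg (S.bt i d) ε) =
        svl S.bF S.bt r [(b, (i, d), ε)] * S.bF a₁ := by
      have h3l : ev (f (a * e) * sg (t i d) ε) = S.bF a * (S.bF e * sg (S.bt i d) ε) := by
        rw [map_mul ev, hf, map_sg, ht, map_mul, mul_assoc]
      have h3r : ev (f (sh r b) * sg (tw f r i {d} (t i d)) ε * f a₁) =
          svl S.bF S.bt r [(b, (i, d), ε)] * S.bF a₁ := by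
        rw [map_mul ev, map_mul ev, hf, hf, map_sg, tw, map_mul ev, map_mul ev, hf, hf, ht,
          svl_cons, svl_nil, mul_one]
        rfl
      rw [← h3l, ← h3r, h1]
    obtain ⟨w₁, a', hlen, h4⟩ := ih a₁ (by
      intro p x' q hw b' z' hb' hz' h5
      have h6 := hav ((e, (i, d), ε) :: p) x' q (by rw [hw]; rfl) b' z' hb' hz'
      apply h6
      have h7 : S.bF a * vl S.bF S.bt ((e, (i, d), ε) :: p) * S.bF x'.1 =
          svl S.bF S.bt r [(b, (i, d), ε)] * (S.bF a₁ * vl S.bF S.bt p * S.bF x'.1) := by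
        rw [vl_cons]
        calc S.bF a * (S.bF e * sg (S.bt i d) ε * vl S.bF S.bt p) * S.bF x'.1
            = (S.bF a * (S.bF e * sg (S.bt i d) ε)) * vl S.bF S.bt p * S.bF x'.1 := by group
          _ = (svl S.bF S.bt r [(b, (i, d), ε)] * S.bF a₁) * vl S.bF S.bt p * S.bF x'.1 := by rw [h2]
          _ = _ := by group
      rw [h7, Equiv.Perm.mul_apply, h5]
      exact svl_fix S r _ z' hz')
    refine ⟨(b, (i, d), ε) :: w₁, a', ?_, ?_⟩
    · rw [List.length_cons, List.length_cons, hlen]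
    · rw [vl_cons, svl_cons]
      show f a * (f e * sg (t i d) ε * vl f t w) =
        f (sh r b) * sg (tw f r i {d} (t i d)) ε * svl f t r w₁ * f a'
      calc f a * (f e * sg (t i d) ε * vl f t w) = (f (a * e) * sg (t i d) ε) * vl f t w := by
            rw [map_mul]
            group
        _ = f (sh r b) * sg (tw f r i {d} (t i d)) ε * (f a₁ * vl f t w) := by
            rw [h1]
            group
        _ = f (sh r b) * sg (tw f r i {d} (t i d)) ε * (svl f t r w₁ * f a') := by rw [h4]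
        _ = _ := by group

/-- **Deflation.** If the tokens `(z, 0)` of the blocks `z` with type in `r` are not moved while the word `w` is read
after `a`, and they return to their slots, then `f a * vl f t w * f a2` is a shifted word (it does not use these slots). -/
theorem dfl' {G : Type} [Group G] (f : Bl I V →* G) (t : I → V → G) (h : IsModel S.Edge f t)
    (ev : G →* Equiv.Perm (S.Z × ℕ)) (hf : ∀ e, ev (f e) = S.bF e)
    (ht : ∀ i c, ev (t i c) = S.bt i c)
    (r : V → (I → V) → Prop) (w : Wd I V) (a a2 : Bl I V) (hav : S.Avoid r a w)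
    (hfix : ∀ z, S.On r z → (S.bF a * vl S.bF S.bt w * S.bF a2) (z, 0) = (z, 0)) :
    ∃ (w' : Wd I V) (a₀ : Bl I V), w'.length = w.length ∧
      f a * vl f t w * f a2 = svl f t r w' * f (sh r a₀) := by
  obtain ⟨w', a', hlen, h1⟩ := dfl S f t h ev hf ht r w a hav
  have h2 : ∀ z, S.On r z → (a' * a2) (S.c z) (S.nb z) 0 = 0 := by
    intro z hz
    have h3 := hfix z hz
    have h4 : S.bF a * vl S.bF S.bt w = svl S.bF S.bt r w' * S.bF a' := by
      have h5 := congrArg ev h1
      rw [map_mul, map_mul, hf, hf, map_vl f t ev S.bF S.bt hf ht,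
        map_svl f t ev S.bF S.bt hf ht] at h5
      exact h5
    rw [h4, mul_assoc, ← map_mul, Equiv.Perm.mul_apply] at h3
    have h5 : (S.bF (a' * a2)) (z, 0) = (z, 0) :=
      (svl S.bF S.bt r w').injective (h3.trans (svl_fix S r w' z hz).symm)
    rw [S.bF_apply] at h5
    exact congrArg Prod.snd h5
  obtain ⟨a₀, ha₀⟩ := Dfl_sh r
    (fun v w => if r v w ∧ (a' * a2) v w 0 ≠ 0 then 1 else (a' * a2) v w) (by
      intro v w hr
      by_cases h3 : (a' * a2) v w 0 = 0
      · show (if r v w ∧ (a' * a2) v w 0 ≠ 0 then 1 else (a' * a2) v w) 0 = 0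
        rw [if_neg (fun h4 => h4.2 h3)]
        exact h3
      · show (if r v w ∧ (a' * a2) v w 0 ≠ 0 then 1 else (a' * a2) v w) 0 = 0
        rw [if_pos ⟨hr, h3⟩]
        rfl)
  refine ⟨w', a₀, hlen, ?_⟩
  rw [h1, mul_assoc, ← map_mul]
  congr 1
  refine Dfl_congr h fun v w hE => ?_
  rw [ha₀]
  obtain ⟨z, hzv, hzw⟩ := hE
  show (a' * a2) v w = if r v w ∧ (a' * a2) v w 0 ≠ 0 then 1 else (a' * a2) v w
  rw [if_neg]
  rintro ⟨h3, h4⟩
  apply h4
  have h5 := h2 z (by
    show r (S.c z) (S.nb z)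
    rw [hzv, hzw]
    exact h3)
  rw [hzv, hzw] at h5
  exact h5

end Sys

end Pool.Agent.H37.FG
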