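import Pool.Agent.H37.FG.Rel
import Pool.Agent.H37.FG.Dfl
import Pool.Agent.H13.BD.Pin

/-!
# The main lemma [H37 FG ML]

Adaptation of `Pool/Agent/H13/BD/ML.lean` from one permutation to a family of permutations.
-/

set_option autoImplicit false

open Classical

namespace Pool.Agent.H37.FG

open Pool.Agent.H13.TFG
open Pool.Agent.H13.BD (up up_zero up_succ bp bp_apply ii ii_pos ii_neg tau tau_apply tau_inv_apply swp swp_pos
  swp_neg sw2 tau_empty tau_bp tau_union slot_union Fin1 FH pinch wval)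

/-! ## lengths -/

section Ln

variable {I V G : Type} [Group G] (f : Bl I V →* G) (t : I → V → G)

/-- `x` is the value of a word with `n` letters `t_c^±` -/
def Ln (n : ℕ) (x : G) : Prop := ∃ (w : Wd I V) (a : Bl I V), w.length = n ∧ x = vl f t w * f a

theorem Ln.mul {n m : ℕ} {x y : G} (hx : Ln f t n x) (hy : Ln f t m y) :
    Ln f t (n + m) (x * y) := by
  obtain ⟨w, a, rfl, rfl⟩ := hx
  obtain ⟨w', a', rfl, rfl⟩ := hy
  cases w' with
  | nil =>
    refine ⟨w, a * a', by simp, ?_⟩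
    rw [vl_nil, one_mul, map_mul, mul_assoc]
  | cons u w' =>
    refine ⟨w ++ (a * u.1, u.2.1, u.2.2) :: w', a', by simp, ?_⟩
    rw [vl_append, vl_cons, vl_cons, map_mul]
    simp only [mul_assoc]

theorem Ln.vl (w : Wd I V) : Ln f t w.length (vl f t w) :=
  ⟨w, 1, rfl, by rw [map_one, mul_one]⟩

theorem Ln.ofF (a : Bl I V) : Ln f t 0 (f a) := ⟨[], a, rfl, by rw [vl_nil, one_mul]⟩

theorem Ln.ofT (c : I × V) (ε : Bool) : Ln f t 1 (sg (t c.1 c.2) ε) :=
  ⟨[(1, c, ε)], 1, rfl, by simp⟩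

theorem Ln.tw (r : V → (I → V) → Prop) (c : I × V) (ε : Bool) :
    Ln f t 1 (sg (tw f r c.1 {c.2} (t c.1 c.2)) ε) := by
  cases ε with
  | true =>
    have h := ((Ln.ofF f t (sw (fun v w => v ∈ ({c.2} : Set V) ∧ r v w))).mul f t
      (Ln.ofT f t c true)).mul f t (Ln.ofF f t (sw (fun v w => w c.1 ∈ ({c.2} : Set V) ∧ r v w)))
    exact h
  | false =>
    have h := ((Ln.ofF f t (sw (fun v w => w c.1 ∈ ({c.2} : Set V) ∧ r v w))⁻¹).mul f t
      (Ln.ofT f t c false)).mul f t (Ln.ofF f t (sw (fun v w => v ∈ ({c.2} : Set V) ∧ r v w))⁻¹)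
    have h2 : sg (FG.tw f r c.1 {c.2} (t c.1 c.2)) false =
        f (sw (fun v w => w c.1 ∈ ({c.2} : Set V) ∧ r v w))⁻¹ * sg (t c.1 c.2) false *
          f (sw (fun v w => v ∈ ({c.2} : Set V) ∧ r v w))⁻¹ := by
      rw [sg_false, sg_false, FG.tw, mul_inv_rev, mul_inv_rev, map_inv, map_inv, mul_assoc]
    rw [h2]
    exact h

theorem Ln.svl (r : V → (I → V) → Prop) (w : Wd I V) : Ln f t w.length (svl f t r w) := by
  induction w with
  | nil => exact ⟨[], 1, rfl, by simp⟩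
  | cons x w ih =>
    rw [svl_cons, List.length_cons, add_comm]
    have h := ((Ln.ofF f t (sh r x.1)).mul f t (Ln.tw f t r x.2.1 x.2.2)).mul f t ih
    rw [zero_add] at h
    exact h

theorem Ln.closure (x : G)
    (hx : x ∈ Subgroup.closure (Set.range f ∪ Set.range (fun u : I × V => t u.1 u.2))) :
    ∃ n, Ln f t n x := by
  have h : (∃ n, Ln f t n x) ∧ ∃ n, Ln f t n x⁻¹ := by
    refine Subgroup.closure_induction (p := fun x _ => (∃ n, Ln f t n x) ∧ ∃ n, Ln f t n x⁻¹)
      ?_ ?_ ?_ ?_ hx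
    · rintro _ (⟨a, rfl⟩ | ⟨c, rfl⟩)
      · exact ⟨⟨0, Ln.ofF f t a⟩, ⟨0, by rw [← map_inv]; exact Ln.ofF f t a⁻¹⟩⟩
      · exact ⟨⟨1, Ln.ofT f t c true⟩, ⟨1, Ln.ofT f t c false⟩⟩
    · exact ⟨⟨0, by rw [← map_one f]; exact Ln.ofF f t 1⟩,
        ⟨0, by rw [inv_one, ← map_one f]; exact Ln.ofF f t 1⟩⟩
    · rintro x y _ _ ⟨⟨n, hn⟩, ⟨n', hn'⟩⟩ ⟨⟨m, hm⟩, ⟨m', hm'⟩⟩
      exact ⟨⟨n + m, hn.mul f t hm⟩, ⟨m' + n', by rw [mul_inv_rev]; exact hm'.mul f t hn'⟩⟩
    · rintro x _ ⟨h1, h2⟩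
      exact ⟨h2, by rw [inv_inv]; exact h1⟩
  exact h.1

end Ln

/-! ## inflation -/

theorem conj_sg {G : Type} [Group G] {s x y : G} (h : s * x = y * s) (ε : Bool) :
    s * sg x ε = sg y ε * s := by
  cases ε with
  | true => exact h
  | false =>
    rw [sg_false, sg_false, mul_inv_eq_iff_eq_mul, mul_assoc, h, inv_mul_cancel_left]

theorem conj_svl {I V G : Type} [Group G] {E : V → (I → V) → Prop} {f : Bl I V →* G}
    {t : I → V → G} (h : IsModel E f t) (i : I) (c : V) (w : Wd I V) :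
    t i c * svl f t (inn i {c}) w = svl f t (out {c}) w * t i c := by
  induction w with
  | nil => simp
  | cons x w ih =>
    rw [svl_cons, svl_cons, ← mul_assoc, ← mul_assoc, h.relb, mul_assoc (f (sh (out {c}) x.1)) (t i c),
      conj_sg (h.relc i c x.2.1.1 x.2.1.2), mul_assoc _ _ (svl f t (inn i {c}) w),
      mul_assoc _ (t i c) (svl f t (inn i {c}) w), ih]
    simp only [mul_assoc]

namespace Sys

variable {I V : Type} (S : Sys I V)

/-! ## labels -/

/-- the state in which the label of a letter is taken -/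
noncomputable def pre (g : Equiv.Perm (S.Z × ℕ)) (x : Bl I V × (I × V) × Bool) : Equiv.Perm (S.Z × ℕ) :=
  g * S.bF x.1 * (if x.2.2 then 1 else (S.bt x.2.1.1 x.2.1.2)⁻¹)

/-- the state after a letter -/
noncomputable def post (g : Equiv.Perm (S.Z × ℕ)) (x : Bl I V × (I × V) × Bool) : Equiv.Perm (S.Z × ℕ) :=
  g * S.bF x.1 * sg (S.bt x.2.1.1 x.2.1.2) x.2.2

/-- the label of a letter -/
noncomputable def lbl (g : Equiv.Perm (S.Z × ℕ)) (x : Bl I V × (I × V) × Bool) : Lab I S.Z × Bool :=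
  (lb x.2.1.1 (S.c ⁻¹' {x.2.1.2}) (S.st (S.pre g x)), x.2.2)

/-- the labels of a word -/
noncomputable def labs : Equiv.Perm (S.Z × ℕ) → Wd I V → List (Lab I S.Z × Bool)
  | _, [] => []
  | g, x :: w => S.lbl g x :: labs (S.post g x) w

theorem labs_split (w : Wd I V) : ∀ (g : Equiv.Perm (S.Z × ℕ)) (p' r' : List (Lab I S.Z × Bool))
    (u : Lab I S.Z × Bool), S.labs g w = p' ++ u :: r' →
    ∃ (p : Wd I V) (x : Bl I V × (I × V) × Bool) (r : Wd I V), w = p ++ x :: r ∧ p' = S.labs g p ∧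
      u = S.lbl (g * vl S.bF S.bt p) x ∧
      r' = S.labs (S.post (g * vl S.bF S.bt p) x) r := by
  induction w with
  | nil =>
    intro g p' r' u h
    exact absurd h.symm (by simp [labs])
  | cons y w ih =>
    intro g p' r' u h
    rw [labs] at h
    cases p' with
    | nil =>
      rw [List.nil_append] at h
      obtain ⟨h1, h2⟩ := List.cons.inj h
      exact ⟨[], y, w, rfl, rfl, by rw [vl_nil, mul_one, h1], by rw [vl_nil, mul_one, h2]⟩
    | cons v p' =>
      rw [List.cons_append] at h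
      obtain ⟨h1, h2⟩ := List.cons.inj h
      obtain ⟨p, x, r, hw, hp, hu, hr⟩ := ih _ _ _ _ h2
      have h3 : S.post g y * vl S.bF S.bt p = g * vl S.bF S.bt (y :: p) := by
        rw [vl_cons, post]
        simp only [mul_assoc]
      rw [h3] at hu hr
      exact ⟨y :: p, x, r, by rw [hw]; rfl, by rw [← h1, hp]; rfl, hu, hr⟩

theorem labs_mem (w : Wd I V) : ∀ (g : Equiv.Perm (S.Z × ℕ)) (p q : Wd I V) (x : Bl I V × (I × V) × Bool),
    w = p ++ x :: q → S.lbl (g * vl S.bF S.bt p) x ∈ S.labs g w := by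
  induction w with
  | nil => intro g p q x h; simp at h
  | cons y w ih =>
    intro g p q x h
    cases p with
    | nil =>
      rw [List.nil_append] at h
      obtain ⟨rfl, rfl⟩ := List.cons.inj h
      rw [labs, vl_nil, mul_one]
      exact List.mem_cons_self
    | cons z p =>
      rw [List.cons_append] at h
      obtain ⟨rfl, h2⟩ := List.cons.inj h
      rw [labs]
      refine List.mem_cons_of_mem _ ?_
      have h3 : S.post g y * vl S.bF S.bt p = g * vl S.bF S.bt (y :: p) := by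
        rw [vl_cons, post]
        simp only [mul_assoc]
      rw [← h3]
      exact ih _ _ _ _ h2

/-- the standard letter in `GG` -/
noncomputable def tt (i : I) (c : V) : GG I S.Z :=
  ⟨g1 (lb i (S.c ⁻¹' {c}) (S.st 1)), S.bT i {c}⟩

theorem lb_ne (i : I) (c : V) (φ : S.Z → S.Z × ℕ) (hc : ∃ b, S.c b = c) :
    ¬ ∀ b, lb i (S.c ⁻¹' {c}) φ b = none := by
  intro h
  obtain ⟨b, hb⟩ := hc
  have h1 : lb i (S.c ⁻¹' {c}) φ (i, b) = some (φ b) := lb_eq_some.2 ⟨⟨rfl, hb⟩, rfl⟩
  rw [h (i, b)] at h1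
  exact absurd h1 (by simp)

/-- the left part of the value of a word -/
theorem left_vl (w : Wd I V) (hw : ∀ x ∈ w, ∃ b, S.c b = x.2.1.2) :
    ∀ g : Equiv.Perm (S.Z × ℕ),
      raagAct (tg I S.Z) (Equiv.Perm (S.Z × ℕ)) (tg_smul I S.Z) g (vl S.F S.tt w).left =
        wval (tg I S.Z) (S.labs g w) := by
  induction w with
  | nil =>
    intro g
    rw [vl_nil, labs]
    change _ = (1 : RAAG (tg I S.Z))
    rw [SemidirectProduct.one_left, map_one]
  | cons x w ih =>
    intro g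
    have ih' := ih (fun y hy => hw y (List.mem_cons_of_mem _ hy)) (S.post g x)
    have hx := hw x List.mem_cons_self
    have h1 : wval (tg I S.Z) (S.labs g (x :: w)) =
        (if x.2.2 then gen (tg I S.Z) (S.lbl g x).1 else (gen (tg I S.Z) (S.lbl g x).1)⁻¹) *
          wval (tg I S.Z) (S.labs (S.post g x) w) := by
      rw [labs, wval, List.map_cons, List.prod_cons]
      rfl
    have h2 : gen (tg I S.Z) (S.lbl g x).1 = g1 (S.lbl g x).1 := by
      have h3 : ¬ ∀ b, (S.lbl g x).1 b = none := S.lb_ne _ _ _ hx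
      rw [g1, if_neg h3]
    rw [h1, h2, ← ih', vl_cons]
    obtain ⟨e, ⟨i, c⟩, ε⟩ := x
    cases ε with
    | true =>
      rw [mul_assoc, SemidirectProduct.mul_left, SemidirectProduct.mul_left]
      change raagAct (tg I S.Z) (Equiv.Perm (S.Z × ℕ)) (tg_smul I S.Z) g
        (1 * raagAct (tg I S.Z) (Equiv.Perm (S.Z × ℕ)) (tg_smul I S.Z) (S.bF e)
          (g1 (lb i (S.c ⁻¹' {c}) (S.st 1)) *
            raagAct (tg I S.Z) (Equiv.Perm (S.Z × ℕ)) (tg_smul I S.Z) (S.bt i c)
              (vl S.F S.tt w).left)) = g1 (lb i (S.c ⁻¹' {c}) (S.st (S.pre g (e, (i, c), true)))) * _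
      rw [one_mul, map_mul, map_mul, g1_act, g1_act, smul_lb, smul_lb]
      have h3 : ∀ (a b d : Equiv.Perm (S.Z × ℕ)) (y : RAAG (tg I S.Z)),
          raagAct (tg I S.Z) (Equiv.Perm (S.Z × ℕ)) (tg_smul I S.Z) a
            (raagAct (tg I S.Z) (Equiv.Perm (S.Z × ℕ)) (tg_smul I S.Z) b
              (raagAct (tg I S.Z) (Equiv.Perm (S.Z × ℕ)) (tg_smul I S.Z) d y)) =
          raagAct (tg I S.Z) (Equiv.Perm (S.Z × ℕ)) (tg_smul I S.Z) (a * b * d) y := by
        intro a b d y
        rw [map_mul, map_mul]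
        rfl
      rw [h3]
      rfl
    | false =>
      rw [mul_assoc, SemidirectProduct.mul_left, SemidirectProduct.mul_left]
      change raagAct (tg I S.Z) (Equiv.Perm (S.Z × ℕ)) (tg_smul I S.Z) g
        (1 * raagAct (tg I S.Z) (Equiv.Perm (S.Z × ℕ)) (tg_smul I S.Z) (S.bF e)
          ((S.tt i c)⁻¹.left *
            raagAct (tg I S.Z) (Equiv.Perm (S.Z × ℕ)) (tg_smul I S.Z) (S.bt i c)⁻¹
              (vl S.F S.tt w).left)) =
        (g1 (lb i (S.c ⁻¹' {c}) (S.st (S.pre g (e, (i, c), false)))))⁻¹ * _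
      rw [SemidirectProduct.inv_left]
      change raagAct (tg I S.Z) (Equiv.Perm (S.Z × ℕ)) (tg_smul I S.Z) g
        (1 * raagAct (tg I S.Z) (Equiv.Perm (S.Z × ℕ)) (tg_smul I S.Z) (S.bF e)
          (raagAct (tg I S.Z) (Equiv.Perm (S.Z × ℕ)) (tg_smul I S.Z) (S.bt i c)⁻¹
            (g1 (lb i (S.c ⁻¹' {c}) (S.st 1)))⁻¹ *
            raagAct (tg I S.Z) (Equiv.Perm (S.Z × ℕ)) (tg_smul I S.Z) (S.bt i c)⁻¹
              (vl S.F S.tt w).left)) =
        (g1 (lb i (S.c ⁻¹' {c}) (S.st (S.pre g (e, (i, c), false)))))⁻¹ * _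
      have h3 : ∀ (a b d : Equiv.Perm (S.Z × ℕ)) (y : RAAG (tg I S.Z)),
          raagAct (tg I S.Z) (Equiv.Perm (S.Z × ℕ)) (tg_smul I S.Z) a
            (raagAct (tg I S.Z) (Equiv.Perm (S.Z × ℕ)) (tg_smul I S.Z) b
              (raagAct (tg I S.Z) (Equiv.Perm (S.Z × ℕ)) (tg_smul I S.Z) d y)) =
          raagAct (tg I S.Z) (Equiv.Perm (S.Z × ℕ)) (tg_smul I S.Z) (a * b * d) y := by
        intro a b d y
        rw [map_mul, map_mul]
        rfl
      rw [one_mul, ← map_mul, h3, map_mul, map_inv, g1_act, smul_lb]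
      rfl

end Sys

/-- a letter whose colour is not used can be removed -/
theorem ml_unused {I V : Type} (S : Sys I V) {G : Type} [Group G] (f : Bl I V →* G)
    (t : I → V → G) (h : IsModel S.Edge f t) (i : I) (c : V) (hc : ¬ ∃ b, S.c b = c) :
    t i c = 1 := by
  apply h.reld
  rintro w ⟨z, hz, _⟩
  exact hc ⟨_, hz⟩

theorem ml_pinch_in {I V : Type} (S : Sys I V) (g : Equiv.Perm (S.Z × ℕ)) (e1 e2 : Bl I V) (i : I)
    (c : V)
    (m : Wd I V)
    (h1 : (S.lbl g (e1, (i, c), true)).1 =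
      (S.lbl (S.post g (e1, (i, c), true) * vl S.bF S.bt m) (e2, (i, c), false)).1)
    (h2 : ∀ x ∈ S.labs (S.post g (e1, (i, c), true)) m,
      (tg I S.Z).Adj (S.lbl g (e1, (i, c), true)).1 x.1) :
    S.Avoid (inn i {c}) 1 m ∧
      ∀ z, S.On (inn i {c}) z → (S.bF 1 * vl S.bF S.bt m * S.bF e2) (z, 0) = (z, 0) := by
  have hbt : ∀ (j : I) (d : V) (b : S.Z), S.c b = d →
      (S.bt j d)⁻¹ (b, 0) = ((S.T j).symm b, 0) := by
    intro j d b hb
    change (tau (S.T j) (S.c ⁻¹' {d}))⁻¹ (b, 0) = _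
    rw [tau_inv_apply, if_pos ⟨hb, rfl⟩]
  have hz0 : ∀ z, S.On (inn i {c}) z → (S.bt i c) (z, 0) = (S.T i z, 0) := by
    intro z hz
    change tau (S.T i) (S.c ⁻¹' {c}) (z, 0) = _
    rw [tau_apply, if_pos ⟨hz, rfl⟩]
  refine ⟨?_, ?_⟩
  · intro p x q hm b z hb hz
    have h3 := h2 _ (S.labs_mem m _ p q x hm)
    have h4 := h3.2 (i, S.T i z) (x.2.1.1, b)
    intro h5
    have hl1 : (S.lbl g (e1, (i, c), true)).1 (i, S.T i z) =
        some ((g * S.bF e1 * S.bt i c) (z, 0)) := by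
      refine lb_eq_some.2 ⟨⟨rfl, hz⟩, ?_⟩
      rw [Equiv.Perm.mul_apply, hz0 z hz]
      rfl
    refine h4 _ hl1 (lb_eq_some.2 ⟨⟨rfl, hb⟩, ?_⟩)
    obtain ⟨e, ⟨j, d⟩, ε⟩ := x
    rw [← h5]
    cases ε with
    | true => rw [map_one, one_mul]; rfl
    | false =>
      have h6 : (S.bt j d)⁻¹ (b, 0) = ((S.T j).symm b, 0) := hbt j d b hb
      rw [map_one, one_mul]
      change (g * S.bF e1 * S.bt i c * vl S.bF S.bt p * S.bF e * (S.bt j d)⁻¹) (b, 0) = _
      rw [Equiv.Perm.mul_apply _ (S.bt j d)⁻¹, h6]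
      rfl
  · intro z hz
    have h3 := congrFun h1 (i, S.T i z)
    have hl1 : (S.lbl g (e1, (i, c), true)).1 (i, S.T i z) =
        some ((g * S.bF e1 * S.bt i c) (z, 0)) := by
      refine lb_eq_some.2 ⟨⟨rfl, hz⟩, ?_⟩
      rw [Equiv.Perm.mul_apply, hz0 z hz]
      rfl
    rw [hl1] at h3
    have h4 := (lb_eq_some.1 h3.symm).2
    have h5 : (g * S.bF e1 * S.bt i c * vl S.bF S.bt m * S.bF e2 * (S.bt i c)⁻¹) (S.T i z, 0) =
        (g * S.bF e1 * S.bt i c) (z, 0) := h4
    rw [Equiv.Perm.mul_apply _ (S.bt i c)⁻¹, hbt i c (S.T i z) hz, Equiv.symm_apply_apply,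
      mul_assoc, Equiv.Perm.mul_apply (g * S.bF e1 * S.bt i c)] at h5
    have h6 := (g * S.bF e1 * S.bt i c).injective h5
    rw [map_one, one_mul]
    exact h6

theorem ml_pinch_out {I V : Type} (S : Sys I V) (g : Equiv.Perm (S.Z × ℕ)) (e1 e2 : Bl I V) (i : I)
    (c : V)
    (m : Wd I V)
    (h1 : (S.lbl g (e1, (i, c), false)).1 =
      (S.lbl (S.post g (e1, (i, c), false) * vl S.bF S.bt m) (e2, (i, c), true)).1)
    (h2 : ∀ x ∈ S.labs (S.post g (e1, (i, c), false)) m,
      (tg I S.Z).Adj (S.lbl g (e1, (i, c), false)).1 x.1) :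
    S.Avoid (out {c}) 1 m ∧
      ∀ z, S.On (out {c}) z → (S.bF 1 * vl S.bF S.bt m * S.bF e2) (z, 0) = (z, 0) := by
  have hbt : ∀ (j : I) (d : V) (b : S.Z), S.c b = d →
      (S.bt j d)⁻¹ (b, 0) = ((S.T j).symm b, 0) := by
    intro j d b hb
    change (tau (S.T j) (S.c ⁻¹' {d}))⁻¹ (b, 0) = _
    rw [tau_inv_apply, if_pos ⟨hb, rfl⟩]
  refine ⟨?_, ?_⟩
  · intro p x q hm b z hb hz
    have h3 := h2 _ (S.labs_mem m _ p q x hm)
    have h4 := h3.2 (i, z) (x.2.1.1, b)
    intro h5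
    have hl1 : (S.lbl g (e1, (i, c), false)).1 (i, z) =
        some ((g * S.bF e1 * (S.bt i c)⁻¹) (z, 0)) :=
      lb_eq_some.2 ⟨⟨rfl, hz⟩, rfl⟩
    refine h4 _ hl1 (lb_eq_some.2 ⟨⟨rfl, hb⟩, ?_⟩)
    obtain ⟨e, ⟨j, d⟩, ε⟩ := x
    rw [← h5]
    cases ε with
    | true => rw [map_one, one_mul]; rfl
    | false =>
      have h6 : (S.bt j d)⁻¹ (b, 0) = ((S.T j).symm b, 0) := hbt j d b hb
      rw [map_one, one_mul]
      change (g * S.bF e1 * (S.bt i c)⁻¹ * vl S.bF S.bt p * S.bF e * (S.bt j d)⁻¹) (b, 0) = _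
      rw [Equiv.Perm.mul_apply _ (S.bt j d)⁻¹, h6]
      rfl
  · intro z hz
    have h3 := congrFun h1 (i, z)
    have hl1 : (S.lbl g (e1, (i, c), false)).1 (i, z) =
        some ((g * S.bF e1 * (S.bt i c)⁻¹) (z, 0)) :=
      lb_eq_some.2 ⟨⟨rfl, hz⟩, rfl⟩
    rw [hl1] at h3
    have h4 := (lb_eq_some.1 h3.symm).2
    have h5 : (g * S.bF e1 * (S.bt i c)⁻¹ * vl S.bF S.bt m * S.bF e2 * 1) (z, 0) =
        (g * S.bF e1 * (S.bt i c)⁻¹) (z, 0) := h4
    rw [mul_one, mul_assoc, Equiv.Perm.mul_apply (g * S.bF e1 * (S.bt i c)⁻¹)] at h5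
    have h6 := (g * S.bF e1 * (S.bt i c)⁻¹).injective h5
    rw [map_one, one_mul]
    exact h6

theorem ml_aux {I V : Type} (S : Sys I V) {G : Type} [Group G] (f : Bl I V →* G)
    (t : I → V → G) (h : IsModel S.Edge f t) (ev : G →* GG I S.Z) (hf : ∀ e, ev (f e) = S.F e)
    (ht : ∀ i c, ev (t i c) = S.tt i c) (n : ℕ) :
    ∀ x : G, Ln f t n x → ev x = 1 → x = 1 := by
  induction n using Nat.strong_induction_on with
  | _ n ih =>
  rintro x ⟨w, a, hn, rfl⟩ h1
  have hvl : ev (vl f t w) = vl S.F S.tt w := map_vl f t ev S.F S.tt hf ht w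
  -- the homomorphism to the permutations
  let ev2 : G →* Equiv.Perm (S.Z × ℕ) := SemidirectProduct.rightHom.comp ev
  have hf2 : ∀ e, ev2 (f e) = S.bF e := by
    intro e
    change SemidirectProduct.rightHom (ev (f e)) = _
    rw [hf]
    rfl
  have ht2 : ∀ i c, ev2 (t i c) = S.bt i c := by
    intro i c
    change SemidirectProduct.rightHom (ev (t i c)) = _
    rw [ht]
    rfl
  by_cases hused : ∀ x ∈ w, ∃ b, S.c b = x.2.1.2
  · -- all letters are used
    by_cases hw : w = []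
    · subst hw
      rw [vl_nil, one_mul] at h1 ⊢
      have h2 : S.bF a = 1 := by
        rw [← hf2]
        change SemidirectProduct.rightHom (ev (f a)) = _
        rw [h1, map_one]
      apply h.rela
      rintro v w ⟨z, rfl, rfl⟩
      ext k
      have h3 := congrArg Prod.snd (DFunLike.congr_fun h2 (z, k))
      exact h3
    · have h2 : (ev (vl f t w * f a)).left = 1 := by rw [h1]; rfl
      rw [map_mul, hvl, hf, SemidirectProduct.mul_left] at h2
      have h3 : (vl S.F S.tt w).left = 1 := by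
        have h4 : (S.F a).left = 1 := rfl
        rw [h4, map_one, mul_one] at h2
        exact h2
      have h4 := S.left_vl w hused 1
      rw [h3, map_one] at h4
      have h5 : S.labs 1 w ≠ [] := by
        cases w with
        | nil => exact absurd rfl hw
        | cons y w => simp [Sys.labs]
      obtain ⟨p', m', q', v, ε, h6, h7⟩ := pinch (tg I S.Z) (S.labs 1 w) h5 h4.symm
      obtain ⟨p, x1, r, hw1, -, hx1, hr⟩ := S.labs_split w 1 p' _ _ h6
      rw [one_mul] at hx1 hr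
      obtain ⟨m, x2, q, hw2, hm', hx2, -⟩ := S.labs_split r _ m' _ _ hr.symm
      obtain ⟨e1, ⟨i1, c1⟩, ε1⟩ := x1
      obtain ⟨e2, ⟨i2, c2⟩, ε2⟩ := x2
      have hε1 : ε = ε1 := congrArg Prod.snd hx1
      have hε2 : (!ε) = ε2 := congrArg Prod.snd hx2
      have hv1 : v = _ := congrArg Prod.fst hx1
      have hv2 : v = _ := congrArg Prod.fst hx2
      -- the colours are equal
      have hc : i1 = i2 ∧ c1 = c2 := by
        obtain ⟨b, hb⟩ := hused (e1, (i1, c1), ε1) (by rw [hw1]; simp)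
        have h8 : v (i1, b) = some (S.st (S.pre (vl S.bF S.bt p) (e1, (i1, c1), ε1)) b) := by
          rw [hv1]
          exact lb_eq_some.2 ⟨⟨rfl, hb⟩, rfl⟩
        rw [hv2] at h8
        have h9 : i1 = i2 ∧ S.c b = c2 := (lb_eq_some.1 h8).1
        have h10 : S.c b = c1 := hb
        exact ⟨h9.1, by rw [← h10, h9.2]⟩
      obtain ⟨hci, hc⟩ := hc
      subst hci
      subst hc
      subst hε1
      -- the new element of the middle
      have hkey : ∃ y : G, Ln f t m.length y ∧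
          sg (t i1 c1) ε * (vl f t m * f e2) * sg (t i1 c1) ε2 = y := by
        cases ε with
        | true =>
          subst hε2
          obtain ⟨hav, hfix⟩ := ml_pinch_in S (vl S.bF S.bt p) e1 e2 i1 c1 m
            (hv1.symm.trans hv2) (by
              intro u hu
              rw [← hm'] at hu
              rw [← hv1]
              exact h7 u hu)
          obtain ⟨m1, a0, hm1, hm2⟩ := S.dfl' f t h ev2 hf2 ht2 (inn i1 {c1}) m 1 e2 hav hfix
          refine ⟨svl f t (out {c1}) m1 * f (sh (out {c1}) a0), ?_, ?_⟩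
          · rw [← hm1]
            exact (Ln.svl f t _ m1).mul f t (Ln.ofF f t _)
          · rw [map_one, one_mul] at hm2
            rw [hm2]
            change t i1 c1 * _ * (t i1 c1)⁻¹ = _
            rw [mul_inv_eq_iff_eq_mul, ← mul_assoc, conj_svl h, mul_assoc _ (t i1 c1), h.relb,
              mul_assoc]
        | false =>
          subst hε2
          obtain ⟨hav, hfix⟩ := ml_pinch_out S (vl S.bF S.bt p) e1 e2 i1 c1 m
            (hv1.symm.trans hv2) (by
              intro u hu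
              rw [← hm'] at hu
              rw [← hv1]
              exact h7 u hu)
          obtain ⟨m1, a0, hm1, hm2⟩ := S.dfl' f t h ev2 hf2 ht2 (out {c1}) m 1 e2 hav hfix
          refine ⟨svl f t (inn i1 {c1}) m1 * f (sh (inn i1 {c1}) a0), ?_, ?_⟩
          · rw [← hm1]
            exact (Ln.svl f t _ m1).mul f t (Ln.ofF f t _)
          · rw [map_one, one_mul] at hm2
            rw [hm2]
            change (t i1 c1)⁻¹ * _ * t i1 c1 = _
            rw [mul_assoc, inv_mul_eq_iff_eq_mul, ← mul_assoc (t i1 c1), conj_svl h,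
              mul_assoc _ (t i1 c1), h.relb, mul_assoc]
      obtain ⟨y, hy, hy2⟩ := hkey
      have h8 : vl f t w * f a = vl f t p * f e1 * y * (vl f t q * f a) := by
        rw [hw1, hw2, ← hy2, vl_append, vl_cons, vl_append, vl_cons]
        simp only [mul_assoc]
      have h9 : Ln f t (p.length + 0 + m.length + (q.length + 0)) (vl f t w * f a) := by
        rw [h8]
        exact (((Ln.vl f t p).mul f t (Ln.ofF f t e1)).mul f t hy).mul f t
          ((Ln.vl f t q).mul f t (Ln.ofF f t a))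
      refine ih _ ?_ _ h9 h1
      rw [← hn, hw1, hw2]
      simp only [List.length_append, List.length_cons]
      omega
  · -- some letter is not used
    obtain ⟨x, hx⟩ := not_forall.1 hused
    obtain ⟨hx, hx2⟩ := Classical.not_imp.1 hx
    obtain ⟨p, q, rfl⟩ := List.append_of_mem hx
    have h2 : t x.2.1.1 x.2.1.2 = 1 := ml_unused S f t h x.2.1.1 x.2.1.2 hx2
    have h3 : vl f t (p ++ x :: q) = vl f t p * f x.1 * vl f t q := by
      rw [vl_append, vl_cons, h2]
      have h4 : sg (1 : G) x.2.2 = 1 := by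
        cases x.2.2 <;> simp
      rw [h4, mul_one, mul_assoc]
    have h5 : Ln f t (p.length + 0 + q.length + 0) (vl f t (p ++ x :: q) * f a) := by
      rw [h3]
      exact (((Ln.vl f t p).mul f t (Ln.ofF f t x.1)).mul f t (Ln.vl f t q)).mul f t (Ln.ofF f t a)
    refine ih _ ?_ _ h5 h1
    rw [← hn]
    simp

/-- **Main lemma.** A model of the relations for the types of `S`, with a homomorphism to `GG I S.Z` which maps the
generators to the standard elements: the homomorphism is injective on the subgroup generated by the generators. -/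
theorem ml {I V : Type} (S : Sys I V) {G : Type} [Group G] (f : Bl I V →* G) (t : I → V → G)
    (h : IsModel S.Edge f t) (ev : G →* GG I S.Z) (hf : ∀ e, ev (f e) = S.F e)
    (ht : ∀ i c, ev (t i c) = ⟨g1 (lb i (S.c ⁻¹' {c}) (S.st 1)), S.bT i {c}⟩) (x : G)
    (hx : x ∈ Subgroup.closure (Set.range f ∪ Set.range (fun u : I × V => t u.1 u.2)))
    (h1 : ev x = 1) : x = 1 := by
  obtain ⟨n, hn⟩ := Ln.closure f t x hx
  exact ml_aux S f t h ev hf ht n x hn h1

end Pool.Agent.H37.FG
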