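import Pool.Agent.H37.FG.Rel
import Pool.Agent.H37.FG.ML

/-!
# The relations of a system depend only on its types [H37 FG MLp]

MODULE: adaptation of the finished file `Pool/Agent/H13/BD/MLp.lean` (copy it; `mlpT` gets the arguments `i c`, `mlp_inr`
is for one `i` and by induction on the finite set `A`, generators `inr (i, A)`).
-/

set_option autoImplicit false

open Classical

namespace Pool.Agent.H37.FG

open Pool.Agent.H13.TFG

/-- the homomorphism of the block permutations -/
private def mlpF {I V V' : Type} [Finite V] [Finite V'] (π : V' → V) (S : Sys I V) (R : Sys I V') :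
    Bl I V →* GG I S.Z × GG I R.Z :=
  (S.F).prod (R.F.comp (Sys.blc π))

/-- the token moves -/
private noncomputable def mlpT {I V V' : Type} [Finite V] [Finite V'] (π : V' → V) (S : Sys I V)
    (R : Sys I V') (i : I) (c : V) : GG I S.Z × GG I R.Z := (S.t i {c}, R.t i (π ⁻¹' {c}))

private theorem mlp_model {I V V' : Type} [Finite V] [Finite V'] (π : V' → V) (S : Sys I V)
    (R : Sys I V') (hE : ∀ v w, (R.push π).Edge v w → S.Edge v w) :
    IsModel S.Edge (mlpF π S R) (mlpT π S R) := by
  have hm := Sys.model_push R π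
  refine ⟨fun e he => ?_, fun i c e => ?_, fun i c j d => ?_, fun i c hc => ?_⟩
  · exact Prod.ext (S.rel_a e he) (hm.rela e fun v w hvw => he v w (hE v w hvw))
  · exact Prod.ext (S.rel_b i {c} e) (hm.relb i c e)
  · exact Prod.ext (S.rel_c i {c} j {d}) (hm.relc i c j d)
  · exact Prod.ext (S.rel_d i {c} fun b hb => hc (S.nb b) ⟨b, hb, rfl⟩)
      (hm.reld i c fun w hw => hc w (hE c w hw))

private theorem mlp_inr {I V V' : Type} [Finite V] [Finite V'] (π : V' → V) (S : Sys I V)
    (R : Sys I V') (i : I) (A : Set V) :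
    ((S.t i A, R.t i (π ⁻¹' A)) : GG I S.Z × GG I R.Z) ∈
      Subgroup.closure (Set.range (mlpF π S R) ∪
        Set.range (fun u : I × V => mlpT π S R u.1 u.2)) := by
  induction A, Set.toFinite A using Set.Finite.induction_on with
  | empty =>
    have h1 : ((S.t i ∅, R.t i (π ⁻¹' ∅)) : GG I S.Z × GG I R.Z) = 1 := by
      rw [Set.preimage_empty, S.t_empty, R.t_empty]
      rfl
    rw [h1]
    exact Subgroup.one_mem _
  | @insert c A hc _ ih =>
    have h1 : insert c A = A ∪ {c} := by
      rw [Set.union_singleton]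
    have h2 : Disjoint A {c} := Set.disjoint_singleton_right.2 hc
    have h3 : Disjoint (π ⁻¹' A) (π ⁻¹' {c}) := h2.preimage π
    have h4 : ((S.t i (insert c A), R.t i (π ⁻¹' (insert c A))) : GG I S.Z × GG I R.Z) =
        mlpT π S R i c * mlpF π S R (sw fun v w => v ∈ A ∧ w i ∈ ({c} : Set V)) *
          (S.t i A, R.t i (π ⁻¹' A)) := by
      rw [h1, Set.preimage_union, S.rel_u i A {c} h2, R.rel_u i (π ⁻¹' A) (π ⁻¹' {c}) h3]
      rfl
    rw [h4]
    refine Subgroup.mul_mem _ (Subgroup.mul_mem _ ?_ ?_) ih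
    · exact Subgroup.subset_closure (Or.inr ⟨(i, c), rfl⟩)
    · exact Subgroup.subset_closure (Or.inl ⟨_, rfl⟩)

private theorem mlp_ev_inl {I V : Type} [Finite V] (S : Sys I V) (e : V → (I → V) → Pool.Agent.H13.BD.Fin1) :
    S.ev (FreeGroup.of (Sum.inl e)) = S.F (fun v w => (e v w : Equiv.Perm ℕ)) := by
  unfold Sys.ev
  rw [FreeGroup.lift_apply_of, Sum.elim_inl]

private theorem mlp_ev_inr {I V : Type} [Finite V] (S : Sys I V) (A : I × Set V) :
    S.ev (FreeGroup.of (Sum.inr A)) = S.t A.1 A.2 := by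
  unfold Sys.ev
  rw [FreeGroup.lift_apply_of, Sum.elim_inr]

private theorem mlp_rf_inl {I V V' : Type} (π : V' → V) (e : V → (I → V) → Pool.Agent.H13.BD.Fin1) :
    rf π (FreeGroup.of (Sum.inl e)) =
      FreeGroup.of (Sum.inl fun v w => e (π v) (fun i => π (w i))) := by
  unfold rf
  rw [FreeGroup.map.of, Sum.map_inl]

private theorem mlp_rf_inr {I V V' : Type} (π : V' → V) (A : I × Set V) :
    rf π (FreeGroup.of (Sum.inr A)) = FreeGroup.of (Sum.inr (A.1, π ⁻¹' A.2)) := by
  unfold rf
  rw [FreeGroup.map.of, Sum.map_inr]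

/-- the homomorphism given by both systems -/
private noncomputable def mlpH {I V V' : Type} [Finite V] [Finite V'] (π : V' → V) (S : Sys I V)
    (R : Sys I V') : PP I V →* GG I S.Z × GG I R.Z := (S.ev).prod (R.ev.comp (rf π))

private theorem mlp_mem {I V V' : Type} [Finite V] [Finite V'] (π : V' → V) (S : Sys I V)
    (R : Sys I V') (p : PP I V) : mlpH π S R p ∈
      Subgroup.closure (Set.range (mlpF π S R) ∪
        Set.range (fun u : I × V => mlpT π S R u.1 u.2)) := by
  induction p using FreeGroup.induction_on with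
  | C1 =>
    rw [map_one]
    exact Subgroup.one_mem _
  | of x =>
    rcases x with e | A
    · refine Subgroup.subset_closure (Or.inl ⟨fun v w => (e v w : Equiv.Perm ℕ), ?_⟩)
      refine Prod.ext (mlp_ev_inl S e).symm ?_
      have h1 : R.ev (rf π (FreeGroup.of (Sum.inl e))) =
          R.F (fun v w => (e (π v) (fun i => π (w i)) : Equiv.Perm ℕ)) := by
        rw [mlp_rf_inl, mlp_ev_inl]
      exact h1.symm
    · have h1 := mlp_inr π S R A.1 A.2
      have h2 : mlpH π S R (FreeGroup.of (Sum.inr A)) =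
          ((S.t A.1 A.2, R.t A.1 (π ⁻¹' A.2)) : GG I S.Z × GG I R.Z) := by
        refine Prod.ext (mlp_ev_inr S A) ?_
        have h3 : R.ev (rf π (FreeGroup.of (Sum.inr A))) = R.t A.1 (π ⁻¹' A.2) := by
          rw [mlp_rf_inr, mlp_ev_inr]
        exact h3
      rw [h2]
      exact h1
  | inv_of x hx =>
    rw [map_inv]
    exact Subgroup.inv_mem _ hx
  | mul p q hp hq =>
    rw [map_mul]
    exact Subgroup.mul_mem _ hp hq

/-- An element of the free group which is trivial in `GG I S.Z` is trivial in `GG I R.Z`, also for finer colours, if the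
types of `R` are types of `S`. -/
theorem mlp {I V V' : Type} [Finite V] [Finite V'] (π : V' → V) (S : Sys I V) (R : Sys I V')
    (hE : ∀ v w, (R.push π).Edge v w → S.Edge v w) (p : PP I V) (hp : S.ev p = 1) :
    R.ev (rf π p) = 1 := by
  have h1 := ml S (mlpF π S R) (mlpT π S R) (mlp_model π S R hE) (MonoidHom.fst _ _)
    (fun _ => rfl) (fun i c => by
      change (⟨LA S.c (S.st 1) i {c}, S.bT i {c}⟩ : GG I S.Z) = _
      rw [LA_single]) _ (mlp_mem π S R p) hp
  exact congrArg Prod.snd h1

end Pool.Agent.H37.FG
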