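import Pool.Agent.H37.FG.Mass
import Pool.Agent.H37.FG.MLp
import Pool.Agent.H37.FG.Loc
import Pool.Agent.H13.BD.Cls

/-!
# The approximations are in the class [H37 FG Apx]

`gg_mem`: adaptation of `gg_mem` in `Pool/Agent/H13/BD/Apx.lean` (same proof).

`apx`: let `R` be the finite system of `mass_sys`. By `mlp` with `π = id` (in both directions; `rf id p = p`, as
`mai_rf_id` in `H13/BD/Mai.lean`; `(R.push id).Edge = R.Edge`) we have `R.ev p = 1 ↔ (ysys T c).ev p = 1`. So `N0 T c` is the
kernel of the homomorphism `p ↦ R.ev p` from `P0 T c` to `GG I R.Z`, its image is contained in the subgroup of `gg_mem` by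
`FH_of_edge` (`S = ysys T c`) and `ev_right`, and `P0 T c ⧸ N0 T c` embeds in this subgroup
(`QuotientGroup.lift` with injectivity, or `QuotientGroup.quotientKerEquivRange` and an isomorphism of quotients by equal
subgroups); `Inherits.of_injective`, `raagClass (inheritsExt hC hE)` (from `H13/BD/Cls.lean`).
-/

set_option autoImplicit false

open Classical

namespace Pool.Agent.H37.FG

open Pool.Agent.H98.FJ Pool.Agent.H13.TFG
open Pool.Agent.H13.BD (FH fh_lf inheritsExt raagClass)

/-- the elements of `GG I Y`, `Y` finite, with right part in `FH Y` -/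
theorem gg_mem {C : (G : Type) → [Group G] → Prop} (hC : RaagClass C) (I Y : Type) [Finite Y] :
    C ((FH Y).comap (SemidirectProduct.rightHom : GG I Y →* Equiv.Perm (Y × ℕ))) := by
  sorry

theorem apx {C : (G : Type) → [Group G] → Prop} (hC : Inherits C) (hE : Extension C)
    {I X V : Type} [Finite I] [Finite V] {T : I → Equiv.Perm X} {𝓑 : Set (Set X)}
    (hB : IsAlg T 𝓑) (hm : HasMass T 𝓑) (c : X → V) (hc : ∀ v, c ⁻¹' {v} ∈ 𝓑) :
    C (P0 T c ⧸ N0 T c) := by
  sorry

end Pool.Agent.H37.FG
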