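import Pool.Agent.H13.BD.Tau

/-!
# Systems with several permutations: labels, block permutations, token moves

Generalisation of `Pool/Agent/H13/BD/Defs.lean` from one permutation `T` to a family `T : I → Equiv.Perm Y`. `Y` is a
set of blocks; the boundary `(i, y)` lies between the blocks `(T i)⁻¹ y` and `y`. Every block has the slots `0, 1, 2, …`
for tokens. `tau (T i) B` (from `H13/BD/Defs.lean`) moves the token of the first slot of the block of `y` over the
boundary `(i, T i y)` if `T i y ∈ B`. The type of the block of `y` is `(c y, fun i => c (T i y))` for a colouring `c`;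
block permutations depend on the type. A label is a partial function from the boundaries to the tokens; two labels are
adjacent if they have no common tokens. `GG I Y` is the semidirect product of the right-angled Artin group on the labels
and the permutations of the tokens.
-/

set_option autoImplicit false

open Classical

namespace Pool.Agent.H37.FG

open Pool.Agent.H13.TFG
open Pool.Agent.H13.BD (up up_zero up_succ bp bp_apply ii ii_pos ii_neg tau tau_apply tau_inv_apply swp swp_pos
  swp_neg sw2 tau_empty tau_bp tau_union slot_union Fin1 FH)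

/-! ## labels -/

/-- labels: partial functions from the boundaries to the tokens. `Equiv.Perm (Y × ℕ)` acts on the labels by
`(h • S) b = h • S b` (Mathlib's pointwise instances). -/
abbrev Lab (I Y : Type) : Type := I × Y → Option (Y × ℕ)

/-- the two labels have no common tokens -/
def Disj {I Y : Type} (S S' : Lab I Y) : Prop := ∀ b b' t, S b = some t → S' b' ≠ some t

theorem Disj.symm {I Y : Type} {S S' : Lab I Y} (h : Disj S S') : Disj S' S :=
  fun b b' t h1 h2 => h b' b t h2 h1

theorem Disj.smul {I Y : Type} {S S' : Lab I Y} (h : Disj S S') (g : Equiv.Perm (Y × ℕ)) :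
    Disj (g • S) (g • S') := by
  intro b b' t h1 h2
  rw [Pi.smul_apply] at h1 h2
  cases hS : S b with
  | none => rw [hS] at h1; exact absurd h1 (by simp)
  | some u =>
    cases hS' : S' b' with
    | none => rw [hS'] at h2; exact absurd h2 (by simp)
    | some u' =>
      rw [hS, Option.smul_some] at h1
      rw [hS', Option.smul_some] at h2
      have h3 : g • u = g • u' := Option.some.inj (h1.trans h2.symm)
      have h4 : u = u' := smul_left_cancel g h3
      exact h b b' u hS (by rw [hS', h4])

/-- the graph of the labels: labels without common tokens are adjacent -/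
def tg (I Y : Type) : SimpleGraph (Lab I Y) where
  Adj S S' := S ≠ S' ∧ Disj S S'
  symm := ⟨fun _ _ h => ⟨h.1.symm, h.2.symm⟩⟩
  loopless := ⟨fun _ h => h.1 rfl⟩

theorem tg_smul (I Y : Type) (g : Equiv.Perm (Y × ℕ)) (S S' : Lab I Y) (h : (tg I Y).Adj S S') :
    (tg I Y).Adj (g • S) (g • S') :=
  ⟨fun h1 => h.1 (smul_left_cancel g h1), h.2.smul g⟩

/-- the right-angled Artin group on the labels, extended by the permutations of the tokens -/
abbrev GG (I Y : Type) : Type :=
  RAAG (tg I Y) ⋊[raagAct (tg I Y) (Equiv.Perm (Y × ℕ)) (tg_smul I Y)] Equiv.Perm (Y × ℕ)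

/-- the generator of a label; `1` for the empty label -/
noncomputable def g1 {I Y : Type} (S : Lab I Y) : RAAG (tg I Y) :=
  if ∀ b, S b = none then 1 else gen (tg I Y) S

theorem g1_comm {I Y : Type} {S S' : Lab I Y} (h : Disj S S') : g1 S * g1 S' = g1 S' * g1 S := by
  unfold g1
  by_cases h1 : ∀ b, S b = none
  · rw [if_pos h1, one_mul, mul_one]
  · by_cases h2 : ∀ b, S' b = none
    · rw [if_pos h2, one_mul, mul_one]
    · rw [if_neg h1, if_neg h2]
      refine gen_comm ⟨?_, h⟩
      rintro rfl
      apply h1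
      intro b
      cases hb : S b with
      | none => rfl
      | some t => exact absurd hb (h b b t hb)

theorem g1_act {I Y : Type} (g : Equiv.Perm (Y × ℕ)) (S : Lab I Y) :
    raagAct (tg I Y) (Equiv.Perm (Y × ℕ)) (tg_smul I Y) g (g1 S) = g1 (g • S) := by
  unfold g1
  have h : (∀ b, (g • S) b = none) ↔ ∀ b, S b = none := by
    refine forall_congr' fun b => ?_
    rw [Pi.smul_apply]
    cases S b <;> simp
  by_cases h1 : ∀ b, S b = none
  · rw [if_pos h1, if_pos (h.2 h1), map_one]
  · rw [if_neg h1, if_neg (fun h2 => h1 (h.1 h2)), raagAct_gen]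

/-- the label of the boundaries `(i, b)`, `b ∈ B`, for the assignment `φ` of tokens -/
noncomputable def lb {I Y : Type} (i : I) (B : Set Y) (φ : Y → Y × ℕ) : Lab I Y :=
  fun b => if b.1 = i ∧ b.2 ∈ B then some (φ b.2) else none

theorem lb_eq_some {I Y : Type} {i : I} {B : Set Y} {φ : Y → Y × ℕ} {b : I × Y} {t : Y × ℕ} :
    lb i B φ b = some t ↔ (b.1 = i ∧ b.2 ∈ B) ∧ φ b.2 = t := by
  unfold lb
  by_cases h : b.1 = i ∧ b.2 ∈ B
  · rw [if_pos h]
    simp [h]
  · rw [if_neg h]
    simp [h]

theorem smul_lb {I Y : Type} (g : Equiv.Perm (Y × ℕ)) (i : I) (B : Set Y) (φ : Y → Y × ℕ) :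
    g • lb i B φ = lb i B (fun b => g (φ b)) := by
  funext b
  rw [Pi.smul_apply]
  unfold lb
  by_cases h : b.1 = i ∧ b.2 ∈ B
  · rw [if_pos h, if_pos h]
    rfl
  · rw [if_neg h, if_neg h]
    rfl

/-- The product of the generators of the labels of the boundaries `(i, b)` with the colours in `A`, for the colouring
`c` and the injective assignment `φ` of tokens. -/
noncomputable def LA {I Y V : Type} [Finite V] (c : Y → V) (φ : Y ↪ Y × ℕ) (i : I) (A : Set V) :
    RAAG (tg I Y) :=
  (Set.toFinite A).toFinset.noncommProd (fun k => g1 (lb i (c ⁻¹' {k}) φ)) (by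
    intro k _ k' _ hk
    refine g1_comm ?_
    intro b b' t h1 h2
    obtain ⟨⟨-, hb⟩, h3⟩ := lb_eq_some.1 h1
    obtain ⟨⟨-, hb'⟩, h4⟩ := lb_eq_some.1 h2
    have h5 : b.2 = b'.2 := φ.injective (h3.trans h4.symm)
    apply hk
    rw [← (hb : c b.2 = k), ← (hb' : c b'.2 = k'), h5])

/-! ## types of blocks -/

/-- block permutations which depend on the type of the block -/
abbrev Bl (I V : Type) : Type := V → (I → V) → Equiv.Perm ℕ

/-- shift the block permutations of the types in `r` -/
noncomputable def sh {I V : Type} (r : V → (I → V) → Prop) : Bl I V →* Bl I V where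
  toFun e := fun v w => if r v w then up (e v w) else e v w
  map_one' := by
    funext v w
    by_cases h : r v w <;> simp [h]
  map_mul' e e' := by
    funext v w
    by_cases h : r v w <;> simp [h]

theorem sh_pos {I V : Type} {r : V → (I → V) → Prop} {v : V} {w : I → V} (h : r v w) (e : Bl I V) :
    sh r e v w = up (e v w) := if_pos h

theorem sh_neg {I V : Type} {r : V → (I → V) → Prop} {v : V} {w : I → V} (h : ¬ r v w)
    (e : Bl I V) : sh r e v w = e v w := if_neg h

/-- the blocks `y` with `c (T i y) ∈ A` -/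
def inn {I V : Type} (i : I) (A : Set V) : V → (I → V) → Prop := fun _ w => w i ∈ A

/-- the blocks `y` with `c y ∈ A` -/
def out {I V : Type} (A : Set V) : V → (I → V) → Prop := fun v _ => v ∈ A

/-- swap the first two slots for the types with `r` -/
noncomputable def sw {I V : Type} (r : V → (I → V) → Prop) : Bl I V :=
  fun v w => if r v w then Equiv.swap 0 1 else 1

theorem sw_pos {I V : Type} {r : V → (I → V) → Prop} {v : V} {w : I → V} (h : r v w) :
    sw r v w = Equiv.swap 0 1 := if_pos h

theorem sw_neg {I V : Type} {r : V → (I → V) → Prop} {v : V} {w : I → V} (h : ¬ r v w) :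
    sw r v w = 1 := if_neg h

/-- the letter `t` of the boundaries `(i, b)` with the colours in `B`, twisted by `r` -/
noncomputable def tw {I V G : Type} [Group G] (f : Bl I V →* G) (r : V → (I → V) → Prop) (i : I)
    (B : Set V) (t : G) : G :=
  f (sw (fun v w => v ∈ B ∧ r v w)) * t * f (sw (fun v w => w i ∈ B ∧ r v w))

/-- The relations between block permutations and token moves over the boundaries `(i, b)` of one colour. -/
structure IsModel {I V : Type} (E : V → (I → V) → Prop) {G : Type} [Group G] (f : Bl I V →* G)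
    (t : I → V → G) : Prop where
  rela : ∀ e : Bl I V, (∀ v w, E v w → e v w = 1) → f e = 1
  relb : ∀ (i : I) (c : V) (e : Bl I V),
    t i c * f (sh (inn i {c}) e) = f (sh (out {c}) e) * t i c
  relc : ∀ (i : I) (c : V) (j : I) (d : V),
    t i c * tw f (inn i {c}) j {d} (t j d) = tw f (out {c}) j {d} (t j d) * t i c
  reld : ∀ (i : I) (c : V), (∀ w, ¬ E c w) → t i c = 1

/-- A system: a set of blocks with permutations and a colouring. -/
structure Sys (I V : Type) where
  Z : Type
  T : I → Equiv.Perm Z
  c : Z → V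

namespace Sys

variable {I V V' : Type} (S : Sys I V)

/-- the colours of the neighbours -/
def nb (z : S.Z) : I → V := fun i => S.c (S.T i z)

/-- there is a block of the type `v`, `w` -/
def Edge (v : V) (w : I → V) : Prop := ∃ z, S.c z = v ∧ S.nb z = w

/-- block permutations as permutations of the slots -/
def bF : Bl I V →* Equiv.Perm (S.Z × ℕ) :=
  bp.comp
    { toFun := fun e y => e (S.c y) (S.nb y)
      map_one' := rfl
      map_mul' := fun _ _ => rfl }

theorem bF_apply (e : Bl I V) (t : S.Z × ℕ) : S.bF e t = (t.1, e (S.c t.1) (S.nb t.1) t.2) :=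
  rfl

/-- token moves over the boundaries `(i, b)` with colours in `A` -/
noncomputable def bT (i : I) (A : Set V) : Equiv.Perm (S.Z × ℕ) := tau (S.T i) (S.c ⁻¹' A)

/-- the token in the slot `(b, 0)` for the state `g` -/
def st (g : Equiv.Perm (S.Z × ℕ)) : S.Z ↪ S.Z × ℕ :=
  ⟨fun b => g (b, 0), fun _ _ h => congrArg Prod.fst (g.injective h)⟩

@[simp] theorem st_apply (g : Equiv.Perm (S.Z × ℕ)) (b : S.Z) : S.st g b = g (b, 0) := rfl

/-- block permutations in `GG` -/
def F : Bl I V →* GG I S.Z := SemidirectProduct.inr.comp S.bF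

/-- token moves in `GG` -/
noncomputable def t [Finite V] (i : I) (A : Set V) : GG I S.Z := ⟨LA S.c (S.st 1) i A, S.bT i A⟩

/-- change of the colours -/
def push (π : V → V') : Sys I V' where
  Z := S.Z
  T := S.T
  c := fun z => π (S.c z)

end Sys

/-! ## the free groups -/

/-- generators: finitary block permutations, and sets of colours for each `i` -/
abbrev Gn (I V : Type) : Type := (V → (I → V) → Fin1) ⊕ (I × Set V)

/-- the free group -/
abbrev PP (I V : Type) : Type := FreeGroup (Gn I V)

/-- refinement of the colours -/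
def rf {I V V' : Type} (π : V' → V) : PP I V →* PP I V' :=
  FreeGroup.map (Sum.map (fun e v w => e (π v) (fun i => π (w i))) (fun A => (A.1, π ⁻¹' A.2)))

namespace Sys

variable {I V V' : Type} (S : Sys I V)

/-- the permutation of the slots given by an element of the free group -/
noncomputable def Ph : PP I V →* Equiv.Perm (S.Z × ℕ) :=
  FreeGroup.lift (Sum.elim (fun e => S.bF (fun v w => (e v w : Equiv.Perm ℕ)))
    (fun A => S.bT A.1 A.2))

/-- the element of `GG` given by an element of the free group -/
noncomputable def ev [Finite V] : PP I V →* GG I S.Z :=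
  FreeGroup.lift (Sum.elim (fun e => S.F (fun v w => (e v w : Equiv.Perm ℕ)))
    (fun A => S.t A.1 A.2))

end Sys

/-! ## words -/

/-- words `e₁ t₁^± e₂ t₂^± …` -/
abbrev Wd (I V : Type) : Type := List (Bl I V × (I × V) × Bool)

/-- `x` or `x⁻¹` -/
def sg {G : Type} [Group G] (x : G) (ε : Bool) : G := if ε then x else x⁻¹

@[simp] theorem sg_true {G : Type} [Group G] (x : G) : sg x true = x := rfl

@[simp] theorem sg_false {G : Type} [Group G] (x : G) : sg x false = x⁻¹ := rfl

section words

variable {I V G G' : Type} [Group G] [Group G'] (f : Bl I V →* G) (t : I → V → G)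

/-- the value of a word -/
def vl (w : Wd I V) : G := (w.map fun x => f x.1 * sg (t x.2.1.1 x.2.1.2) x.2.2).prod

/-- the value of the shifted word -/
noncomputable def svl (r : V → (I → V) → Prop) (w : Wd I V) : G :=
  (w.map fun x => f (sh r x.1) *
    sg (tw f r x.2.1.1 {x.2.1.2} (t x.2.1.1 x.2.1.2)) x.2.2).prod

@[simp] theorem vl_nil : vl f t [] = 1 := rfl

@[simp] theorem vl_cons (x : Bl I V × (I × V) × Bool) (w : Wd I V) :
    vl f t (x :: w) = f x.1 * sg (t x.2.1.1 x.2.1.2) x.2.2 * vl f t w := by
  simp [vl]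

@[simp] theorem vl_append (w w' : Wd I V) : vl f t (w ++ w') = vl f t w * vl f t w' := by
  simp [vl]

@[simp] theorem svl_nil (r : V → (I → V) → Prop) : svl f t r [] = 1 := rfl

@[simp] theorem svl_cons (r : V → (I → V) → Prop) (x : Bl I V × (I × V) × Bool) (w : Wd I V) :
    svl f t r (x :: w) = f (sh r x.1) *
      sg (tw f r x.2.1.1 {x.2.1.2} (t x.2.1.1 x.2.1.2)) x.2.2 * svl f t r w := by
  simp [svl]

@[simp] theorem svl_append (r : V → (I → V) → Prop) (w w' : Wd I V) :
    svl f t r (w ++ w') = svl f t r w * svl f t r w' := by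
  simp [svl]

theorem map_sg (ev : G →* G') (x : G) (ε : Bool) : ev (sg x ε) = sg (ev x) ε := by
  cases ε <;> simp

theorem map_vl (ev : G →* G') (f' : Bl I V →* G') (t' : I → V → G') (hf : ∀ e, ev (f e) = f' e)
    (ht : ∀ i c, ev (t i c) = t' i c) (w : Wd I V) : ev (vl f t w) = vl f' t' w := by
  induction w with
  | nil => simp
  | cons x w ih => rw [vl_cons, vl_cons, map_mul, map_mul, ih, hf, map_sg, ht]

theorem map_svl (ev : G →* G') (f' : Bl I V →* G') (t' : I → V → G') (hf : ∀ e, ev (f e) = f' e)
    (ht : ∀ i c, ev (t i c) = t' i c) (r : V → (I → V) → Prop) (w : Wd I V) :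
    ev (svl f t r w) = svl f' t' r w := by
  induction w with
  | nil => simp
  | cons x w ih =>
    rw [svl_cons, svl_cons, map_mul, map_mul, ih, hf, map_sg, tw, tw, map_mul, map_mul, hf, hf, ht]

end words

namespace Sys

variable {I V V' : Type} (S : Sys I V)

/-- the token move for one colour -/
noncomputable def bt (i : I) (c : V) : Equiv.Perm (S.Z × ℕ) := S.bT i {c}

/-- the type of the block of `z` is in `r` -/
def On (r : V → (I → V) → Prop) (z : S.Z) : Prop := r (S.c z) (S.nb z)

/-- The tokens `(z, 0)` for the blocks `z` with type in `r` are not moved over a boundary, when the word `w` is read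
after `a`. -/
def Avoid (r : V → (I → V) → Prop) (a : Bl I V) (w : Wd I V) : Prop :=
  ∀ (p : Wd I V) (x : Bl I V × (I × V) × Bool) (q : Wd I V), w = p ++ x :: q →
    ∀ b z : S.Z, S.c b = x.2.1.2 → S.On r z →
      (S.bF a * vl S.bF S.bt p * S.bF x.1)
        (if x.2.2 then (b, 0) else ((S.T x.2.1.1).symm b, 0)) ≠ (z, 0)

end Sys

/-! ## trees -/

section trees

variable {I X V : Type}

/-- the permutation of `X × FreeGroup I` given by the generator `i` -/
def shf (T : I → Equiv.Perm X) (i : I) : Equiv.Perm (X × FreeGroup I) :=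
  Equiv.prodCongr (T i) (Equiv.mulLeft (FreeGroup.of i))

@[simp] theorem shf_apply (T : I → Equiv.Perm X) (i : I) (y : X × FreeGroup I) :
    shf T i y = (T i y.1, FreeGroup.of i * y.2) := rfl

@[simp] theorem shf_symm_apply (T : I → Equiv.Perm X) (i : I) (y : X × FreeGroup I) :
    (shf T i).symm y = ((T i).symm y.1, (FreeGroup.of i)⁻¹ * y.2) := rfl

/-- the action of the free group on `X × FreeGroup I` -/
noncomputable def act (T : I → Equiv.Perm X) : FreeGroup I →* Equiv.Perm (X × FreeGroup I) :=
  FreeGroup.lift (shf T)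

/-- the system of the trees with the colouring `c` -/
def ysys (T : I → Equiv.Perm X) (c : X → V) : Sys I V := ⟨X × FreeGroup I, shf T, fun y => c y.1⟩

/-- an algebra of sets, invariant under the permutations `T i` -/
structure IsAlg (T : I → Equiv.Perm X) (𝓑 : Set (Set X)) : Prop where
  univ : Set.univ ∈ 𝓑
  compl : ∀ A ∈ 𝓑, Aᶜ ∈ 𝓑
  inter : ∀ A ∈ 𝓑, ∀ B ∈ 𝓑, A ∩ B ∈ 𝓑
  pre : ∀ (i : I), ∀ A ∈ 𝓑, T i ⁻¹' A ∈ 𝓑
  pre' : ∀ (i : I), ∀ A ∈ 𝓑, (T i).symm ⁻¹' A ∈ 𝓑

/-- every nonempty member of `𝓑` has positive mass for an invariant finitely additive measure on `𝓑` -/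
def HasMass (T : I → Equiv.Perm X) (𝓑 : Set (Set X)) : Prop :=
  ∀ A ∈ 𝓑, A.Nonempty → ∃ m : Set X → ℝ, (∀ B ∈ 𝓑, 0 ≤ m B) ∧
    (∀ B ∈ 𝓑, ∀ B' ∈ 𝓑, Disjoint B B' → m (B ∪ B') = m B + m B') ∧
    (∀ (i : I), ∀ B ∈ 𝓑, m (T i ⁻¹' B) = m B) ∧ 0 < m A

/-- the colouring by the members of a finite family of sets -/
def cl {𝓑 : Set (Set X)} (i : Finset 𝓑) : X → (i → Prop) := fun x D => x ∈ D.1.1

/-- restriction to a smaller family -/
def rs {𝓑 : Set (Set X)} {i j : Finset 𝓑} (h : i ≤ j) : (j → Prop) → (i → Prop) :=
  fun v D => v ⟨D.1, h D.2⟩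

theorem rs_cl {𝓑 : Set (Set X)} {i j : Finset 𝓑} (h : i ≤ j) (x : X) :
    rs h (cl j x) = cl i x := rfl

/-- the elements of the free group which fix the high slots -/
noncomputable def P0 (T : I → Equiv.Perm X) (c : X → V) : Subgroup (PP I V) :=
  (FH (X × FreeGroup I)).comap (ysys T c).Ph

/-- the kernel of the evaluation -/
noncomputable def N0 [Finite V] (T : I → Equiv.Perm X) (c : X → V) : Subgroup (P0 T c) :=
  ((ysys T c).ev.comp (P0 T c).subtype).ker

noncomputable instance [Finite V] (T : I → Equiv.Perm X) (c : X → V) : (N0 T c).Normal :=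
  (inferInstance : ((ysys T c).ev.comp (P0 T c).subtype).ker.Normal)

end trees

end Pool.Agent.H37.FG
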