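import Pool.Agent.H37.FG.Dye3

/-!
# Elements which die in the group of permutations of the slots die for a fine colouring [H37 FG Dye]

MODULE: compare the finished file `Pool/Agent/H13/BD/Dye.lean`; here the displacements are read off from the colours in a
window (`loc`), as the fine colouring has to be given by members of the algebra `𝓑`.

Proof. Let `p = FreeGroup.mk L`. For the prefixes `L1 = L.take k` let `Kk` be the window of `loc` for
`(FreeGroup.mk L1)⁻¹`, and `Mk` the bound of `flx` for it (high slots stay in their block). Let `K` be the union of the `Kk`,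
`M` the sum of the `Mk`. Let `q0 x : K → V`, `q0 x k := c (FreeGroup.lift T k x)`, `Q0 := Set.range q0`, `q1 : X → Q0` (surjective).
For `S = S' = ysys T c`, the window colours of a block `y` are `q0 y.1` (`act_apply`; `FreeGroup.lift (shf T) k = act T k`), so
`loc` gives: if `q1 y.1 = q1 y'.1` then the slots `(y, s)` and `(y', s)` are moved by `Ph (mk L1)⁻¹` to blocks `act T k y`,
`act T k y'` with the same `k ∈ K`, and `k` is unique (`act_inj`). So there is `e κ s ∈ K` (choose a representative `x` of `κ`,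
`y = (x, 1)`) with `((Ph (mk L1))⁻¹ (y, s)).1 = act T (e (q1 y.1) s) y` for all `y`, and `e κ s = 1` for `s ≥ M` (`flx`,
`act_inj`, `act T 1 = 1`): this is `Tm T q1 M K (Ph (mk L1)) e`. The required map is
`q x := fun m : K => q1 ((FreeGroup.lift T m)⁻¹ x)`, with values in the finite type `K → Q0`. Its fibres are in `𝓑`: the fibres of
`x ↦ c (FreeGroup.lift T k x)` are in `𝓑` (induction on `k`, `IsAlg.pre`, `IsAlg.pre'`), and finite intersections
(`IsAlg.inter`, `IsAlg.univ`). For a colouring `c'` which determines `c` and `q`, `dye_left` applies to `L1 = L`: the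
displacements `e` of `Ph p = 1` are `1` (`act_inj`), so `Th e = 1` (`pot_one`) and the left part of `ev (rf π p)` is `1`; the
right part is `(ysys T c').Ph (rf π p) = (ysys T c).Ph p = 1` (`ev_right`, `Ph_rf`).
-/

set_option autoImplicit false

open Classical

namespace Pool.Agent.H37.FG

open Pool.Agent.H13.TFG
open Pool.Agent.H13.BD (up up_zero up_succ bp bp_apply ii ii_pos ii_neg tau tau_apply tau_inv_apply Fin1 FH)

/-- the permutations of the slots -/
private noncomputable def dyph {I X V : Type} (T : I → Equiv.Perm X) (c : X → V) :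
    PP I V →* Equiv.Perm ((X × FreeGroup I) × ℕ) := (ysys T c).Ph

private theorem dy_one_act {I X : Type} (T : I → Equiv.Perm X) (y : X × FreeGroup I) :
    act T 1 y = y := by
  rw [map_one]
  rfl

private theorem dy_pre {I X : Type} {T : I → Equiv.Perm X} {𝓑 : Set (Set X)} (hB : IsAlg T 𝓑)
    (g : FreeGroup I) : ∀ A ∈ 𝓑, FreeGroup.lift T g ⁻¹' A ∈ 𝓑 := by
  induction g using FreeGroup.induction_on with
  | C1 =>
    intro A hA
    rw [map_one]
    exact hA
  | of i =>
    intro A hA
    rw [FreeGroup.lift_apply_of]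
    exact hB.pre i A hA
  | inv_of i _ =>
    intro A hA
    rw [map_inv, FreeGroup.lift_apply_of]
    exact hB.pre' i A hA
  | mul g h hg hh =>
    intro A hA
    rw [map_mul]
    exact hh _ (hg A hA)

private theorem dy_iInter {I X : Type} {T : I → Equiv.Perm X} {𝓑 : Set (Set X)} (hB : IsAlg T 𝓑)
    {J : Type} [Finite J] (F : J → Set X) (hF : ∀ j, F j ∈ 𝓑) : (⋂ j, F j) ∈ 𝓑 := by
  have : Fintype J := Fintype.ofFinite J
  have key : ∀ s : Finset J, (⋂ j ∈ s, F j) ∈ 𝓑 := by
    intro s
    induction s using Finset.induction_on with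
    | empty =>
      have h1 : (⋂ j ∈ (∅ : Finset J), F j) = Set.univ := by simp
      rw [h1]
      exact hB.univ
    | insert j s _ ih =>
      rw [Finset.set_biInter_insert]
      exact hB.inter _ (hF j) _ ih
  have h1 := key Finset.univ
  simpa using h1

/-- the windows and the bound for the prefixes of a word -/
private theorem dy_bound {I X V : Type} [Finite I] [Finite V] (T : I → Equiv.Perm X) (c : X → V)
    (L : List (Gn I V × Bool)) :
    ∃ (K : Finset (FreeGroup I)) (M : ℕ), 1 ∈ K ∧ ∀ L1 L2, L = L1 ++ L2 →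
      (∀ y y' : X × FreeGroup I,
        (∀ k ∈ K, c (FreeGroup.lift T k y.1) = c (FreeGroup.lift T k y'.1)) →
        ∀ s : ℕ, ∃ k ∈ K, ((dyph T c (FreeGroup.mk L1))⁻¹ (y, s)).1 = act T k y ∧
          ((dyph T c (FreeGroup.mk L1))⁻¹ (y', s)).1 = act T k y') ∧
      (∀ (y : X × FreeGroup I) (s : ℕ), M ≤ s →
        ((dyph T c (FreeGroup.mk L1))⁻¹ (y, s)).1 = y) := by
  have hl := fun L1 : List (Gn I V × Bool) => loc (FreeGroup.mk L1)⁻¹
  have hf := fun L1 : List (Gn I V × Bool) => flx (FreeGroup.mk L1)⁻¹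
  choose KK hKK using hl
  choose MM kk hMM using hf
  refine ⟨(Finset.range (L.length + 1)).biUnion fun k => KK (L.take k),
    ∑ k ∈ Finset.range (L.length + 1), MM (L.take k), ?_, ?_⟩
  · rw [Finset.mem_biUnion]
    exact ⟨0, Finset.mem_range.2 (Nat.succ_pos _), (hKK _).1⟩
  · intro L1 L2 hL
    have h1 : L.take L1.length = L1 := by rw [hL, List.take_left']; rfl
    have h2 : L1.length ∈ Finset.range (L.length + 1) := by
      rw [Finset.mem_range, hL, List.length_append]
      omega
    have h3 : KK L1 ⊆ (Finset.range (L.length + 1)).biUnion fun k => KK (L.take k) := by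
      intro k hk
      rw [Finset.mem_biUnion]
      exact ⟨L1.length, h2, by rw [h1]; exact hk⟩
    have h5 : MM L1 ≤ ∑ k ∈ Finset.range (L.length + 1), MM (L.take k) := by
      have h4 := Finset.single_le_sum (f := fun k => MM (L.take k)) (fun _ _ => Nat.zero_le _) h2
      rw [h1] at h4
      exact h4
    constructor
    · intro y y' hyy s
      obtain ⟨k, hk, n', e1, e2⟩ := (hKK L1).2 (ysys T c) (ysys T c) y y' (fun k hk => by
        change c (act T k y).1 = c (act T k y').1
        rw [act_apply, act_apply]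
        exact hyy k (h3 hk)) s
      rw [map_inv] at e1 e2
      exact ⟨k, h3 hk, congrArg Prod.fst e1, congrArg Prod.fst e2⟩
    · intro y s hs
      obtain ⟨n', -, e1⟩ := hMM L1 (ysys T c) y s (h5.trans hs)
      rw [map_inv] at e1
      exact congrArg Prod.fst e1

private theorem dy_th_one {I X V' Q : Type} [Finite V'] [Finite Q] {T : I → Equiv.Perm X}
    {c' : X → V'} {q : X → Q} {M : ℕ} {e : Q → ℕ → FreeGroup I} (h : ∀ κ s, e κ s = 1) :
    Th T c' q M e = 1 := by
  unfold Th
  have h1 : (fun u : Q × Fin M => pot (e u.1 u.2)) = 1 := by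
    funext u
    rw [h, pot_one]
    rfl
  rw [h1, map_one]

theorem dye {I X V : Type} [Finite I] [Finite V] {T : I → Equiv.Perm X} {𝓑 : Set (Set X)}
    (hB : IsAlg T 𝓑) (c : X → V) (hc : ∀ v, c ⁻¹' {v} ∈ 𝓑) (p : PP I V)
    (hp : (ysys T c).Ph p = 1) :
    ∃ (Q : Type) (_ : Finite Q) (q : X → Q), (∀ κ, q ⁻¹' {κ} ∈ 𝓑) ∧
      ∀ (V' : Type) [Finite V'] (c' : X → V') (π : V' → V), (∀ x, π (c' x) = c x) →
        (∀ x x', c' x = c' x' → q x = q x') → (ysys T c').ev (rf π p) = 1 := by
  obtain ⟨L, rfl⟩ := Quot.exists_rep p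
  obtain ⟨K, M, hK1, hKM⟩ := dy_bound T c L
  let q0 : X → (K → V) := fun x k => c (FreeGroup.lift T k.1 x)
  let q1 : X → Set.range q0 := fun x => ⟨q0 x, x, rfl⟩
  have hq1 : Function.Surjective q1 := by
    rintro ⟨_, x, rfl⟩
    exact ⟨x, rfl⟩
  have hfib1 : ∀ κ : Set.range q0, q1 ⁻¹' {κ} ∈ 𝓑 := by
    intro κ
    have h1 : q1 ⁻¹' {κ} = ⋂ k : K, FreeGroup.lift T k.1 ⁻¹' (c ⁻¹' {κ.1 k}) := by
      ext x
      rw [Set.mem_preimage, Set.mem_singleton_iff, Set.mem_iInter, Subtype.ext_iff]
      change q0 x = κ.1 ↔ _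
      rw [funext_iff]
      exact Iff.rfl
    rw [h1]
    exact dy_iInter hB _ fun k => dy_pre hB k.1 _ (hc _)
  refine ⟨K → Set.range q0, inferInstance, fun x m => q1 ((FreeGroup.lift T m.1)⁻¹ x), ?_, ?_⟩
  · intro κ
    have h1 : (fun (x : X) (m : K) => q1 ((FreeGroup.lift T m.1)⁻¹ x)) ⁻¹' {κ} =
        ⋂ m : K, FreeGroup.lift T (m.1)⁻¹ ⁻¹' (q1 ⁻¹' {κ m}) := by
      ext x
      rw [Set.mem_preimage, Set.mem_singleton_iff, Set.mem_iInter, funext_iff]
      refine forall_congr' fun m => ?_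
      rw [map_inv]
      exact Iff.rfl
    rw [h1]
    exact dy_iInter hB _ fun m => dy_pre hB _ _ (hfib1 _)
  intro V' _ c' π hπ hq'
  obtain rfl : c = fun x => π (c' x) := funext fun x => (hπ x).symm
  have hr : ∀ m ∈ K, ∀ x x' : X, c' x = c' x' →
      q1 ((FreeGroup.lift T m)⁻¹ x) = q1 ((FreeGroup.lift T m)⁻¹ x') := by
    intro m hm x x' h
    exact congrFun (hq' x x' h) ⟨m, hm⟩
  have hL : ∀ L1 L2, L = L1 ++ L2 →
      ∃ e, Tm T q1 M K (dyph T (fun x => π (c' x)) (FreeGroup.mk L1)) e := by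
    intro L1 L2 hL
    obtain ⟨hW, hH⟩ := hKM L1 L2 hL
    have hwin : ∀ y y' : X × FreeGroup I, q1 y.1 = q1 y'.1 →
        ∀ k ∈ K, π (c' (FreeGroup.lift T k y.1)) = π (c' (FreeGroup.lift T k y'.1)) := by
      intro y y' h k hk
      have h1 : q0 y.1 = q0 y'.1 := congrArg Subtype.val h
      exact congrFun h1 ⟨k, hk⟩
    have hex : ∀ (κ : Set.range q0) (s : ℕ), ∃ k : FreeGroup I, k ∈ K ∧
        (∀ y : X × FreeGroup I, q1 y.1 = κ →
          ((dyph T (fun x => π (c' x)) (FreeGroup.mk L1))⁻¹ (y, s)).1 = act T k y) ∧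
        (M ≤ s → k = 1) := by
      intro κ s
      obtain ⟨x, rfl⟩ := hq1 κ
      by_cases hs : M ≤ s
      · refine ⟨1, hK1, fun y _ => ?_, fun _ => rfl⟩
        rw [dy_one_act]
        exact hH y s hs
      · obtain ⟨k, hk, e1, -⟩ := hW (x, 1) (x, 1) (fun _ _ => rfl) s
        refine ⟨k, hk, fun y hy => ?_, fun h => absurd h hs⟩
        obtain ⟨k', -, e2, e3⟩ := hW (x, 1) y (hwin (x, 1) y hy.symm) s
        rw [e3, act_inj T (e1.symm.trans e2)]
    choose e he1 he2 he3 using hex
    exact ⟨e, fun y s => he2 (q1 y.1) s y rfl, he1, he3⟩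
  obtain ⟨e, he⟩ := hL L [] (List.append_nil L).symm
  have h1 := dye_left hq1 hr π L hL L [] (List.append_nil L).symm e he
  have h2 : dyph T (fun x => π (c' x)) (FreeGroup.mk L) = 1 := hp
  have h3 : ∀ κ s, e κ s = 1 := by
    intro κ s
    obtain ⟨x, rfl⟩ := hq1 κ
    have h3 := he.loc (x, 1) s
    rw [h2] at h3
    have h4 : ((x, 1) : X × FreeGroup I) = act T (e (q1 x) s) (x, 1) := h3
    apply act_inj T (y := (x, 1))
    rw [← h4, dy_one_act]
  rw [dy_th_one h3, inv_one] at h1
  have h4 : ((ysys T c').ev (rf π (FreeGroup.mk L))).right = 1 := by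
    have h5 : ((ysys T c').ev (rf π (FreeGroup.mk L))).right =
        (ysys T c').Ph (rf π (FreeGroup.mk L)) := ev_right _ _
    rw [h5, Ph_rf]
    exact hp
  exact SemidirectProduct.ext h1 h4

end Pool.Agent.H37.FG
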