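import Pool.Agent.H37.FG.LAx

/-!
# Potentials

As in `Pool/Agent/H13/BD/Dye1.lean`, with the Cayley tree of the free group instead of the line.
-/

set_option autoImplicit false

open Classical

namespace Pool.Agent.H37.FG

open Pool.Agent.H13.TFG
open Pool.Agent.H13.BD (up up_zero up_succ bp bp_apply ii ii_pos ii_neg tau tau_apply tau_inv_apply Fin1 FH)

/-- the permutation used for the potentials -/
def potE (I : Type) (i : I) : Equiv.Perm (FreeGroup I × FreeGroup (FreeGroup I × I)) where
  toFun x := (FreeGroup.of i * x.1, FreeGroup.of (FreeGroup.of i * x.1, i) * x.2)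
  invFun x := ((FreeGroup.of i)⁻¹ * x.1, (FreeGroup.of (x.1, i))⁻¹ * x.2)
  left_inv x := by simp
  right_inv x := by simp

theorem potE_fst (I : Type) (g : FreeGroup I) (x : FreeGroup I × FreeGroup (FreeGroup I × I)) :
    (FreeGroup.lift (potE I) g x).1 = g * x.1 := by
  induction g using FreeGroup.induction_on generalizing x with
  | C1 => rw [map_one, one_mul]; rfl
  | of i => rw [FreeGroup.lift_apply_of]; rfl
  | inv_of i _ =>
    rw [map_inv, FreeGroup.lift_apply_of]
    rfl
  | mul g h hg hh => rw [map_mul, Equiv.Perm.mul_apply, hg, hh, mul_assoc]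

/-- the path from `1` to `g` in the Cayley tree of the free group -/
def pot {I : Type} (g : FreeGroup I) : FreeGroup (FreeGroup I × I) :=
  (FreeGroup.lift (potE I) g (1, 1)).2

theorem pot_one {I : Type} : pot (1 : FreeGroup I) = 1 := by
  unfold pot
  rw [map_one]
  rfl

theorem pot_eq {I : Type} (i : I) (g : FreeGroup I) :
    pot (FreeGroup.of i * g) = FreeGroup.of (FreeGroup.of i * g, i) * pot g := by
  unfold pot
  rw [map_mul, FreeGroup.lift_apply_of, Equiv.Perm.mul_apply]
  have h : (FreeGroup.lift (potE I) g (1, 1)).1 = g := by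
    rw [potE_fst, mul_one]
  change FreeGroup.of (FreeGroup.of i * (FreeGroup.lift (potE I) g (1, 1)).1, i) * _ = _
  rw [h]

theorem lift_commute {A B G : Type} [Group G] (f : A → G) (g : B → G)
    (h : ∀ a b, Commute (f a) (g b)) (x : FreeGroup A) (y : FreeGroup B) :
    Commute (FreeGroup.lift f x) (FreeGroup.lift g y) := by
  have h1 : ∀ a (y : FreeGroup B), Commute (f a) (FreeGroup.lift g y) := by
    intro a y
    induction y using FreeGroup.induction_on with
    | C1 => rw [map_one]; exact Commute.one_right _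
    | of b => rw [FreeGroup.lift_apply_of]; exact h a b
    | inv_of b ih => rw [map_inv]; exact ih.inv_right
    | mul y z hy hz => rw [map_mul]; exact hy.mul_right hz
  induction x using FreeGroup.induction_on with
  | C1 => rw [map_one]; exact Commute.one_left _
  | of a => rw [FreeGroup.lift_apply_of]; exact h1 a y
  | inv_of a ih => rw [map_inv]; exact ih.inv_left
  | mul x z hx hz => rw [map_mul]; exact hx.mul_left hz

section act

variable {I X : Type} (T : I → Equiv.Perm X)

theorem act_apply (g : FreeGroup I) (y : X × FreeGroup I) :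
    act T g y = (FreeGroup.lift T g y.1, g * y.2) := by
  unfold act
  induction g using FreeGroup.induction_on generalizing y with
  | C1 => rw [map_one, map_one, one_mul]; rfl
  | of i => rw [FreeGroup.lift_apply_of, FreeGroup.lift_apply_of]; rfl
  | inv_of i _ =>
    rw [map_inv, map_inv, FreeGroup.lift_apply_of, FreeGroup.lift_apply_of]
    rfl
  | mul g h hg hh =>
    rw [map_mul, map_mul, Equiv.Perm.mul_apply, hh, hg, Equiv.Perm.mul_apply, mul_assoc]

theorem act_inv_apply (g : FreeGroup I) (y : X × FreeGroup I) :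
    (act T g)⁻¹ y = ((FreeGroup.lift T g)⁻¹ y.1, g⁻¹ * y.2) := by
  rw [← map_inv, act_apply, map_inv]

/-- the action is free -/
theorem act_inj {g h : FreeGroup I} {y : X × FreeGroup I} (e : act T g y = act T h y) : g = h := by
  rw [act_apply, act_apply] at e
  exact mul_right_cancel (congrArg Prod.snd e)

end act

variable {I X V Q : Type} [Finite V] (T : I → Equiv.Perm X) (c : X → V) (q : X → Q)

/-- the colours of the points `x` whose translate `m⁻¹ x` has the type `κ` -/
def Bm (κ : Q) (m : FreeGroup I) : Set V :=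
  {k | (∃ x, c x = k) ∧ ∀ x, c x = k → q ((FreeGroup.lift T m)⁻¹ x) = κ}

/-- the colouring of `X × FreeGroup I` -/
def yc : X × FreeGroup I → V := fun y => c y.1

/-- the token `(m⁻¹ b, s)` for the block `b` -/
noncomputable def ph (m : FreeGroup I) (s : ℕ) : X × FreeGroup I ↪ (X × FreeGroup I) × ℕ :=
  ⟨fun b => ((act T m)⁻¹ b, s), fun _ _ h => (act T m)⁻¹.injective (congrArg Prod.fst h)⟩

/-- the crossing of the boundary `(i, m y)` by the tokens `(y, s)`, `y` of type `κ` -/
noncomputable def Um (κ : Q) (s : ℕ) (m : FreeGroup I × I) : RAAG (tg I (X × FreeGroup I)) :=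
  LA (yc (I := I) c) (ph T m.1 s) m.2 (Bm T c q κ m.1)

theorem Um_commute (κ κ' : Q) (s s' : ℕ) (h : (κ, s) ≠ (κ', s')) (m m' : FreeGroup I × I) :
    Commute (Um T c q κ s m) (Um T c q κ' s' m') := by
  apply LA_comm
  intro b b' hb hb' h1
  have h2 : (act T m.1)⁻¹ b = (act T m'.1)⁻¹ b' := congrArg Prod.fst h1
  have h3 : s = s' := congrArg Prod.snd h1
  rw [act_inv_apply, act_inv_apply] at h2
  have h5 : (FreeGroup.lift T m.1)⁻¹ b.1 = (FreeGroup.lift T m'.1)⁻¹ b'.1 := congrArg Prod.fst h2
  have h4 : κ = κ' := by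
    rw [← hb.2 b.1 rfl, ← hb'.2 b'.1 rfl, h5]
  exact h (by rw [h3, h4])

/-- the homomorphism given by the crossings -/
noncomputable def chi [Finite Q] (M : ℕ) :
    ((Q × Fin M) → FreeGroup (FreeGroup I × I)) →* RAAG (tg I (X × FreeGroup I)) :=
  letI := Fintype.ofFinite (Q × Fin M)
  MonoidHom.noncommPiCoprod (fun i : Q × Fin M => FreeGroup.lift (Um T c q i.1 i.2)) (by
    intro i j hij x y
    apply lift_commute
    intro m m'
    apply Um_commute
    intro h
    apply hij
    have h1 := Prod.mk.inj h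
    exact Prod.ext h1.1 (Fin.ext h1.2))

theorem chi_single [Finite Q] (M : ℕ) (i : Q × Fin M) (x : FreeGroup (FreeGroup I × I)) :
    chi T c q M (Pi.mulSingle i x) = FreeGroup.lift (Um T c q i.1 i.2) x := by
  let _ := Fintype.ofFinite (Q × Fin M)
  exact MonoidHom.noncommPiCoprod_mulSingle (N := fun _ : Q × Fin M => FreeGroup (FreeGroup I × I))
    (ϕ := fun i : Q × Fin M => FreeGroup.lift (Um T c q i.1 i.2)) i x

/-- the potential of the displacements `e` -/
noncomputable def Th [Finite Q] (M : ℕ) (e : Q → ℕ → FreeGroup I) :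
    RAAG (tg I (X × FreeGroup I)) :=
  chi T c q M (fun i => pot (e i.1 i.2))

/-- `e` describes the displacements of the tokens in the state `g` -/
structure Tm (M : ℕ) (K : Finset (FreeGroup I)) (g : Equiv.Perm ((X × FreeGroup I) × ℕ))
    (e : Q → ℕ → FreeGroup I) : Prop where
  loc : ∀ y s, (g⁻¹ (y, s)).1 = act T (e (q y.1) s) y
  bd : ∀ κ s, e κ s ∈ K
  hi : ∀ κ s, M ≤ s → e κ s = 1

variable {T c q}

/-- the displacements of `g` and `g * tau _ B`: if they differ then the token was in the first slot and the block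
is in `B` -/
theorem tm_step {M : ℕ} {K : Finset (FreeGroup I)} {g : Equiv.Perm ((X × FreeGroup I) × ℕ)} {i : I}
    {B : Set (X × FreeGroup I)} {e e' : Q → ℕ → FreeGroup I} (h : Tm T q M K g e)
    (h' : Tm T q M K (g * tau (shf T i) B) e') (y : X × FreeGroup I) (s : ℕ) :
    e' (q y.1) s = e (q y.1) s ∨ (e (q y.1) s = FreeGroup.of i * e' (q y.1) s ∧
      g (act T (e (q y.1) s) y, 0) = (y, s) ∧ act T (e (q y.1) s) y ∈ B) := by
  have h1 := h.loc y s
  have h2 := h'.loc y s
  rw [mul_inv_rev, Equiv.Perm.mul_apply] at h2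
  obtain ⟨b, n, hbn⟩ : ∃ b n, g⁻¹ (y, s) = (b, n) := ⟨_, _, rfl⟩
  rw [hbn] at h1 h2
  change b = _ at h1
  rw [tau_inv_apply] at h2
  by_cases h3 : b ∈ B ∧ n = 0
  · right
    rw [if_pos h3] at h2
    have h4 : (shf T i).symm b = act T (e' (q y.1) s) y := h2
    have h5 : b = act T (FreeGroup.of i * e' (q y.1) s) y := by
      rw [map_mul, Equiv.Perm.mul_apply, ← h4]
      unfold act
      rw [FreeGroup.lift_apply_of, Equiv.apply_symm_apply]
    refine ⟨act_inj T (h1.symm.trans h5), ?_, ?_⟩
    · rw [← h1]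
      have h6 : g (b, n) = (y, s) := by
        rw [← hbn]
        exact g.apply_symm_apply _
      rw [h3.2] at h6
      exact h6
    · rw [← h1]
      exact h3.1
  · left
    rw [if_neg h3] at h2
    have h4 : b = act T (e' (q y.1) s) y := h2
    exact act_inj T (h4.symm.trans h1)

end Pool.Agent.H37.FG
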