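import Pool.Agent.H37.FG.Dye1

/-!
# The step lemma for potentials [H37 FG Dye2]

MODULE: adaptation of the finished file `Pool/Agent/H13/BD/Dye2.lean` (`cross_aux`, `th_step`).
-/

set_option autoImplicit false

open Classical

namespace Pool.Agent.H37.FG

open Pool.Agent.H13.TFG
open Pool.Agent.H13.BD (up up_zero up_succ bp bp_apply ii ii_pos ii_neg tau tau_apply tau_inv_apply Fin1 FH)

variable {I X V Q : Type} [Finite V] {T : I → Equiv.Perm X} {c : X → V} {q : X → Q}

private theorem d2_ne {i : I} {x y : FreeGroup I} (h1 : y = x) (h2 : x = FreeGroup.of i * y) :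
    False := by
  rw [h1] at h2
  have h3 : (FreeGroup.of i : FreeGroup I) = 1 := by
    have h4 : (1 : FreeGroup I) * x = FreeGroup.of i * x := by rw [one_mul]; exact h2
    exact (mul_right_cancel h4).symm
  exact FreeGroup.of_ne_one i h3

omit [Finite V] in
/-- the tokens which cross a boundary with colour in `Bm` -/
private theorem d2_cross {M : ℕ} {K : Finset (FreeGroup I)}
    {g : Equiv.Perm ((X × FreeGroup I) × ℕ)} {i : I}
    {A : Set V} {e e' : Q → ℕ → FreeGroup I} (h : Tm T q M K g e)
    (h' : Tm T q M K (g * tau (shf T i) (yc c ⁻¹' A)) e') {κ : Q} {s : ℕ}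
    (hm : e κ s = FreeGroup.of i * e' κ s)
    {b : X × FreeGroup I} (hb : yc c b ∈ Bm T c q κ (e κ s)) :
    g (b, 0) = ((act T (e κ s))⁻¹ b, s) ∧ yc c b ∈ A := by
  have h1 : q ((act T (e κ s))⁻¹ b).1 = κ := by
    rw [act_inv_apply]
    exact hb.2 b.1 rfl
  have h2 := tm_step h h' ((act T (e κ s))⁻¹ b) s
  rw [h1] at h2
  rcases h2 with h2 | ⟨-, h2, h3⟩
  · exact absurd (d2_ne h2 hm) id
  · have h4 : act T (e κ s) ((act T (e κ s))⁻¹ b) = b := Equiv.apply_symm_apply _ _
    rw [h4] at h2 h3
    exact ⟨h2, h3⟩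

/-- Proof as in the old file. Let `Mv` be the finite set of the indices `u = (κ, s) : Q × Fin M` with
`e' κ s ≠ e κ s`; then (`tm_step` for any `y` with `q y.1 = κ`, e.g. `(x, 1)`) `e κ s = of i * e' κ s`. For `u ∈ Mv` and a
block `b` with colour in `Bm T c q κ (e κ s)` we have `g (b, 0) = ((act T (e κ s))⁻¹ b, s)` and `c b.1 ∈ A` (`cross_aux`:
`tm_step` for `y := (act T (e κ s))⁻¹ b`, which has the type `κ` by the definition of `Bm`). The sets
`Bm T c q κ (e κ s)`, `(κ, s) ∈ Mv`, are disjoint, and a colour `c b.1` of a block `b` is in their union iff it is in `A` (for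
`→`: `g (b, 0) = (y, s)`, `b = act T (e (q y.1) s) y`, and the token is moved by `tau`; all blocks with the colour of `b` have
translates of the type `q y.1` by `hr`; `s < M` as high tokens are not moved). So `LA _ φ i A` is the product of the
`Um T c q κ s (e κ s, i)` over `Mv` (`LA_used`, `LA_union`, `LA_congr`, induction on subsets of `Mv`), and on the other side
`Th e * (Th e')⁻¹ = chi (u ↦ pot (e u) * (pot (e' u))⁻¹)` where `pot (e u) = of (e u, i) * pot (e' u)` for `u ∈ Mv`
(`pot_eq`). -/
theorem th_step [Finite Q] (hq : Function.Surjective q) {M : ℕ} {K : Finset (FreeGroup I)}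
    (hr : ∀ m ∈ K, ∀ x x' : X, c x = c x' →
      q ((FreeGroup.lift T m)⁻¹ x) = q ((FreeGroup.lift T m)⁻¹ x'))
    {g : Equiv.Perm ((X × FreeGroup I) × ℕ)} {i : I} {A : Set V} {e e' : Q → ℕ → FreeGroup I}
    (h : Tm T q M K g e) (h' : Tm T q M K (g * tau (shf T i) (yc c ⁻¹' A)) e')
    (φ : X × FreeGroup I ↪ (X × FreeGroup I) × ℕ) (hφ : ∀ b, φ b = g (b, 0)) :
    LA (yc c) φ i A = Th T c q M e * (Th T c q M e')⁻¹ := by
  have hmv : ∀ u : Q × Fin M, e' u.1 u.2 = e u.1 u.2 ∨ e u.1 u.2 = FreeGroup.of i * e' u.1 u.2 := by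
    intro u
    obtain ⟨x, hx⟩ := hq u.1
    rw [← hx]
    rcases tm_step h h' (x, 1) u.2 with h1 | ⟨h1, -⟩
    · exact Or.inl h1
    · exact Or.inr h1
  let _ : Fintype (Q × Fin M) := Fintype.ofFinite _
  let Mv : Finset (Q × Fin M) :=
    Finset.univ.filter (fun u => e u.1 u.2 = FreeGroup.of i * e' u.1 u.2)
  have hMv : ∀ u, u ∈ Mv ↔ e u.1 u.2 = FreeGroup.of i * e' u.1 u.2 := fun u => by simp [Mv]
  -- the union over a set of moved indices
  have hind : ∀ S : Finset (Q × Fin M), S ⊆ Mv →
      chi T c q M (fun u => if u ∈ S then FreeGroup.of (e u.1 u.2, i) else 1) =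
        LA (yc c) φ i (⋃ u ∈ S, Bm T c q u.1 (e u.1 u.2)) := by
    intro S
    induction S using Finset.induction_on with
    | empty =>
      intro _
      have h1 : (fun u : Q × Fin M => if u ∈ (∅ : Finset (Q × Fin M)) then
          FreeGroup.of (e u.1 u.2, i) else (1 : FreeGroup (FreeGroup I × I))) = 1 := by
        funext u
        simp
      rw [h1, map_one]
      simp [LA_empty]
    | insert u S hi ih =>
      intro hS
      have hiM : u ∈ Mv := hS (Finset.mem_insert_self u S)
      have hSM : S ⊆ Mv := fun j hj => hS (Finset.mem_insert_of_mem hj)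
      have h1 : (fun j : Q × Fin M => if j ∈ insert u S then FreeGroup.of (e j.1 j.2, i)
          else (1 : FreeGroup (FreeGroup I × I))) = Pi.mulSingle u (FreeGroup.of (e u.1 u.2, i)) *
            (fun j => if j ∈ S then FreeGroup.of (e j.1 j.2, i) else 1) := by
        funext j
        rw [Pi.mul_apply]
        by_cases hj : j = u
        · subst hj
          rw [Pi.mulSingle_eq_same, if_neg hi, if_pos (Finset.mem_insert_self _ _), mul_one]
        · rw [Pi.mulSingle_eq_of_ne hj, one_mul]
          simp [Finset.mem_insert, hj]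
      rw [h1, map_mul, chi_single, FreeGroup.lift_apply_of, ih hSM]
      have h2 : (⋃ j ∈ insert u S, Bm T c q j.1 (e j.1 j.2)) =
          Bm T c q u.1 (e u.1 u.2) ∪ ⋃ j ∈ S, Bm T c q j.1 (e j.1 j.2) := by
        rw [Finset.set_biUnion_insert]
      have h3 : Disjoint (Bm T c q u.1 (e u.1 u.2)) (⋃ j ∈ S, Bm T c q j.1 (e j.1 j.2)) := by
        rw [Set.disjoint_left]
        intro k hk hk2
        obtain ⟨j, hj, hk3⟩ := Set.mem_iUnion₂.1 hk2
        obtain ⟨x, rfl⟩ := hk.1
        have h4 := (d2_cross (b := (x, 1)) h h' ((hMv u).1 hiM) hk).1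
        have h5 := (d2_cross (b := (x, 1)) h h' ((hMv j).1 (hSM hj)) hk3).1
        rw [h4] at h5
        have h6 := Prod.mk.inj h5
        apply hi
        have h7 : u = j := by
          refine Prod.ext ?_ (Fin.ext h6.2)
          have h8 := congrArg Prod.fst h6.1
          rw [act_inv_apply, act_inv_apply] at h8
          rw [← hk.2 x rfl, ← hk3.2 x rfl]
          exact congrArg q h8
        rw [h7]
        exact hj
      rw [h2, LA_union (yc c) φ i _ _ h3]
      have h4 : Um T c q u.1 u.2 (e u.1 u.2, i) = LA (yc c) φ i (Bm T c q u.1 (e u.1 u.2)) := by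
        apply LA_congr
        intro b hb
        rw [hφ, (d2_cross h h' ((hMv u).1 hiM) hb).1]
        rfl
      rw [h4]
  -- the union over all moved indices is `A`
  have hA : LA (yc c) φ i A = LA (yc c) φ i (⋃ u ∈ Mv, Bm T c q u.1 (e u.1 u.2)) := by
    apply LA_used
    intro b
    constructor
    · intro hb
      obtain ⟨y, s, hys⟩ : ∃ y s, g (b, 0) = (y, s) := ⟨_, _, rfl⟩
      have h1 : g⁻¹ (y, s) = (b, 0) := by
        rw [← hys]
        exact g.symm_apply_apply _
      have h2 := h.loc y s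
      rw [h1] at h2
      change b = _ at h2
      have h3 := h'.loc y s
      rw [mul_inv_rev, Equiv.Perm.mul_apply, h1, tau_inv_apply, if_pos ⟨hb, rfl⟩] at h3
      change (shf T i).symm b = _ at h3
      have h5 : b = act T (FreeGroup.of i * e' (q y.1) s) y := by
        rw [map_mul, Equiv.Perm.mul_apply, ← h3]
        unfold act
        rw [FreeGroup.lift_apply_of, Equiv.apply_symm_apply]
      have h6 : e (q y.1) s = FreeGroup.of i * e' (q y.1) s := act_inj T (h2.symm.trans h5)
      have h7 : s < M := by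
        by_contra h8
        have h9 := h.hi (q y.1) s (not_lt.1 h8)
        have h10 := h'.hi (q y.1) s (not_lt.1 h8)
        exact d2_ne (h10.trans h9.symm) h6
      refine Set.mem_iUnion₂.2 ⟨(q y.1, ⟨s, h7⟩), (hMv _).2 h6, ⟨b.1, rfl⟩, ?_⟩
      intro x hx
      change q ((FreeGroup.lift T (e (q y.1) s))⁻¹ x) = q y.1
      rw [hr (e (q y.1) s) (h.bd _ _) x b.1 hx]
      congr 1
      have h11 : b.1 = FreeGroup.lift T (e (q y.1) s) y.1 := by
        have h12 := congrArg Prod.fst h2
        rw [act_apply] at h12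
        exact h12
      rw [h11]
      exact Equiv.symm_apply_apply _ _
    · intro hb
      obtain ⟨u, hu, hb2⟩ := Set.mem_iUnion₂.1 hb
      exact (d2_cross h h' ((hMv u).1 hu) hb2).2
  rw [hA, ← hind Mv (Finset.Subset.refl _), Th, Th, ← map_inv, ← map_mul]
  congr 1
  funext u
  rw [Pi.mul_apply, Pi.inv_apply]
  by_cases hu : u ∈ Mv
  · rw [if_pos hu]
    have h1 := (hMv u).1 hu
    change FreeGroup.of (e u.1 u.2, i) = pot (e u.1 u.2) * (pot (e' u.1 u.2))⁻¹
    rw [h1, pot_eq, mul_inv_cancel_right]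
  · rw [if_neg hu]
    rcases hmv u with h1 | h1
    · change (1 : FreeGroup (FreeGroup I × I)) = pot (e u.1 u.2) * (pot (e' u.1 u.2))⁻¹
      rw [h1, mul_inv_cancel]
    · exact absurd ((hMv u).2 h1) hu

end Pool.Agent.H37.FG
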