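import Pool.Agent.H37.FG.Dye2
import Pool.Agent.H37.FG.Loc

/-!
# The left part of the evaluation is given by the potential [H37 FG Dye3]

MODULE: adaptation of the finished file `Pool/Agent/H13/BD/Dye3.lean` (copy it; `ac`, `evy`, `sty`, `phy_inl`, …).
-/

set_option autoImplicit false

open Classical

namespace Pool.Agent.H37.FG

open Pool.Agent.H13.TFG
open Pool.Agent.H13.BD (up up_zero up_succ bp bp_apply ii ii_pos ii_neg tau tau_apply tau_inv_apply Fin1 FH)

/-- the action -/
private noncomputable abbrev d3ac (I Y : Type) : Equiv.Perm (Y × ℕ) →* MulAut (RAAG (tg I Y)) :=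
  raagAct (tg I Y) (Equiv.Perm (Y × ℕ)) (tg_smul I Y)

/-- the first token of each block, in the state `g` -/
private def d3st {I X : Type} (g : Equiv.Perm ((X × FreeGroup I) × ℕ)) :
    X × FreeGroup I ↪ (X × FreeGroup I) × ℕ :=
  ⟨fun b => g (b, 0), fun _ _ h => congrArg Prod.fst (g.injective h)⟩

/-- the permutations of the slots -/
private noncomputable def d3ph {I X V : Type} (T : I → Equiv.Perm X) (c : X → V) :
    PP I V →* Equiv.Perm ((X × FreeGroup I) × ℕ) := (ysys T c).Ph

/-- the evaluation -/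
private noncomputable def d3ev {I X V : Type} [Finite V] (T : I → Equiv.Perm X) (c : X → V) :
    PP I V →* GG I (X × FreeGroup I) := (ysys T c).ev

section d3basic

variable {I X V V' : Type}

private theorem d3_Ph_inl (S : Sys I V) (e : V → (I → V) → Fin1) :
    S.Ph (FreeGroup.of (Sum.inl e)) = S.bF (fun v w => (e v w : Equiv.Perm ℕ)) := by
  unfold Sys.Ph
  rw [FreeGroup.lift_apply_of]
  rfl

private theorem d3_Ph_inr (S : Sys I V) (i : I) (A : Set V) :
    S.Ph (FreeGroup.of (Sum.inr (i, A))) = S.bT i A := by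
  unfold Sys.Ph
  rw [FreeGroup.lift_apply_of]
  rfl

private theorem d3_ev_inl [Finite V] (S : Sys I V) (e : V → (I → V) → Fin1) :
    S.ev (FreeGroup.of (Sum.inl e)) = S.F (fun v w => (e v w : Equiv.Perm ℕ)) := by
  unfold Sys.ev
  rw [FreeGroup.lift_apply_of]
  rfl

private theorem d3_ev_inr [Finite V] (S : Sys I V) (i : I) (A : Set V) :
    S.ev (FreeGroup.of (Sum.inr (i, A))) = S.t i A := by
  unfold Sys.ev
  rw [FreeGroup.lift_apply_of]
  rfl

private theorem d3_phy_inl (T : I → Equiv.Perm X) (c : X → V) (a : V → (I → V) → Fin1)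
    (t : (X × FreeGroup I) × ℕ) :
    (d3ph T c (FreeGroup.of (Sum.inl a)) t).1 = t.1 := by
  have h : d3ph T c (FreeGroup.of (Sum.inl a)) =
      bp (fun y => (a (c y.1) (fun i => c (shf T i y).1) : Equiv.Perm ℕ)) :=
    d3_Ph_inl (ysys T c) a
  rw [h, bp_apply]

private theorem d3_phy_inr (T : I → Equiv.Perm X) (c : X → V) (i : I) (A : Set V) :
    d3ph T c (FreeGroup.of (Sum.inr (i, A))) = tau (shf T i) (yc c ⁻¹' A) :=
  d3_Ph_inr (ysys T c) i A

private theorem d3_evy_inl [Finite V] (T : I → Equiv.Perm X) (c : X → V)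
    (a : V → (I → V) → Fin1) :
    ∃ e : Equiv.Perm ((X × FreeGroup I) × ℕ), d3ev T c (FreeGroup.of (Sum.inl a)) =
      SemidirectProduct.inr e :=
  ⟨(ysys T c).bF (fun v w => (a v w : Equiv.Perm ℕ)), d3_ev_inl (ysys T c) a⟩

private theorem d3_evy_inr [Finite V] (T : I → Equiv.Perm X) (c : X → V) (i : I) (A : Set V) :
    d3ev T c (FreeGroup.of (Sum.inr (i, A))) =
      ⟨LA (yc c) (d3st 1) i A, tau (shf T i) (yc c ⁻¹' A)⟩ :=
  d3_ev_inr (ysys T c) i A

private theorem d3_evy_right [Finite V'] (T : I → Equiv.Perm X) (c' : X → V') (π : V' → V)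
    (p : PP I V) :
    (d3ev T c' (rf π p)).right = d3ph T (fun x => π (c' x)) p := by
  have h1 : (d3ev T c' (rf π p)).right = (ysys T c').Ph (rf π p) := ev_right _ _
  rw [h1, Ph_rf]
  rfl

private theorem d3_mk_single {A : Type} (a : A) (ε : Bool) :
    FreeGroup.mk [(a, ε)] = sg (FreeGroup.of a) ε := by
  cases ε <;> rfl

end d3basic

section d3th

variable {I X V' Q : Type} [Finite V'] [Finite Q] {T : I → Equiv.Perm X} {c' : X → V'} {q : X → Q}

private theorem d3_th_congr {M : ℕ} {e e' : Q → ℕ → FreeGroup I} (h : ∀ κ s, e' κ s = e κ s) :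
    Th T c' q M e' = Th T c' q M e := by
  have h1 : e' = e := by
    funext κ s
    exact h κ s
  rw [h1]

private theorem d3_th_one {M : ℕ} {e : Q → ℕ → FreeGroup I} (h : ∀ κ s, e κ s = 1) :
    Th T c' q M e = 1 := by
  unfold Th
  have h1 : (fun u : Q × Fin M => pot (e u.1 u.2)) = 1 := by
    funext u
    rw [h, pot_one]
    rfl
  rw [h1, map_one]

omit [Finite Q] in
private theorem d3_ac_LA (g h : Equiv.Perm ((X × FreeGroup I) × ℕ)) (i : I) (A : Set V') :
    d3ac I (X × FreeGroup I) g (LA (yc c') (d3st h) i A) = LA (yc c') (d3st (g * h)) i A := by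
  have h1 := LA_act (yc c') (d3st h) g i A
  exact h1

end d3th

private theorem d3_left {I X V V' Q : Type} [Finite V'] [Finite Q] {T : I → Equiv.Perm X} {c' : X → V'}
    {q : X → Q} (hq : Function.Surjective q) {M : ℕ} {K : Finset (FreeGroup I)}
    (hr : ∀ m ∈ K, ∀ x x' : X, c' x = c' x' →
      q ((FreeGroup.lift T m)⁻¹ x) = q ((FreeGroup.lift T m)⁻¹ x'))
    (π : V' → V) (L : List (Gn I V × Bool))
    (hL : ∀ L1 L2, L = L1 ++ L2 →
      ∃ e, Tm T q M K (d3ph T (fun x => π (c' x)) (FreeGroup.mk L1)) e)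
    (L1 : List (Gn I V × Bool)) :
    ∀ (L2 : List (Gn I V × Bool)), L = L1 ++ L2 → ∀ e,
      Tm T q M K (d3ph T (fun x => π (c' x)) (FreeGroup.mk L1)) e →
      (d3ev T c' (rf π (FreeGroup.mk L1))).left = (Th T c' q M e)⁻¹ := by
  induction L1 using List.reverseRecOn with
  | nil =>
    intro L2 _ e he
    have h1 : (FreeGroup.mk [] : PP I V) = 1 := rfl
    have h2 : ∀ κ s, e κ s = 1 := by
      intro κ s
      obtain ⟨x, rfl⟩ := hq κ
      have h3 := he.loc (x, 1) s
      rw [h1, map_one] at h3
      have h4 : ((x, 1) : X × FreeGroup I) = act T (e (q x) s) (x, 1) := h3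
      apply act_inj T (y := (x, 1))
      rw [← h4, map_one]
      rfl
    rw [h1, map_one, map_one, d3_th_one h2, inv_one]
    rfl
  | append_singleton L1 x ih =>
    intro L2 hL2 e' he'
    rw [List.append_assoc] at hL2
    obtain ⟨e, he⟩ := hL L1 ([x] ++ L2) hL2
    have ih' := ih ([x] ++ L2) hL2 e he
    have h1 : (FreeGroup.mk (L1 ++ [x]) : PP I V) = FreeGroup.mk L1 * FreeGroup.mk [x] := by
      rw [FreeGroup.mul_mk]
    rw [h1, map_mul] at he'
    rw [h1, map_mul, map_mul, SemidirectProduct.mul_left, d3_evy_right, ih']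
    obtain ⟨a, ε⟩ := x
    rw [d3_mk_single] at he' ⊢
    rw [map_sg] at he'
    rw [map_sg, map_sg]
    generalize d3ph T (fun x => π (c' x)) (FreeGroup.mk L1) = g at he he' ⊢
    rcases a with a | ⟨i, A⟩
    · -- a block permutation
      have h2 : ∀ κ s, e' κ s = e κ s := by
        intro κ s
        obtain ⟨x, rfl⟩ := hq κ
        have h3 := he.loc (x, 1) s
        have h4 := he'.loc (x, 1) s
        rw [mul_inv_rev, Equiv.Perm.mul_apply] at h4
        have h5 : ∀ t : (X × FreeGroup I) × ℕ,
            ((sg (d3ph T (fun x => π (c' x)) (FreeGroup.of (Sum.inl a))) ε)⁻¹ t).1 =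
              t.1 := by
          intro t
          have h6 := d3_phy_inl T (fun x => π (c' x)) a
          cases ε with
          | true =>
            rw [sg_true]
            have h7 := h6 ((d3ph T (fun x => π (c' x)) (FreeGroup.of (Sum.inl a)))⁻¹ t)
            rw [← Equiv.Perm.mul_apply, mul_inv_cancel] at h7
            exact h7.symm
          | false =>
            rw [sg_false, inv_inv]
            exact h6 t
        rw [h5, h3] at h4
        exact (act_inj T h4).symm
      have h3 : (sg (d3ev T c' (rf π (FreeGroup.of (Sum.inl a)))) ε).left = 1 := by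
        have h4 : rf π (FreeGroup.of (Sum.inl a)) =
            FreeGroup.of (Sum.inl (fun v w => a (π v) (fun i => π (w i)))) := rfl
        obtain ⟨u, hu⟩ := d3_evy_inl T c' (fun v w => a (π v) (fun i => π (w i)))
        rw [h4, hu]
        cases ε with
        | true => rfl
        | false =>
          rw [sg_false, ← map_inv]
          rfl
      rw [h3, map_one, mul_one, d3_th_congr h2]
    · -- a token move
      have h4 : rf π (FreeGroup.of (Sum.inr (i, A)) : PP I V) =
          FreeGroup.of (Sum.inr (i, π ⁻¹' A)) := rfl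
      rw [h4, d3_evy_inr]
      rw [d3_phy_inr] at he'
      have h5 : yc (I := I) (fun x => π (c' x)) ⁻¹' A = yc c' ⁻¹' (π ⁻¹' A) := rfl
      rw [h5] at he'
      cases ε with
      | true =>
        rw [sg_true] at he' ⊢
        change (Th T c' q M e)⁻¹ * d3ac I (X × FreeGroup I) g
          (LA (yc c') (d3st 1) i (π ⁻¹' A)) = _
        rw [d3_ac_LA, mul_one, th_step hq hr he he' (d3st g) (fun _ => rfl),
          inv_mul_cancel_left]
      | false =>
        rw [sg_false] at he' ⊢
        rw [SemidirectProduct.inv_left]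
        change (Th T c' q M e)⁻¹ * d3ac I (X × FreeGroup I) g
          (d3ac I (X × FreeGroup I) (tau (shf T i) (yc c' ⁻¹' (π ⁻¹' A)))⁻¹
            (LA (yc c') (d3st 1) i (π ⁻¹' A))⁻¹) = _
        have he2 : Tm T q M K (g * (tau (shf T i) (yc c' ⁻¹' (π ⁻¹' A)))⁻¹ *
            tau (shf T i) (yc c' ⁻¹' (π ⁻¹' A))) e := by
          rw [inv_mul_cancel_right]
          exact he
        rw [map_inv, map_inv, d3_ac_LA, d3_ac_LA, mul_one,
          th_step hq hr he' he2 (d3st _) (fun _ => rfl), mul_inv_rev, inv_inv,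
          inv_mul_cancel_left]


/-- If all prefixes of the word `L` (for the colouring `π ∘ c'`) have displacements `e` as in `Tm`, then the left part of the
evaluation of each prefix, for the colouring `c'`, is `(Th e)⁻¹`. Proof as `dye_left` in the old file: induction on the
prefix from the right; block permutations do not change the displacements, a letter `inr (i, A)` or its inverse changes
the left part by `th_step`. -/
theorem dye_left {I X V V' Q : Type} [Finite V'] [Finite Q] {T : I → Equiv.Perm X} {c' : X → V'}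
    {q : X → Q} (hq : Function.Surjective q) {M : ℕ} {K : Finset (FreeGroup I)}
    (hr : ∀ m ∈ K, ∀ x x' : X, c' x = c' x' →
      q ((FreeGroup.lift T m)⁻¹ x) = q ((FreeGroup.lift T m)⁻¹ x'))
    (π : V' → V) (L : List (Gn I V × Bool))
    (hL : ∀ L1 L2, L = L1 ++ L2 →
      ∃ e, Tm T q M K ((ysys T (fun x => π (c' x))).Ph (FreeGroup.mk L1)) e)
    (L1 : List (Gn I V × Bool)) :
    ∀ (L2 : List (Gn I V × Bool)), L = L1 ++ L2 → ∀ e,
      Tm T q M K ((ysys T (fun x => π (c' x))).Ph (FreeGroup.mk L1)) e →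
      ((ysys T c').ev (rf π (FreeGroup.mk L1))).left = (Th T c' q M e)⁻¹ := by
  exact d3_left hq hr π L hL L1

end Pool.Agent.H37.FG
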