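import Pool.Agent.H37.FG.Defs

/-!
# Finite systems with prescribed types [H37 FG FinSys]

Proof. `Θ := {u : V × (I → V) // E u.1 u.2}`, `Z := Σ u : Θ, Fin (n u)`, `c z := z.1.1.1`. For each `i` there is a permutation
`T i` of `Z` with `c (T i z) = z.1.1.2 i` for all `z`: `Equiv.ofFiberEquiv` for the functions `f z := z.1.1.2 i`, `g := c`
(`Equiv.ofFiberEquiv_map` gives `g (T i z) = f z`), where the fibres over each colour `d` have the same cardinality by `hbal`
(`Fintype.card_sigma` / `Nat.card_sigma` for the subtypes; e.g. the fibre of `f` over `d` is `Σ u : {u : Θ // u.1.2 i = d}, Fin (n u)`,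
or count with `Finset.card_filter`, `Finset.sum_sigma`). Then the type of the block `z` is `z.1.1`: `nb z i = c (T i z) = z.1.1.2 i`;
and every `u : Θ` occurs as `0 < n u`. Do not use `convert` between instances of `Fintype` or `Decidable`.
-/

set_option autoImplicit false

open Classical

namespace Pool.Agent.H37.FG

theorem fin_sys {I V : Type} [Finite V] (E : V → (I → V) → Prop)
    [Fintype {u : V × (I → V) // E u.1 u.2}] (n : {u : V × (I → V) // E u.1 u.2} → ℕ)
    (hn : ∀ u, 0 < n u)
    (hbal : ∀ (i : I) (d : V), (∑ u : {u : V × (I → V) // E u.1 u.2}, if u.1.2 i = d then n u else 0) =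
      ∑ u : {u : V × (I → V) // E u.1 u.2}, if u.1.1 = d then n u else 0) :
    ∃ R : Sys I V, Finite R.Z ∧ ∀ v w, R.Edge v w ↔ E v w := by
  sorry

end Pool.Agent.H37.FG
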