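import Mathlib

/-!
# Free subgroups of finite index have finite rank [H37 FG FreeFin]

Proof. `F` is finitely generated (`Subgroup.fg_of_index_ne_zero`; `Group.FG F`). Let `b : FreeGroupBasis I F`
(`IsFreeGroup.nonempty_basis`), so `F ≃* FreeGroup I` (`b.repr`), and `FreeGroup I` is generated by a finite set `S`. Every element of a
free group is in `FreeGroup.map` of a finite set of letters: there is a finite set `J ⊆ I` such that all members of `S` are in the
subgroup generated by the `of j`, `j ∈ J` (induction on the element; finite union), so this subgroup is everything. The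
homomorphism `FreeGroup I → FreeGroup I` which maps `of j` to `1` for `j ∈ J` and `of i` to `of i` otherwise is trivial on this
subgroup, so `of i = 1` for `i ∉ J`, which is impossible (`FreeGroup.of_ne_one`). So `I = J` is finite.
-/

set_option autoImplicit false

namespace Pool.Agent.H37.FG

theorem free_fin_supp {I : Type} (x : FreeGroup I) :
    ∃ J : Finset I, x ∈ Subgroup.closure (FreeGroup.of '' (J : Set I)) := by
  classical
  induction x using FreeGroup.induction_on with
  | C1 => exact ⟨∅, one_mem _⟩
  | of i => exact ⟨{i}, Subgroup.subset_closure ⟨i, by simp, rfl⟩⟩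
  | inv_of i h =>
    obtain ⟨J, hJ⟩ := h
    exact ⟨J, inv_mem hJ⟩
  | mul x y hx hy =>
    obtain ⟨J, hJ⟩ := hx
    obtain ⟨J', hJ'⟩ := hy
    refine ⟨J ∪ J', mul_mem ?_ ?_⟩
    · refine Subgroup.closure_mono (Set.image_mono ?_) hJ
      simp
    · refine Subgroup.closure_mono (Set.image_mono ?_) hJ'
      simp

theorem free_fin_of_fg {I : Type} (h : Group.FG (FreeGroup I)) : Finite I := by
  classical
  obtain ⟨S, hS⟩ := Group.fg_def.1 h
  choose J hJ using fun x : FreeGroup I => free_fin_supp x
  set K : Finset I := S.biUnion J with hK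
  have h1 : Subgroup.closure (FreeGroup.of '' (K : Set I)) = ⊤ := by
    rw [eq_top_iff, ← hS, Subgroup.closure_le]
    intro x hx
    refine Subgroup.closure_mono (Set.image_mono ?_) (hJ x)
    intro i hi
    simp only [hK, Finset.coe_biUnion, Set.mem_iUnion]
    exact ⟨x, hx, hi⟩
  have h2 : ∀ i : I, i ∈ K := by
    intro i
    by_contra hi
    let f : FreeGroup I →* FreeGroup I := FreeGroup.lift fun j => if j ∈ K then 1 else FreeGroup.of j
    have h3 : Subgroup.closure (FreeGroup.of '' (K : Set I)) ≤ f.ker := by
      rw [Subgroup.closure_le]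
      rintro x ⟨j, hj, rfl⟩
      have hj' : j ∈ K := hj
      simp [f, MonoidHom.mem_ker, hj']
    have h4 : FreeGroup.of i ∈ f.ker := h3 (by rw [h1]; trivial)
    rw [MonoidHom.mem_ker] at h4
    simp only [f, FreeGroup.lift_apply_of, if_neg hi] at h4
    exact FreeGroup.of_ne_one i h4
  exact Finite.of_injective (fun i : I => (⟨i, h2 i⟩ : K)) (fun a b h => congrArg Subtype.val h)

theorem free_fin {Γ : Type} [Group Γ] (hΓ : Group.FG Γ) (F : Subgroup Γ) (hi : F.FiniteIndex)
    (hF : IsFreeGroup F) : ∃ (I : Type), Finite I ∧ Nonempty (FreeGroup I ≃* F) := by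
  refine ⟨IsFreeGroup.Generators F, ?_, ⟨IsFreeGroup.mulEquiv F⟩⟩
  have h1 : Group.FG F := by
    have := hΓ
    infer_instance
  have h2 : Group.FG (FreeGroup (IsFreeGroup.Generators F)) := by
    have := h1
    exact Group.fg_of_surjective (f := (IsFreeGroup.toFreeGroup F).toMonoidHom)
      (IsFreeGroup.toFreeGroup F).surjective
  exact free_fin_of_fg h2

end Pool.Agent.H37.FG
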