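import Pool.Agent.H37.FG.Route

/-!
# Local permutations are given by words [H37 FG Gen]
-/

set_option autoImplicit false

open Classical

namespace Pool.Agent.H37.FG

open Pool.Agent.H13.BD (up up_zero up_succ bp bp_apply ii ii_pos ii_neg tau tau_apply tau_inv_apply Fin1 FH)

variable {I X : Type} (T : I → Equiv.Perm X) (𝓑 : Set (Set X))

/-- The permutation of the slots is given by finitely many elements of the free group and finitely many slots, which depend
on the colours for a finite family of members of `𝓑`. -/
def IsLoc (h : Equiv.Perm ((X × FreeGroup I) × ℕ)) : Prop :=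
  ∃ (i : Finset 𝓑) (φ : (i → Prop) → ℕ → FreeGroup I × ℕ) (M : ℕ),
    (∀ (y : X × FreeGroup I) (n : ℕ),
      h (y, n) = (act T (φ (cl i y.1) n).1 y, (φ (cl i y.1) n).2)) ∧
    ∀ v n, M ≤ n → φ v n = (1, n)

variable {T 𝓑}

/-- A permutation of `ℕ` which is a shift by `κ` for large numbers: `κ = 0`. Proof: let `κ ≥ 0` (otherwise take the inverse, which is
a shift by `-κ` for large numbers). The numbers `≥ N` are mapped bijectively to the numbers `≥ N + κ`, so `e` maps
`{0, …, N - 1}` bijectively onto `{0, …, N + κ - 1}` (a number `< N + κ` is the image of a number `< N`), and the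
cardinalities give `κ = 0`. -/
theorem shift_zero (e : Equiv.Perm ℕ) (N : ℕ) (κ : ℤ) (h : ∀ n, N ≤ n → ((e n : ℕ) : ℤ) = n + κ) :
    κ = 0 := by
  sorry

/-- Proof. Let `L` be the set of all pairs `(v, n)` with `n < M` (finite as `i → Prop` is finite), `P` the permutation of `route`
for `f v n := (φ v n).1`. Then `(P (y, n)).1 = (h (y, n)).1` for all `y`, `n` (for `n ≥ M` both are `y`). Let `k := h * P⁻¹`. It
maps every block to itself: `(k t).1 = t.1` (apply the equality to `P⁻¹ t`). By `rr_high` for `P⁻¹` and the property of `φ` for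
large `n`: `k (y, n) = (y, n + κ (cl j y.1))` for all `n ≥ N` (`N` large, uniformly; the finitely many values of `κ` are
bounded), so `κ (cl j y.1) = 0` by `shift_zero` for the permutation `n ↦ (k (y, n)).2` of `ℕ`, and `k (y, n) = (y, n)` for `n ≥ N`.
By `rr_loc` for `P⁻¹` (window `K`) and `win_cl` (for `i` and `K`), `(k (y, n)).2` depends only on `n` and the colour `cl j' y.1` for
a finite family `j'`: `P⁻¹ ((x, a), n) = (act T k0 (x, a), n')`, and `h` of it is given by `φ (cl i (lift T k0 x)) n'`. So there is
`ε : (j' → Prop) → Fin1` with `k = bp (fun y => ε (cl j' y.1))` (choice of a representative for each colour which occurs),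
hence `k ∈ RR` (`rr_bp`) and `h = k * P ∈ RR`. Finally `h ∈ FH` with the bound `M` (`act T 1 = 1`). -/
theorem gen [Finite I] (hB : IsAlg T 𝓑) (h : Equiv.Perm ((X × FreeGroup I) × ℕ))
    (hh : IsLoc T 𝓑 h) : h ∈ BQ T 𝓑 := by
  sorry

end Pool.Agent.H37.FG
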