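import Pool.Agent.H37.FG.Vf

/-!
# Germs [H37 FG Germ]
-/

set_option autoImplicit false

open Classical Topology

namespace Pool.Agent.H37.FG

private theorem germ_uniq_germs {Γ X : Type} [Group Γ] [TopologicalSpace X]
    [MulAction Γ X]
    (hfree : ∀ γ : Γ, γ ≠ 1 → interior {x : X | γ • x = x} = ∅) (h : X → X) (x : X)
    (γ γ' : Γ) (h1 : ∀ᶠ y in 𝓝 x, h y = γ • y) (h2 : ∀ᶠ y in 𝓝 x, h y = γ' • y) : γ = γ' := by
  by_contra hne
  have h3 : (γ'⁻¹ * γ) ≠ 1 := by
    intro h4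
    exact hne (inv_mul_eq_one.mp h4).symm
  have h5 : ∀ᶠ y in 𝓝 x, y ∈ {x : X | (γ'⁻¹ * γ) • x = x} := by
    filter_upwards [h1, h2] with y hy1 hy2
    show (γ'⁻¹ * γ) • y = y
    rw [mul_smul, ← hy1, hy2, inv_smul_smul]
  have h6 : x ∈ interior {x : X | (γ'⁻¹ * γ) • x = x} := mem_interior_iff_mem_nhds.mpr h5
  rw [hfree _ h3] at h6
  exact h6

private theorem germ_fac_germs {Γ X : Type} [One Γ] [TopologicalSpace X] [CompactSpace X]
    (f : X → Γ) (hf : IsLocallyConstant f) :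
    ∃ (i : Finset ({A : Set X | IsClopen A} : Set (Set X))) (φ : (i → Prop) → Γ),
      ∀ x, φ (cl i x) = f x := by
  have hfin : (Set.range f).Finite := hf.range_finite
  have hcl : ∀ γ : Γ, f ⁻¹' {γ} ∈ ({A : Set X | IsClopen A} : Set (Set X)) :=
    fun γ => hf.isClopen_fiber γ
  obtain ⟨i, hi⟩ : ∃ i : Finset ({A : Set X | IsClopen A} : Set (Set X)), ∀ x : X,
      (⟨f ⁻¹' {f x}, hcl (f x)⟩ : ({A : Set X | IsClopen A} : Set (Set X))) ∈ i :=
    ⟨hfin.toFinset.image (fun γ => ⟨f ⁻¹' {γ}, hcl γ⟩), fun x =>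
      Finset.mem_image.mpr ⟨f x, hfin.mem_toFinset.mpr ⟨x, rfl⟩, rfl⟩⟩
  refine ⟨i, fun v => if hv : ∃ x, cl i x = v then f hv.choose else 1, fun x => ?_⟩
  have hv : ∃ x', cl i x' = cl i x := ⟨x, rfl⟩
  have h0 : (if hv : ∃ x', cl i x' = cl i x then f hv.choose else 1) = f hv.choose := dif_pos hv
  refine h0.trans ?_
  have h3 := congrFun hv.choose_spec ⟨⟨f ⁻¹' {f x}, hcl (f x)⟩, hi x⟩
  exact (iff_of_eq h3).mpr rfl

/-- Proof. For `x` the element `γ` with `h y = γ y` near `x` is unique: if `γ`, `γ'` both agree with `h` near `x` then `γ⁻¹ γ'`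
fixes an open set which contains `x`, so it is `1` by `hfree`. Call it `germ h x`. It is locally constant in `x` (if
`h y = γ y` for all `y` in the open set `U` then `germ h y = γ` for all `y ∈ U`; `IsLocallyConstant`), so it has finitely many
values (`X` is compact), and its fibres are clopen; let `i` be the family of the fibres. `germ (h h') x = germ h (h' x) *
germ h' x`, as `h'` is continuous at `x` (it agrees with `γ'` near `x`), and `germ 1 x = 1`. So
`ρ h (x, g) := (h x, germ h x * g)` (with the inverse `ρ h⁻¹`) is a homomorphism to the permutations of `X × Γ`, injective as the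
first coordinate is `h x`; and `h x = germ h x • x`. (For the empty `X` everything is trivial.) -/
theorem germs {Γ X : Type} [Group Γ] [TopologicalSpace X] [CompactSpace X]
    [MulAction Γ X] [ContinuousConstSMul Γ X]
    (hfree : ∀ γ : Γ, γ ≠ 1 → interior {x : X | γ • x = x} = ∅) (H : Subgroup (Equiv.Perm X))
    (hH : ∀ h ∈ H, ∀ x, ∃ γ : Γ, ∀ᶠ y in 𝓝 x, h y = γ • y) :
    ∃ ρ : H →* Equiv.Perm (X × Γ), Function.Injective ρ ∧
      ∀ h : H, IsLocG {A : Set X | IsClopen A} (ρ h) := by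
  have hex : ∀ (h : H) (x : X), ∃ γ : Γ, ∀ᶠ y in 𝓝 x, h.1 y = γ • y := fun h x => hH h.1 h.2 x
  choose germ hg using hex
  have huniq : ∀ (h : H) (x : X) (γ : Γ), (∀ᶠ y in 𝓝 x, h.1 y = γ • y) → germ h x = γ :=
    fun h x γ hγ => germ_uniq_germs hfree h.1 x _ _ (hg h x) hγ
  have hcont : ∀ (h : H) (x : X), Filter.Tendsto h.1 (𝓝 x) (𝓝 (h.1 x)) := by
    intro h x
    have h1 : Filter.Tendsto (fun y => germ h x • y) (𝓝 x) (𝓝 (germ h x • x)) :=
      (continuous_const_smul (germ h x)).tendsto x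
    have h2 : h.1 x = germ h x • x := (hg h x).self_of_nhds
    rw [h2]
    exact h1.congr' ((hg h x).mono fun y hy => hy.symm)
  have hval : ∀ (h : H) (x : X), h.1 x = germ h x • x := fun h x => (hg h x).self_of_nhds
  have hmul : ∀ (h h' : H) (x : X), germ (h * h') x = germ h (h'.1 x) * germ h' x := by
    intro h h' x
    apply huniq
    have h1 := (hcont h' x).eventually (hg h (h'.1 x))
    filter_upwards [h1, hg h' x] with y hy1 hy2
    show h.1 (h'.1 y) = _
    rw [hy1, hy2, mul_smul]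
  have hone : ∀ x : X, germ 1 x = 1 := by
    intro x
    apply huniq
    exact Filter.Eventually.of_forall fun y => (one_smul Γ y).symm
  have hloc : ∀ h : H, IsLocallyConstant (germ h) := by
    intro h
    rw [IsLocallyConstant.iff_eventually_eq]
    intro x
    have h1 := eventually_eventually_nhds.mpr (hg h x)
    filter_upwards [h1] with y hy
    exact huniq h y _ hy
  refine ⟨MonoidHom.mk' (fun h => ⟨fun p => (h.1 p.1, germ h p.1 * p.2),
    fun p => ((h⁻¹ : H).1 p.1, germ h⁻¹ p.1 * p.2), ?_, ?_⟩) ?_, ?_, ?_⟩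
  · intro p
    have h1 : (h⁻¹ : H).1 (h.1 p.1) = p.1 := by simp
    have h2 : germ h⁻¹ (h.1 p.1) * germ h p.1 = 1 := by
      rw [← hmul, inv_mul_cancel, hone]
    show ((h⁻¹ : H).1 (h.1 p.1), germ h⁻¹ (h.1 p.1) * (germ h p.1 * p.2)) = p
    rw [h1, ← mul_assoc, h2, one_mul]
  · intro p
    have h1 : h.1 ((h⁻¹ : H).1 p.1) = p.1 := by simp
    have h2 : germ h ((h⁻¹ : H).1 p.1) * germ h⁻¹ p.1 = 1 := by
      rw [← hmul, mul_inv_cancel, hone]
    show (h.1 ((h⁻¹ : H).1 p.1), germ h ((h⁻¹ : H).1 p.1) * (germ h⁻¹ p.1 * p.2)) = p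
    rw [h1, ← mul_assoc, h2, one_mul]
  · intro h h'
    ext p
    · rfl
    · show germ (h * h') p.1 * p.2 = germ h (h'.1 p.1) * (germ h' p.1 * p.2)
      rw [hmul, mul_assoc]
  · intro h h' hh
    apply Subtype.ext
    ext x
    have h1 := congrArg (fun e : Equiv.Perm (X × Γ) => (e (x, 1)).1) hh
    exact h1
  · intro h
    obtain ⟨i, φ, hφ⟩ := germ_fac_germs (germ h) (hloc h)
    refine ⟨i, φ, fun x g => ?_⟩
    show (h.1 x, germ h x * g) = _
    rw [hφ, hval h x]

end Pool.Agent.H37.FG
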