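import Mathlib

/-!
# Positive integer solutions of linear systems [H37 FG IntSol]

A homogeneous linear system with integer coefficients which has a positive real solution has a positive integer solution.

Proof. Let `W : Submodule ℚ ℝ` be the span over `ℚ` of the finitely many real numbers `x θ`. It is finite dimensional; let `b`
be a basis (`Module.finBasis ℚ W` or `Module.Free.chooseBasis`, indexed by a finite type `κ`), and
`x θ = ∑ k, q θ k • b k` with rational `q θ k` (`Basis.sum_repr`, coordinates of `⟨x θ, _⟩`). For each `r` the relation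
`∑ θ, A r θ * x θ = 0` is `∑ k, (∑ θ, A r θ * q θ k) • b k = 0`, so `∑ θ, A r θ * q θ k = 0` for all `k` (linear independence;
or apply `b.repr` to the relation in `W`). For real numbers `y k` close to `b k` the numbers `∑ k, q θ k * y k` are positive
(continuity in `y`, finitely many `θ`; the set of such `y : κ → ℝ` is open and contains `b`), and rational points are dense
(`DenseRange` of `fun (y : κ → ℚ) k => (y k : ℝ)`: `DenseRange.pi_map` or choose each `y k` with `|y k - b k| < ε` for
`ε = min / (1 + ∑ |q|)`, `exists_rat_btwn`). So there are rational `y k` such that `z θ := ∑ k, q θ k * y k` is a positive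
rational number for all `θ`, and `∑ θ, A r θ * z θ = ∑ k, y k * ∑ θ, A r θ * q θ k = 0`. Multiply by the product `D` of the
denominators of the `z θ` (`D * z θ` is a positive integer, `n θ := (D * z θ).num.toNat`).
-/

set_option autoImplicit false

namespace Pool.Agent.H37.FG

theorem int_sol {Θ R : Type} [Fintype Θ] (A : R → Θ → ℤ) (x : Θ → ℝ) (hx : ∀ θ, 0 < x θ)
    (h : ∀ r, ∑ θ, (A r θ : ℝ) * x θ = 0) :
    ∃ n : Θ → ℕ, (∀ θ, 0 < n θ) ∧ ∀ r, ∑ θ, A r θ * (n θ : ℤ) = 0 := by
  sorry

end Pool.Agent.H37.FG
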