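import Pool.Agent.H37.FG.Apx
import Pool.Agent.H37.FG.Dye
import Pool.Agent.H37.FG.Gen
import Pool.Agent.H13.BD.Col

/-!
# The group `BQ` is in the class [H37 FG Mai]

MODULE `bq_mem`: adaptation of `bq_mem` in `Pool/Agent/H13/BD/Mai.lean` (`mai_rf_id`, `mai_rf_comp`, `maiR`, `maiPhi`), for
the index set `ι := Finset 𝓑`. Simpler here: `N0 T (cl i)` is the kernel of `(ysys T (cl i)).ev` on `P0`; `hN`: `ev_right`; `hr`:
`mlp (rs h) (ysys T (cl i)) (ysys T (cl j))` (the types of `(ysys T (cl j)).push (rs h)` are those of `ysys T (cl i)`, by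
`rfl`); `die`: `dye` for `cl i` (its fibres are in `𝓑`: finite intersections of the members of `i` and complements) gives `q`;
`j` := the union of `i` and the finitely many sets `q ⁻¹' {κ}`; `hG`: `apx`.
-/

set_option autoImplicit false

open Classical

namespace Pool.Agent.H37.FG

open Pool.Agent.H98.FJ

variable {I X : Type} {T : I → Equiv.Perm X} {𝓑 : Set (Set X)}

theorem mai_rf_id {V : Type} (π : V → V) (hπ : ∀ v, π v = v) (p : PP I V) : rf π p = p := by
  obtain rfl : π = id := funext hπ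
  have h1 : (Sum.map (fun (e : V → (I → V) → Pool.Agent.H13.BD.Fin1) v w => e (id v) (fun i => id (w i)))
      (fun A : I × Set V => (A.1, id ⁻¹' A.2)) : Gn I V → Gn I V) = id := by
    funext x
    rcases x with e | A
    · rfl
    · rfl
  unfold rf
  rw [h1]
  exact FreeGroup.map.id p

theorem mai_rf_comp {V V' V'' : Type} (π : V' → V) (π' : V'' → V') (π'' : V'' → V)
    (h : ∀ v, π'' v = π (π' v)) (p : PP I V) : rf π' (rf π p) = rf π'' p := by
  obtain rfl : π'' = fun v => π (π' v) := funext h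
  unfold rf
  rw [FreeGroup.map.comp]
  have h1 : ((Sum.map (fun (e : V' → (I → V') → Pool.Agent.H13.BD.Fin1) v w =>
      e (π' v) (fun i => π' (w i))) (fun A : I × Set V' => (A.1, π' ⁻¹' A.2))) ∘
      (Sum.map (fun (e : V → (I → V) → Pool.Agent.H13.BD.Fin1) v w =>
      e (π v) (fun i => π (w i))) (fun A : I × Set V => (A.1, π ⁻¹' A.2))) :
        Gn I V → Gn I V'') =
      Sum.map (fun (e : V → (I → V) → Pool.Agent.H13.BD.Fin1) v w =>
        e (π (π' v)) (fun i => π (π' (w i))))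
        (fun A : I × Set V => (A.1, (fun v => π (π' v)) ⁻¹' A.2)) := by
    funext x
    rcases x with e | A
    · rfl
    · rfl
  rw [h1]

/-- the transition maps -/
noncomputable def maiR (T : I → Equiv.Perm X) (i j : Finset 𝓑) (h : i ≤ j) :
    P0 T (cl i) →* P0 T (cl j) :=
  ((rf (rs h)).comp (P0 T (cl i)).subtype).codRestrict (P0 T (cl j)) (fun x => by
    have h1 : (ysys T (cl i)).Ph x.1 ∈ Pool.Agent.H13.BD.FH (X × FreeGroup I) := x.2
    rw [← Ph_rs T 𝓑 h x.1] at h1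
    exact h1)

theorem maiR_val (i j : Finset 𝓑) (h : i ≤ j) (x : P0 T (cl i)) :
    (maiR T i j h x).1 = rf (rs h) x.1 := rfl

/-- the maps to the colimit -/
noncomputable def maiPhi (T : I → Equiv.Perm X) (i : Finset 𝓑) : P0 T (cl i) →* BQ T 𝓑 :=
  ((ysys T (cl i)).Ph.comp (P0 T (cl i)).subtype).codRestrict (BQ T 𝓑)
    (fun x => ⟨x.2, i, x.1, rfl⟩)

theorem maiPhi_val (i : Finset 𝓑) (x : P0 T (cl i)) :
    (maiPhi T i x).1 = (ysys T (cl i)).Ph x.1 := rfl

theorem mai_mem {V : Type} [Finite V] (c : X → V) (x : P0 T c) :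
    x ∈ N0 T c ↔ (ysys T c).ev x.1 = 1 := by
  unfold N0
  rw [MonoidHom.mem_ker]
  rfl

theorem mai_inter (hB : IsAlg T 𝓑) {ι : Type} (s : Finset ι) (f : ι → Set X)
    (hf : ∀ a, f a ∈ 𝓑) : (⋂ a ∈ s, f a) ∈ 𝓑 := by
  induction s using Finset.induction_on with
  | empty =>
    have : (⋂ a ∈ (∅ : Finset ι), f a) = Set.univ := by simp
    rw [this]
    exact hB.univ
  | insert a s ha ih =>
    rw [Finset.set_biInter_insert]
    exact hB.inter _ (hf a) _ ih

theorem mai_fib (hB : IsAlg T 𝓑) (i : Finset 𝓑) (v : i → Prop) : cl i ⁻¹' {v} ∈ 𝓑 := by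
  have h1 : cl i ⁻¹' {v} = ⋂ D ∈ (Finset.univ : Finset i), (if v D then D.1.1 else (D.1.1)ᶜ) := by
    ext x
    simp only [Set.mem_preimage, Set.mem_singleton_iff, Finset.mem_univ, Set.iInter_true,
      Set.mem_iInter]
    constructor
    · intro h D
      have h2 : cl i x D = v D := congrFun h D
      by_cases h3 : v D
      · rw [if_pos h3]
        exact h2.mpr h3
      · rw [if_neg h3]
        exact fun h4 => h3 (h2.mp h4)
    · intro h
      funext D
      have h2 := h D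
      apply propext
      by_cases h3 : v D
      · rw [if_pos h3] at h2
        exact ⟨fun _ => h3, fun _ => h2⟩
      · rw [if_neg h3] at h2
        exact ⟨fun h4 => absurd h4 h2, fun h4 => absurd h4 h3⟩
  rw [h1]
  refine mai_inter hB _ _ fun D => ?_
  by_cases h3 : v D
  · rw [if_pos h3]
    exact D.1.2
  · rw [if_neg h3]
    exact hB.compl _ D.1.2

theorem mai_die [Finite I] (hB : IsAlg T 𝓑) (i : Finset 𝓑) (p : PP I (i → Prop))
    (hp : (ysys T (cl i)).Ph p = 1) : ∃ (j : Finset 𝓑) (h : i ≤ j),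
      (ysys T (cl j)).ev (rf (rs h) p) = 1 := by
  obtain ⟨Q, hQ, q, hq, H⟩ := dye hB (cl i) (mai_fib hB i) p hp
  have hQf : Fintype Q := Fintype.ofFinite Q
  let j : Finset 𝓑 := i ∪ Finset.univ.image (fun κ : Q => (⟨q ⁻¹' {κ}, hq κ⟩ : 𝓑))
  have hij : i ≤ j := Finset.subset_union_left
  refine ⟨j, hij, ?_⟩
  refine H (j → Prop) (cl j) (rs hij) (fun y => rs_cl hij y) ?_
  intro y y' hy
  have hD : (⟨q ⁻¹' {q y}, hq (q y)⟩ : 𝓑) ∈ j := Finset.mem_union_right _
    (Finset.mem_image_of_mem _ (Finset.mem_univ (q y)))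
  have h2 := congrFun hy ⟨⟨q ⁻¹' {q y}, hq (q y)⟩, hD⟩
  have h3 : y' ∈ q ⁻¹' {q y} := h2.mp rfl
  exact (Set.mem_singleton_iff.1 h3).symm

theorem mai_Ph1 {V : Type} [Finite V] (c : X → V) (p : PP I V) (h : (ysys T c).ev p = 1) :
    (ysys T c).Ph p = 1 := by
  rw [← ev_right, h]
  rfl

theorem bq_mem {C : (G : Type) → [Group G] → Prop} (hC : Inherits C) (hE : Extension C)
    {I X : Type} [Finite I] {T : I → Equiv.Perm X} {𝓑 : Set (Set X)} (hB : IsAlg T 𝓑)
    (hm : HasMass T 𝓑) : C (BQ T 𝓑) := by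
  refine Pool.Agent.H13.BD.col hC (ι := Finset 𝓑) (fun i => P0 T (cl i)) (maiR T) ?_ ?_ (BQ T 𝓑)
    (maiPhi T) ?_ (fun i => N0 T (cl i)) ?_ ?_ ?_ ?_ (fun i => apx hC hE hB hm (cl i) (mai_fib hB i))
  · intro i h x
    apply Subtype.ext
    rw [maiR_val]
    exact mai_rf_id _ (fun _ => rfl) _
  · intro i j k hij hjk hik x
    apply Subtype.ext
    rw [maiR_val, maiR_val, maiR_val]
    exact mai_rf_comp (rs hij) (rs hjk) (rs hik) (fun _ => rfl) x.1
  · intro i j h x
    apply Subtype.ext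
    rw [maiPhi_val, maiPhi_val, maiR_val]
    exact Ph_rs T 𝓑 h x.1
  · intro i x hx
    apply Subtype.ext
    exact mai_Ph1 (cl i) x.1 ((mai_mem (cl i) x).1 hx)
  · intro i j h x hx
    have h1 := (mai_mem (cl i) x).1 hx
    refine (mai_mem (cl j) _).2 ?_
    rw [maiR_val]
    exact mlp (rs h) (ysys T (cl i)) (ysys T (cl j)) (fun v w hvw => hvw) x.1 h1
  · rintro ⟨q, hq, i, p, hp⟩
    refine ⟨i, ⟨p, ?_⟩, Subtype.ext hp⟩
    have h1 : (ysys T (cl i)).Ph p ∈ Pool.Agent.H13.BD.FH (X × FreeGroup I) := by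
      rw [hp]
      exact hq
    exact h1
  · intro i x hx
    have hp : (ysys T (cl i)).Ph x.1 = 1 := congrArg Subtype.val hx
    obtain ⟨j, h, h1⟩ := mai_die hB i x.1 hp
    refine ⟨j, h, (mai_mem (cl j) _).2 ?_⟩
    rw [maiR_val]
    exact h1

/-- a group which acts faithfully by local permutations of the slots is in the class -/
theorem loc_mem {C : (G : Type) → [Group G] → Prop} (hC : Inherits C) (hE : Extension C)
    {I X : Type} [Finite I] {T : I → Equiv.Perm X} {𝓑 : Set (Set X)} (hB : IsAlg T 𝓑)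
    (hm : HasMass T 𝓑) {G : Type} [Group G] (ρ : G →* Equiv.Perm ((X × FreeGroup I) × ℕ))
    (hρ : Function.Injective ρ) (hl : ∀ g, IsLoc T 𝓑 (ρ g)) : C G := by
  let j : G →* BQ T 𝓑 := ρ.codRestrict (BQ T 𝓑) (fun g => gen hB (ρ g) (hl g))
  refine hC.of_injective j ?_ (bq_mem hC hE hB hm)
  intro g h hgh
  exact hρ (congrArg Subtype.val hgh)

end Pool.Agent.H37.FG
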