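import Pool.Agent.H37.FG.IntSol
import Pool.Agent.H37.FG.FinSys

/-!
# The finite system given by the measures [H37 FG Mass]

Proof. `E := (ysys T c).Edge`: `E v w ↔ ∃ x, c x = v ∧ ∀ i, c (T i x) = w i` (second coordinate arbitrary). `Θ := {u // E u.1 u.2}` is
finite. For `θ : Θ` let `X θ := {x | c x = θ.1.1 ∧ ∀ i, c (T i x) = θ.1.2 i}`, a nonempty member of `𝓑` (finite intersection of
`c ⁻¹' {v}` and `T i ⁻¹' (c ⁻¹' {w i})`). The sets `X θ` are a partition of `X`. Let `m θ` be the measure of `HasMass` for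
`X θ`, and `x θ := ∑ θ', m θ' (X θ)`, which is positive (`m θ (X θ) > 0`, the others are `≥ 0`). For each `m` as in `HasMass`:
`m ∅ = 0` (additivity for `∅`, `∅`), so finite additivity for finite disjoint families of members of `𝓑`; hence for `i`, `d`
`∑ θ, (if θ.1.2 i = d then m (X θ) else 0) = m (T i ⁻¹' (c ⁻¹' {d})) = m (c ⁻¹' {d}) = ∑ θ, (if θ.1.1 = d then m (X θ) else 0)`.
So `x` is a positive solution of the system with the rows `r = (i, d)` and the coefficients
`A (i, d) θ := (if θ.1.2 i = d then 1 else 0) - (if θ.1.1 = d then 1 else 0)`; `int_sol`, `fin_sys`.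
-/

set_option autoImplicit false

open Classical

namespace Pool.Agent.H37.FG

theorem mass_sys {I X V : Type} [Finite I] [Finite V] {T : I → Equiv.Perm X} {𝓑 : Set (Set X)}
    (hB : IsAlg T 𝓑) (hm : HasMass T 𝓑) (c : X → V) (hc : ∀ v, c ⁻¹' {v} ∈ 𝓑) :
    ∃ R : Sys I V, Finite R.Z ∧ ∀ v w, R.Edge v w ↔ (ysys T c).Edge v w := by
  sorry

end Pool.Agent.H37.FG
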