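import Pool.Agent.H37.FG.Vf

/-!
# Invariant probability measures [H37 FG MassMeas]
-/

set_option autoImplicit false

open Classical Topology MeasureTheory

namespace Pool.Agent.H37.FG

/-- clopen sets: `IsClopen.compl`, `IsClopen.inter`, `IsClopen.preimage` (continuity of `x ↦ γ • x`) -/
theorem alg_clopen (Γ X : Type) [Group Γ] [TopologicalSpace X] [MulAction Γ X]
    [ContinuousConstSMul Γ X] : IsAlg (pm Γ X) {A : Set X | IsClopen A} := by
  refine ⟨isClopen_univ, fun A hA => IsClopen.compl hA, fun A hA B hB => IsClopen.inter hA hB,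
    fun γ A hA => ?_, fun γ A hA => ?_⟩
  · exact IsClopen.preimage hA (continuous_const_smul γ)
  · have h : IsClopen ((fun x : X => γ⁻¹ • x) ⁻¹' A) :=
      IsClopen.preimage hA (continuous_const_smul γ⁻¹)
    exact h

/-- `m B := (μ B).toReal` (`μ.real B`); clopen sets are measurable (`IsClopen.measurableSet`), `measureReal_union`,
`measure_preimage_smul`. -/
theorem mass_measure {Γ X : Type} [Group Γ] [TopologicalSpace X] [MeasurableSpace X] [BorelSpace X]
    [MulAction Γ X] [ContinuousConstSMul Γ X]
    (hμ : ∀ U : Set X, IsOpen U → U.Nonempty → ∃ μ : Measure X, IsProbabilityMeasure μ ∧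
      SMulInvariantMeasure Γ X μ ∧ 0 < μ U) : HasMass (pm Γ X) {A : Set X | IsClopen A} := by
  intro A hA hne
  obtain ⟨μ, hprob, hinv, hpos⟩ := hμ A (IsClopen.isOpen hA) hne
  refine ⟨fun B => μ.real B, fun B _ => measureReal_nonneg, fun B _ B' hB' hd => ?_,
    fun γ B hB => ?_, ?_⟩
  · exact measureReal_union hd (IsClopen.isOpen hB').measurableSet
  · have h : μ ((fun x : X => γ • x) ⁻¹' B) = μ B :=
      SMulInvariantMeasure.measure_preimage_smul γ (IsClopen.isOpen hB).measurableSet
    have h2 : μ.real ((fun x : X => γ • x) ⁻¹' B) = μ.real B := by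
      rw [measureReal_def, measureReal_def, h]
    exact h2
  · exact ENNReal.toReal_pos hpos.ne' (measure_ne_top μ A)

end Pool.Agent.H37.FG
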