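import Pool.Agent.H37.FG.RR

/-!
# Moves along elements of the free group [H37 FG Mv]
-/

set_option autoImplicit false

open Classical

namespace Pool.Agent.H37.FG

open Pool.Agent.H13.BD (up up_zero up_succ bp bp_apply ii ii_pos ii_neg tau tau_apply tau_inv_apply Fin1 FH)

/-- First move over `S'`, then over `S`. Proof: `Equiv.ext`, a slot `(y, n)`, `tau_apply`; cases `S (S' y) ∈ B`, `S y ∈ B`, `y ∈ B`,
`n = 0`, `n = k + 1`; after the first step the slot is `(S' y, 0)` if `S (S' y) ∈ B` and `n = 0`, otherwise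
`(y, n - ii (S (S' y) ∈ B) + ii (S y ∈ B))`. -/
theorem tau_mul {Y : Type} (S S' : Equiv.Perm Y) (B : Set Y) :
    tau (S * S') B = tau S B * tau S' (S ⁻¹' B) := by
  refine Equiv.ext fun t => ?_
  obtain ⟨y, n⟩ := t
  rw [Equiv.Perm.mul_apply, tau_apply, tau_apply S' (S ⁻¹' B)]
  rw [Equiv.Perm.mul_apply]
  by_cases h : S (S' y) ∈ B ∧ n = 0
  · rw [if_pos h, if_pos (show S' y ∈ S ⁻¹' B ∧ n = 0 from h), tau_apply, if_pos ⟨h.1, rfl⟩]
  · rw [if_neg h, if_neg (show ¬ (S' y ∈ S ⁻¹' B ∧ n = 0) from h), tau_apply]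
    have e1 : ii (S' y ∈ S ⁻¹' B) = ii (S (S' y) ∈ B) := rfl
    have e2 : ii (y ∈ S ⁻¹' B) = ii (S y ∈ B) := rfl
    rw [e1, e2]
    by_cases h2 : S y ∈ B
    · rw [ii_pos h2, if_neg (by omega), Nat.add_sub_cancel]
    · rw [ii_neg h2, if_neg (fun h3 => h2 h3.1), Nat.add_zero, Nat.sub_zero]

/-- Proof: `tau_inv_apply` and `tau_apply`. -/
theorem tau_symm {Y : Type} (S : Equiv.Perm Y) (B : Set Y) :
    tau S⁻¹ B = (tau S (S.symm ⁻¹' B))⁻¹ := by
  refine Equiv.ext fun t => ?_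
  obtain ⟨y, n⟩ := t
  rw [tau_apply, tau_inv_apply]
  have e1 : (S⁻¹ y ∈ B) = (y ∈ S.symm ⁻¹' B) := rfl
  have e2 : (y ∈ B) = (S y ∈ S.symm ⁻¹' B) := by
    rw [Set.mem_preimage, Equiv.symm_apply_apply]
  rw [e1, e2]
  rfl

theorem tau_one {Y : Type} (B : Set Y) : tau (1 : Equiv.Perm Y) B = 1 := by
  refine Equiv.ext fun t => ?_
  obtain ⟨y, n⟩ := t
  rw [tau_apply, Equiv.Perm.one_apply, Equiv.Perm.one_apply]
  by_cases h : y ∈ B
  · by_cases hn : n = 0
    · rw [if_pos ⟨h, hn⟩, hn]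
    · rw [if_neg (fun h3 => hn h3.2), ii_pos h]
      rw [Nat.sub_add_cancel (Nat.pos_of_ne_zero hn)]
  · rw [if_neg (fun h3 => h h3.1), ii_neg h, Nat.sub_zero, Nat.add_zero]

variable {I X : Type} {T : I → Equiv.Perm X} {𝓑 : Set (Set X)}

private theorem mv_act (g : FreeGroup I) (y : X × FreeGroup I) :
    act T g y = (FreeGroup.lift T g y.1, g * y.2) := by
  unfold act
  induction g using FreeGroup.induction_on generalizing y with
  | C1 => rw [map_one, map_one, one_mul]; rfl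
  | of i => rw [FreeGroup.lift_apply_of, FreeGroup.lift_apply_of]; rfl
  | inv_of i _ =>
    rw [map_inv, map_inv, FreeGroup.lift_apply_of, FreeGroup.lift_apply_of]
    rfl
  | mul g h hg hh =>
    rw [map_mul, map_mul, Equiv.Perm.mul_apply, Equiv.Perm.mul_apply, hh, hg, mul_assoc]

private theorem mv_pre (hB : IsAlg T 𝓑) (g : FreeGroup I) :
    ∀ A ∈ 𝓑, FreeGroup.lift T g ⁻¹' A ∈ 𝓑 := by
  induction g using FreeGroup.induction_on with
  | C1 =>
    intro A hA
    rw [map_one]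
    exact hA
  | of i =>
    intro A hA
    rw [FreeGroup.lift_apply_of]
    exact hB.pre i A hA
  | inv_of i _ =>
    intro A hA
    rw [map_inv, FreeGroup.lift_apply_of]
    exact hB.pre' i A hA
  | mul g h hg hh =>
    intro A hA
    rw [map_mul]
    exact hh _ (hg A hA)

private theorem mv_pre_act (g : FreeGroup I) (A : Set X) :
    (act T g) ⁻¹' {y : X × FreeGroup I | y.1 ∈ A} =
      {y : X × FreeGroup I | y.1 ∈ FreeGroup.lift T g ⁻¹' A} := by
  ext y
  rw [Set.mem_preimage, mv_act]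
  rfl

/-- The move of the first tokens along an element `g` of the free group, over the blocks with `y.1 ∈ A` as targets.
Proof: `FreeGroup.induction_on` for `g`, for all `A ∈ 𝓑`: `tau_one`; `rr_tau` (`act T (of i) = shf T i`); `tau_symm` and
`rr_tau` for the set `(T i).symm ⁻¹' A` (the set `(shf T i).symm ⁻¹' {y | y.1 ∈ A}` is `{y | y.1 ∈ (T i).symm ⁻¹' A}`);
`tau_mul` (`act T g ⁻¹' {y | y.1 ∈ A} = {y | y.1 ∈ FreeGroup.lift T g ⁻¹' A}`, which needs that `𝓑` is closed under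
preimages under `FreeGroup.lift T g`: prove this first, by induction). -/
theorem rr_mv (hB : IsAlg T 𝓑) (g : FreeGroup I) (A : Set X) (hA : A ∈ 𝓑) :
    tau (act T g) {y : X × FreeGroup I | y.1 ∈ A} ∈ RR T 𝓑 := by
  revert A
  induction g using FreeGroup.induction_on with
  | C1 =>
    intro A hA
    rw [map_one, tau_one]
    exact Subgroup.one_mem _
  | of i =>
    intro A hA
    have h : act T (FreeGroup.of i) = shf T i := by
      unfold act
      rw [FreeGroup.lift_apply_of]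
    rw [h]
    exact rr_tau i A hA
  | inv_of i _ =>
    intro A hA
    have h : act T (FreeGroup.of i)⁻¹ = (shf T i)⁻¹ := by
      unfold act
      rw [map_inv, FreeGroup.lift_apply_of]
    rw [h, tau_symm]
    refine Subgroup.inv_mem _ ?_
    exact rr_tau i ((T i).symm ⁻¹' A) (hB.pre' i A hA)
  | mul g h hg hh =>
    intro A hA
    rw [map_mul, tau_mul, mv_pre_act]
    exact Subgroup.mul_mem _ (hg A hA) (hh _ (mv_pre hB g A hA))

end Pool.Agent.H37.FG
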