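import Pool.Agent.H37.FG.Loc

/-!
# The permutations given by the free groups [H37 FG RR]

`RR T 𝓑` is the group of all permutations of the slots of `X × FreeGroup I` given by words, for the colourings by the
members of a finite subset of `𝓑`; `BQ T 𝓑` is the subgroup of those which fix the high slots.

MODULE: the five lemmas at the end.
-/

set_option autoImplicit false

open Classical

namespace Pool.Agent.H37.FG

open Pool.Agent.H13.BD (up up_zero up_succ bp bp_apply ii ii_pos ii_neg tau tau_apply tau_inv_apply Fin1 FH)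

variable {I X : Type} (T : I → Equiv.Perm X) (𝓑 : Set (Set X))

theorem Ph_rs {i j : Finset 𝓑} (h : i ≤ j) (p : PP I (i → Prop)) :
    (ysys T (cl j)).Ph (rf (rs h) p) = (ysys T (cl i)).Ph p := Ph_rf (rs h) (ysys T (cl j)) p

/-- the permutations of the slots given by words -/
def RR : Subgroup (Equiv.Perm ((X × FreeGroup I) × ℕ)) where
  carrier := {g | ∃ (i : Finset 𝓑) (p : PP I (i → Prop)), (ysys T (cl i)).Ph p = g}
  one_mem' := ⟨∅, 1, map_one _⟩
  mul_mem' := by
    rintro _ _ ⟨i, p, rfl⟩ ⟨j, q, rfl⟩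
    refine ⟨i ∪ j, rf (rs Finset.subset_union_left) p * rf (rs Finset.subset_union_right) q, ?_⟩
    rw [map_mul, Ph_rs, Ph_rs]
    rfl
  inv_mem' := by
    rintro _ ⟨i, p, rfl⟩
    exact ⟨i, p⁻¹, map_inv _ _⟩

/-- those which fix the high slots -/
def BQ : Subgroup (Equiv.Perm ((X × FreeGroup I) × ℕ)) := FH (X × FreeGroup I) ⊓ RR T 𝓑

variable {T 𝓑}

private theorem rr_lift_mul {Z : Type} (T : I → Equiv.Perm Z) (p q : FreeGroup I) (z : Z) :
    FreeGroup.lift T (p * q) z = FreeGroup.lift T p (FreeGroup.lift T q z) := by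
  rw [map_mul, Equiv.Perm.mul_apply]

private theorem rr_pre (hB : IsAlg T 𝓑) (k : FreeGroup I) :
    ∀ A ∈ 𝓑, (FreeGroup.lift T k) ⁻¹' A ∈ 𝓑 := by
  induction k using FreeGroup.induction_on with
  | C1 =>
    intro A hA
    have h : (FreeGroup.lift T (1 : FreeGroup I)) ⁻¹' A = A := by
      rw [map_one]
      rfl
    rw [h]
    exact hA
  | of x =>
    intro A hA
    rw [FreeGroup.lift_apply_of]
    exact hB.pre x A hA
  | inv_of x _ =>
    intro A hA
    rw [map_inv, FreeGroup.lift_apply_of]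
    exact hB.pre' x A hA
  | mul p q hp hq =>
    intro A hA
    have h : (FreeGroup.lift T (p * q)) ⁻¹' A =
        (FreeGroup.lift T q) ⁻¹' ((FreeGroup.lift T p) ⁻¹' A) := by
      ext z
      rw [Set.mem_preimage, rr_lift_mul]
      rfl
    rw [h]
    exact hq _ (hp _ hA)

private theorem rr_act (k : FreeGroup I) (y : X × FreeGroup I) :
    (act T k y).1 = FreeGroup.lift T k y.1 := by
  induction k using FreeGroup.induction_on generalizing y with
  | C1 =>
    rw [map_one, map_one]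
    rfl
  | of x =>
    unfold act
    rw [FreeGroup.lift_apply_of, FreeGroup.lift_apply_of]
    rfl
  | inv_of x _ =>
    unfold act
    rw [map_inv, map_inv, FreeGroup.lift_apply_of, FreeGroup.lift_apply_of]
    rfl
  | mul p q hp hq =>
    rw [map_mul, Equiv.Perm.mul_apply, hp, hq, rr_lift_mul]

/-- The fibres of the colours of translates are determined by a finite subset of `𝓑`: for a finite set `K` and `i` there is
`j` such that the colour `cl j x` determines the colours `cl i (k x)`, `k ∈ K`, and also `cl i x`. Proof: `j` is the union of `i`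
and the preimages of the members of `i` under `FreeGroup.lift T k`, `k ∈ K` (they are in `𝓑` by induction on `k`,
`IsAlg.pre`, `IsAlg.pre'`). -/
theorem win_cl (hB : IsAlg T 𝓑) (i : Finset 𝓑) (K : Finset (FreeGroup I)) :
    ∃ j : Finset 𝓑, i ≤ j ∧ ∀ x x' : X, cl j x = cl j x' →
      ∀ k ∈ K, cl i (FreeGroup.lift T k x) = cl i (FreeGroup.lift T k x') := by
  refine ⟨i ∪ (K ×ˢ i).image (fun d => (⟨(FreeGroup.lift T d.1) ⁻¹' d.2.1,
    rr_pre hB d.1 d.2.1 d.2.2⟩ : 𝓑)), Finset.subset_union_left, ?_⟩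
  intro x x' h k hk
  funext D
  have hD : (⟨(FreeGroup.lift T k) ⁻¹' D.1.1, rr_pre hB k D.1.1 D.1.2⟩ : 𝓑) ∈
      i ∪ (K ×ˢ i).image (fun d => (⟨(FreeGroup.lift T d.1) ⁻¹' d.2.1,
        rr_pre hB d.1 d.2.1 d.2.2⟩ : 𝓑)) :=
    Finset.mem_union_right _ (Finset.mem_image.2 ⟨(k, D.1), Finset.mem_product.2 ⟨hk, D.2⟩, rfl⟩)
  exact congrFun h ⟨_, hD⟩

/-- The elements of `RR` are local. Proof: `loc` for `S = S' = ysys T (cl i)` and `win_cl`; note
`FreeGroup.lift (shf T) k = act T k` (by `rfl`), `(act T k y).1 = FreeGroup.lift T k y.1` (induction; `act_apply` in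
`Dye1.lean`). The set `K` does not depend on `x`, `x'`, `n`. -/
theorem rr_loc [Finite I] (hB : IsAlg T 𝓑) (g : Equiv.Perm ((X × FreeGroup I) × ℕ))
    (hg : g ∈ RR T 𝓑) : ∃ (j : Finset 𝓑) (K : Finset (FreeGroup I)), ∀ x x' : X, cl j x = cl j x' →
      ∀ (a a' : FreeGroup I) (n : ℕ), ∃ k ∈ K, ∃ n' : ℕ,
        g ((x, a), n) = (act T k (x, a), n') ∧ g ((x', a'), n) = (act T k (x', a'), n') := by
  obtain ⟨i, p, rfl⟩ := hg
  obtain ⟨K, -, hK⟩ := loc p
  obtain ⟨j, -, hj⟩ := win_cl hB i K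
  refine ⟨j, K, fun x x' h a a' n => ?_⟩
  refine hK (ysys T (cl i)) (ysys T (cl i)) (x, a) (x', a') ?_ n
  intro k hk
  have h1 := hj x x' h k hk
  have h2 := rr_act (T := T) k (x, a)
  have h3 := rr_act (T := T) k (x', a')
  change cl i (act T k (x, a)).1 = cl i (act T k (x', a')).1
  rw [h2, h3]
  exact h1

/-- High slots are shifted by a constant. Proof: `flx` and `win_cl` (the type of a block `y` of `ysys T (cl i)` is determined
by `cl i y.1` and the `cl i (T i y.1)`). -/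
theorem rr_high [Finite I] (hB : IsAlg T 𝓑) (g : Equiv.Perm ((X × FreeGroup I) × ℕ))
    (hg : g ∈ RR T 𝓑) : ∃ (j : Finset 𝓑) (κ : (j → Prop) → ℤ) (M : ℕ),
      ∀ (y : X × FreeGroup I) (n : ℕ), M ≤ n →
        ∃ n' : ℕ, (n' : ℤ) = n + κ (cl j y.1) ∧ g (y, n) = (y, n') := by
  have : Fintype I := Fintype.ofFinite I
  obtain ⟨i, p, rfl⟩ := hg
  obtain ⟨M, k, hM⟩ := flx p
  obtain ⟨j, -, hj⟩ := win_cl hB i (insert 1 (Finset.univ.image FreeGroup.of))
  have h1 : ∀ x x' : X, cl j x = cl j x' → cl i x = cl i x' := by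
    intro x x' h
    have h2 := hj x x' h 1 (Finset.mem_insert_self _ _)
    rw [map_one] at h2
    exact h2
  have h2 : ∀ x x' : X, cl j x = cl j x' → ∀ a : I, cl i (T a x) = cl i (T a x') := by
    intro x x' h a
    have h3 := hj x x' h (FreeGroup.of a) (Finset.mem_insert_of_mem
      (Finset.mem_image.2 ⟨a, Finset.mem_univ _, rfl⟩))
    rw [FreeGroup.lift_apply_of] at h3
    exact h3
  refine ⟨j, fun v => if h : ∃ x, cl j x = v then
    k (cl i h.choose) (fun a => cl i (T a h.choose)) else 0, M, fun y n hn => ?_⟩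
  obtain ⟨n', h3, h4⟩ := hM (ysys T (cl i)) y n hn
  refine ⟨n', ?_, h4⟩
  have h5 : ∃ x, cl j x = cl j y.1 := ⟨y.1, rfl⟩
  beta_reduce
  rw [dif_pos h5]
  have h6 := h5.choose_spec
  have h7 := h1 _ _ h6
  have h8 : (fun a => cl i (T a h5.choose)) = fun a => cl i (T a y.1) :=
    funext fun a => h2 _ _ h6 a
  rw [h7, h8]
  exact h3

/-- Local block permutations are in `RR`: the generator `inl (fun v _ => ε v)`. -/
theorem rr_bp (i : Finset 𝓑) (ε : (i → Prop) → Fin1) :
    bp (fun y : X × FreeGroup I => (ε (cl i y.1) : Equiv.Perm ℕ)) ∈ RR T 𝓑 := by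
  refine ⟨i, FreeGroup.of (Sum.inl (fun v _ => ε v)), ?_⟩
  unfold Sys.Ph
  rw [FreeGroup.lift_apply_of]
  rfl

/-- Token moves over the boundaries `(i, b)`, `b.1 ∈ A`: the generator `inr (i, {v | v ⟨A, _⟩})` for the family `{A}`. -/
theorem rr_tau (i : I) (A : Set X) (hA : A ∈ 𝓑) :
    tau (shf T i) {y : X × FreeGroup I | y.1 ∈ A} ∈ RR T 𝓑 := by
  refine ⟨{⟨A, hA⟩}, FreeGroup.of (Sum.inr (i, {v | v ⟨⟨A, hA⟩, Finset.mem_singleton_self _⟩})), ?_⟩
  unfold Sys.Ph
  rw [FreeGroup.lift_apply_of]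
  rfl

end Pool.Agent.H37.FG
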