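import Pool.Agent.H37.FG.Tau2
import Pool.Agent.H37.FG.LAx

/-!
# The relations in `GG I S.Z`

Adaptation of `Pool/Agent/H13/BD/Rel.lean` from one permutation to a family.
-/

set_option autoImplicit false

open Classical

namespace Pool.Agent.H37.FG

open Pool.Agent.H13.TFG
open Pool.Agent.H13.BD (up up_zero up_succ bp bp_apply ii ii_pos ii_neg tau tau_apply tau_inv_apply swp swp_pos
  swp_neg sw2 tau_empty tau_bp tau_union slot_union Fin1 FH)

namespace Sys

variable {I V V' : Type} [Finite V] (S : Sys I V)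

/-- left part of a product -/
private theorem Rel_t_mul_F (i : I) (A : Set V) (e : Bl I V) :
    S.t i A * S.F e = ⟨LA S.c (S.st 1) i A, S.bT i A * S.bF e⟩ := by
  refine SemidirectProduct.ext ?_ rfl
  change LA S.c (S.st 1) i A *
    (raagAct (tg I S.Z) (Equiv.Perm (S.Z × ℕ)) (tg_smul I S.Z) (S.bT i A)) 1 = _
  rw [map_one, mul_one]

private theorem Rel_F_mul (e : Bl I V) (φ : S.Z ↪ S.Z × ℕ) (i : I) (A : Set V)
    (g : Equiv.Perm (S.Z × ℕ)) :
    S.F e * (⟨LA S.c φ i A, g⟩ : GG I S.Z) =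
      ⟨LA S.c (φ.trans (S.bF e).toEmbedding) i A, S.bF e * g⟩ := by
  refine SemidirectProduct.ext ?_ rfl
  change 1 * (raagAct (tg I S.Z) (Equiv.Perm (S.Z × ℕ)) (tg_smul I S.Z) (S.bF e)) (LA S.c φ i A) = _
  rw [one_mul, LA_act]

private theorem Rel_mul (φ ψ : S.Z ↪ S.Z × ℕ) (i j : I) (A B : Set V)
    (g h : Equiv.Perm (S.Z × ℕ)) :
    (⟨LA S.c φ i A, g⟩ : GG I S.Z) * ⟨LA S.c ψ j B, h⟩ =
      ⟨LA S.c φ i A * LA S.c (ψ.trans g.toEmbedding) j B, g * h⟩ := by
  refine SemidirectProduct.ext ?_ rfl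
  change LA S.c φ i A *
    (raagAct (tg I S.Z) (Equiv.Perm (S.Z × ℕ)) (tg_smul I S.Z) g) (LA S.c ψ j B) = _
  rw [LA_act]

private theorem Rel_tw (r : V → (I → V) → Prop) (j : I) (B : Set V) :
    tw S.F r j B (S.t j B) =
      ⟨LA S.c ((S.st 1).trans (S.bF (sw fun v w => v ∈ B ∧ r v w)).toEmbedding) j B,
        S.bF (sw fun v w => v ∈ B ∧ r v w) * S.bT j B *
          S.bF (sw fun v w => w j ∈ B ∧ r v w)⟩ := by
  unfold tw
  rw [mul_assoc, Rel_t_mul_F, Rel_F_mul, mul_assoc]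

/-- `SemidirectProduct.ext`: the left parts are `1`, the right parts are block permutations -/
theorem rel_a (e : Bl I V) (h : ∀ v w, S.Edge v w → e v w = 1) : S.F e = 1 := by
  have h1 : S.bF e = 1 := by
    refine Equiv.ext fun t => ?_
    rw [bF_apply, h _ _ ⟨t.1, rfl, rfl⟩]
    rfl
  unfold F
  rw [MonoidHom.comp_apply, h1, map_one]

/-- `SemidirectProduct.ext`. Right parts: `tau_bp` for `B := S.c ⁻¹' A` and the function `y ↦ e (S.c y) (S.nb y)`. Left
parts: `LA_act` and `LA_congr`, as `S.bF (sh (out A) e)` fixes `(b, 0)` if `S.c b ∈ A`. -/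
theorem rel_b (i : I) (A : Set V) (e : Bl I V) :
    S.t i A * S.F (sh (inn i A) e) = S.F (sh (out A) e) * S.t i A := by
  rw [Rel_t_mul_F]
  have h1 := S.Rel_F_mul (sh (out A) e) (S.st 1) i A (S.bT i A)
  change _ = S.F (sh (out A) e) * (⟨LA S.c (S.st 1) i A, S.bT i A⟩ : GG I S.Z)
  rw [h1]
  refine SemidirectProduct.ext ?_ ?_
  · refine LA_congr S.c _ _ i A fun b hb => ?_
    change ((1 : Equiv.Perm (S.Z × ℕ)) (b, 0)) =
      S.bF (sh (out A) e) ((1 : Equiv.Perm (S.Z × ℕ)) (b, 0))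
    rw [Equiv.Perm.one_apply, bF_apply]
    have h2 : sh (out A) e (S.c b) (S.nb b) = up (e (S.c b) (S.nb b)) :=
      sh_pos (r := out A) hb e
    rw [h2, up_zero]
  · exact tau_bp (S.T i) (S.c ⁻¹' A) (fun y => e (S.c y) (S.nb y))

/-- `SemidirectProduct.ext`. Right parts: `tau_tau2` for `S.T i`, `S.T j` and the preimages of `A` and `B`. Left parts: as in
the old file, `LA_act`, `LA_congr`, `slot_tau1`, `slot_tau2`, `LA_comm`. -/
theorem rel_c (i : I) (A : Set V) (j : I) (B : Set V) :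
    S.t i A * tw S.F (inn i A) j B (S.t j B) = tw S.F (out A) j B (S.t j B) * S.t i A := by
  rw [Rel_tw, Rel_tw]
  change (⟨LA S.c (S.st 1) i A, S.bT i A⟩ : GG I S.Z) * _ =
    _ * (⟨LA S.c (S.st 1) i A, S.bT i A⟩ : GG I S.Z)
  rw [Rel_mul, Rel_mul]
  -- the permutation `P'` of the right side
  have hP : ∀ b, S.c b ∈ B →
      S.bF (sw fun v w => v ∈ B ∧ out A v w) (b, 0) = (b, ii (S.c b ∈ A)) := by
    intro b hb
    rw [bF_apply]
    by_cases hA : S.c b ∈ A
    · have h1 : sw (fun v w => v ∈ B ∧ out A v w) (S.c b) (S.nb b) = Equiv.swap 0 1 :=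
        sw_pos (r := fun v w => v ∈ B ∧ out A v w) ⟨hb, hA⟩
      rw [h1, ii_pos hA, Equiv.swap_apply_left]
    · have h1 : sw (fun v w => v ∈ B ∧ out A v w) (S.c b) (S.nb b) = 1 :=
        sw_neg (r := fun v w => v ∈ B ∧ out A v w) (fun h2 => hA h2.2)
      rw [h1, ii_neg hA, Equiv.Perm.one_apply]
  have h1 : LA S.c (((S.st 1).trans (S.bF (sw fun v w => v ∈ B ∧ inn i A v w)).toEmbedding).trans
      (S.bT i A).toEmbedding) j B =
      LA S.c ((S.st 1).trans (S.bF (sw fun v w => v ∈ B ∧ out A v w)).toEmbedding) j B := by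
    refine LA_congr S.c _ _ j B fun b hb => ?_
    change (S.bT i A) (S.bF (sw fun v w => v ∈ B ∧ inn i A v w) (b, 0)) =
      S.bF (sw fun v w => v ∈ B ∧ out A v w) (b, 0)
    rw [hP b hb]
    exact slot_tau2 (S.T i) (S.c ⁻¹' A) (S.c ⁻¹' B) b hb
  have h2 : LA S.c ((S.st 1).trans (S.bF (sw fun v w => v ∈ B ∧ out A v w) * S.bT j B *
      S.bF (sw fun v w => w j ∈ B ∧ out A v w)).toEmbedding) i A = LA S.c (S.st 1) i A := by
    refine LA_congr S.c _ _ i A fun b hb => ?_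
    exact slot_tau1 (S.T j) (S.c ⁻¹' A) (S.c ⁻¹' B) b hb
  refine SemidirectProduct.ext ?_ ?_
  · change LA S.c (S.st 1) i A * LA S.c (((S.st 1).trans
      (S.bF (sw fun v w => v ∈ B ∧ inn i A v w)).toEmbedding).trans (S.bT i A).toEmbedding) j B =
      LA S.c ((S.st 1).trans (S.bF (sw fun v w => v ∈ B ∧ out A v w)).toEmbedding) j B *
      LA S.c ((S.st 1).trans (S.bF (sw fun v w => v ∈ B ∧ out A v w) * S.bT j B *
      S.bF (sw fun v w => w j ∈ B ∧ out A v w)).toEmbedding) i A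
    rw [h1, h2]
    refine LA_comm S.c _ _ i j A B fun b b' hb hb' h3 => ?_
    change ((b, 0) : S.Z × ℕ) = S.bF (sw fun v w => v ∈ B ∧ out A v w) (b', 0) at h3
    rw [hP b' hb', Prod.mk.injEq] at h3
    obtain ⟨h4, h5⟩ := h3
    subst h4
    rw [ii_pos hb] at h5
    exact absurd h5 (by norm_num)
  · exact tau_tau2 (S.T i) (S.T j) (S.c ⁻¹' A) (S.c ⁻¹' B)

/-- `LA_eq_one`, `tau_empty` (the preimage of `A` is empty) -/
theorem rel_d (i : I) (A : Set V) (h : ∀ b, S.c b ∉ A) : S.t i A = 1 := by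
  refine SemidirectProduct.ext ?_ ?_
  · exact LA_eq_one S.c _ i A h
  · change tau (S.T i) (S.c ⁻¹' A) = 1
    have h1 : S.c ⁻¹' A = ∅ := by
      ext b
      simp only [Set.mem_preimage, Set.mem_empty_iff_false, iff_false]
      exact h b
    rw [h1, tau_empty]

/-- `SemidirectProduct.ext`. Right parts: `tau_union` for the preimages. Left parts: `LA_union`, `LA_act`, `LA_congr`,
`slot_union`, `LA_comm`. -/
theorem rel_u (i : I) (A B : Set V) (h : Disjoint A B) :
    S.t i (A ∪ B) = S.t i B * S.F (sw fun v w => v ∈ A ∧ w i ∈ B) * S.t i A := by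
  have hd : Disjoint (S.c ⁻¹' A) (S.c ⁻¹' B) := Disjoint.preimage S.c h
  rw [Rel_t_mul_F]
  change (⟨LA S.c (S.st 1) i (A ∪ B), S.bT i (A ∪ B)⟩ : GG I S.Z) =
    _ * (⟨LA S.c (S.st 1) i A, S.bT i A⟩ : GG I S.Z)
  rw [Rel_mul]
  have h1 : LA S.c ((S.st 1).trans
      (S.bT i B * S.bF (sw fun v w => v ∈ A ∧ w i ∈ B)).toEmbedding) i A =
      LA S.c (S.st 1) i A := by
    refine LA_congr S.c _ _ i A fun b hb => ?_
    exact slot_union (S.T i) (S.c ⁻¹' A) (S.c ⁻¹' B) hd b hb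
  refine SemidirectProduct.ext ?_ ?_
  · change LA S.c (S.st 1) i (A ∪ B) = LA S.c (S.st 1) i B * LA S.c ((S.st 1).trans
      (S.bT i B * S.bF (sw fun v w => v ∈ A ∧ w i ∈ B)).toEmbedding) i A
    rw [h1, LA_union S.c _ i A B h]
    refine LA_comm S.c _ _ i i A B fun b b' hb hb' h3 => ?_
    change ((b, 0) : S.Z × ℕ) = (b', 0) at h3
    rw [Prod.mk.injEq] at h3
    obtain ⟨h4, _⟩ := h3
    subst h4
    exact Set.disjoint_left.1 h hb hb'
  · exact tau_union (S.T i) (S.c ⁻¹' A) (S.c ⁻¹' B) hd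

theorem t_empty (i : I) : S.t i ∅ = 1 := S.rel_d i ∅ (fun _ h => h)

/-- block permutations for coarser colours -/
def blc (π : V' → V) : Bl I V →* Bl I V' where
  toFun e := fun v w => e (π v) (fun i => π (w i))
  map_one' := rfl
  map_mul' _ _ := rfl

/-- The relations hold for coarser colours: `IsModel` for the types of `S.push π`. From `rel_a`, …, `rel_d` for the sets
`π ⁻¹' {c}`; `blc π (sh (inn i {c}) e) = sh (inn i (π ⁻¹' {c})) (blc π e)` by `rfl`. For `reld`: a block `b` with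
`π (S.c b) = c` has a type `(c, _)`. -/
theorem model_push {I V W : Type} [Finite W] (S : Sys I W) (π : W → V) :
    IsModel (S.push π).Edge (S.F.comp (blc π)) (fun i c => S.t i (π ⁻¹' {c})) := by
  constructor
  · intro e he
    refine S.rel_a (blc π e) fun v w hvw => ?_
    obtain ⟨z, h1, h2⟩ := hvw
    refine he (π v) (fun i => π (w i)) ⟨z, ?_, ?_⟩
    · change π (S.c z) = π v
      rw [h1]
    · change (fun i => π (S.nb z i)) = fun i => π (w i)
      rw [h2]
  · intro i c e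
    exact S.rel_b i (π ⁻¹' {c}) (blc π e)
  · intro i c j d
    exact S.rel_c i (π ⁻¹' {c}) j (π ⁻¹' {d})
  · intro i c hc
    refine S.rel_d i _ fun b hb => ?_
    exact hc ((S.push π).nb b) ⟨b, hb, rfl⟩

end Sys

end Pool.Agent.H37.FG
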