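import Pool.Agent.H37.FG.Top

/-!
# Topological full groups of measured actions of locally virtually free groups (draft of the result)
-/

set_option autoImplicit false

namespace Pool.Agent.H37.FG.ResultDraft

open Pool.Agent.H98.FJ MeasureTheory Topology

theorem result (C : (G : Type) → [Group G] → Prop) (hC : Inherits C) (hE : Extension C)
    (Γ X : Type) [Group Γ] [TopologicalSpace X] [CompactSpace X]
    [MeasurableSpace X] [BorelSpace X] [MulAction Γ X] [ContinuousConstSMul Γ X]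
    (hΓ : ∀ S : Finset Γ, ∃ F : Subgroup (Subgroup.closure (S : Set Γ)),
      F.FiniteIndex ∧ IsFreeGroup F)
    (hfree : ∀ γ : Γ, γ ≠ 1 → interior {x : X | γ • x = x} = ∅)
    (hμ : ∀ U : Set X, IsOpen U → U.Nonempty → ∃ μ : Measure X, IsProbabilityMeasure μ ∧
      SMulInvariantMeasure Γ X μ ∧ 0 < μ U)
    (H : Subgroup (Equiv.Perm X)) (hH : ∀ h ∈ H, ∀ x, ∃ γ : Γ, ∀ᶠ y in 𝓝 x, h y = γ • y) :
    C H :=
  Pool.Agent.H37.FG.top_mem hC hE Γ X hΓ hfree hμ H hH

end Pool.Agent.H37.FG.ResultDraft
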