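import Pool.Agent.H37.FG.Mv
import Pool.Agent.H37.FG.Dye1

/-!
# Routing [H37 FG Route]
-/

set_option autoImplicit false

open Classical

namespace Pool.Agent.H37.FG

open Pool.Agent.H13.BD (up up_zero up_succ bp bp_apply ii ii_pos ii_neg tau tau_apply tau_inv_apply Fin1 FH)

variable {I X : Type} {T : I → Equiv.Perm X} {𝓑 : Set (Set X)}

/-- One step: the tokens which start in the slots `(y, s)`, `cl i y.1 = v`, and which are still in their blocks, are moved along
`f`; all other tokens stay in their blocks.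

Proof. `B := {x | cl i x = v} ∈ 𝓑` (finite intersection of members of `i` and complements). By `rr_loc` for `P` the slot
`j y := (P (y, s)).2` for `y.1 ∈ B` depends only on `cl j0 y.1` for a finite family `j0` (and not on `y.2`), so with
`ε : (i ∪ j0 → Prop) → Fin1`, `ε u := Equiv.swap 0 (j y)` if there is `y` with `cl (i ∪ j0) y.1 = u`, `y.1 ∈ B`, and `1` otherwise,
`e := bp (fun y => ε (cl (i ∪ j0) y.1)) ∈ RR` (`rr_bp`) maps `(y, j y)` to `(y, 0)` for `y.1 ∈ B`. Let
`B' := {x | (FreeGroup.lift T f)⁻¹ x ∈ B}` (in `𝓑`), `Q := tau (act T f) {y | y.1 ∈ B'} * e` (`rr_mv`), `P' := Q * P`. For `y.1 ∈ B`: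
`P (y, s) = (y, j y)`, `e` maps it to `(y, 0)`, and `tau` to `(act T f y, 0)` as `act T f y ∈ {y | y.1 ∈ B'}`. For the other
tokens `(y', n')`: `P (y', n') = (z, k)`; `e` maps it to `(z, k')`, and it is moved by `tau` only if `z.1 ∈ B` and `k' = 0`, that is
`k = j z` and `(z, k) = P (z, s)`, so `(y', n') = (z, s)` by injectivity, a contradiction. -/
theorem route_step [Finite I] (hB : IsAlg T 𝓑) (i : Finset 𝓑) (v : i → Prop) (s : ℕ)
    (f : FreeGroup I) (P : Equiv.Perm ((X × FreeGroup I) × ℕ)) (hP : P ∈ RR T 𝓑)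
    (hs : ∀ y : X × FreeGroup I, cl i y.1 = v → (P (y, s)).1 = y) :
    ∃ P' ∈ RR T 𝓑, (∀ y : X × FreeGroup I, cl i y.1 = v → (P' (y, s)).1 = act T f y) ∧
      ∀ (y : X × FreeGroup I) (n : ℕ), ¬ (cl i y.1 = v ∧ n = s) → (P' (y, n)).1 = (P (y, n)).1 := by
  sorry

/-- Induction on finite sets `L` of pairs `(v, s)` (`Finset.induction_on`), `route_step`; `P = 1` for `L = ∅`. -/
theorem route [Finite I] (hB : IsAlg T 𝓑) (i : Finset 𝓑) (f : (i → Prop) → ℕ → FreeGroup I)
    (L : Finset ((i → Prop) × ℕ)) : ∃ P ∈ RR T 𝓑, ∀ (y : X × FreeGroup I) (n : ℕ),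
      (P (y, n)).1 = if (cl i y.1, n) ∈ L then act T (f (cl i y.1) n) y else y := by
  sorry

end Pool.Agent.H37.FG
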