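import Pool.Agent.H37.FG.Defs

/-!
# Relations between token moves over two kinds of boundaries

As in `Pool/Agent/H13/BD/Tau.lean`, for two permutations `T`, `T'`.
-/

set_option autoImplicit false

open Classical

namespace Pool.Agent.H37.FG

open Pool.Agent.H13.BD (up up_zero up_succ bp bp_apply ii ii_pos ii_neg tau tau_apply tau_inv_apply swp swp_pos
  swp_neg sw2 tau_empty tau_bp tau_union slot_union Fin1 FH)

variable {Y : Type} (T T' : Equiv.Perm Y)

theorem tau_tau2 (A B : Set Y) :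
    tau T A * (bp (fun y => swp (y ∈ B ∧ T y ∈ A)) * tau T' B *
        bp (fun y => swp (T' y ∈ B ∧ T y ∈ A))) =
      (bp (fun y => swp (y ∈ B ∧ y ∈ A)) * tau T' B *
        bp (fun y => swp (T' y ∈ B ∧ y ∈ A))) * tau T A := by
  ext1 ⟨y, n⟩
  simp only [Equiv.Perm.mul_apply, bp_apply]
  by_cases h1 : T y ∈ A <;> by_cases h2 : T' y ∈ B <;> by_cases h3 : y ∈ A <;>
    by_cases h4 : y ∈ B <;> rcases n with _ | _ | n <;>
    first
      | (simp [tau_apply, h1, h2, h3, h4, swp, sw2]; done)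
      | (by_cases h5 : T' (T y) ∈ B <;> by_cases h8 : T y ∈ B <;>
          simp [tau_apply, h1, h2, h3, h4, h5, h8, swp, sw2]; done)
      | (by_cases h6 : T (T' y) ∈ A <;> by_cases h7 : T' y ∈ A <;>
          simp [tau_apply, h1, h2, h3, h4, h6, h7, swp, sw2]; done)
      | (by_cases h5 : T' (T y) ∈ B <;> by_cases h6 : T (T' y) ∈ A <;>
          by_cases h7 : T' y ∈ A <;> by_cases h8 : T y ∈ B <;>
          simp [tau_apply, h1, h2, h3, h4, h5, h6, h7, h8, swp, sw2])

theorem slot_tau1 (A B : Set Y) (b : Y) (hb : b ∈ A) :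
    (bp (fun y => swp (y ∈ B ∧ y ∈ A)) * tau T' B * bp (fun y => swp (T' y ∈ B ∧ y ∈ A))) (b, 0) =
      (b, 0) := by
  simp only [Equiv.Perm.mul_apply, bp_apply]
  by_cases h2 : T' b ∈ B <;> by_cases h4 : b ∈ B <;> simp [tau_apply, h2, h4, hb, swp]

theorem slot_tau2 (A B : Set Y) (b : Y) (hb : b ∈ B) :
    (tau T A * bp (fun y => swp (y ∈ B ∧ T y ∈ A))) (b, 0) = (b, ii (b ∈ A)) := by
  simp only [Equiv.Perm.mul_apply, bp_apply]
  by_cases h2 : T b ∈ A <;> by_cases h4 : b ∈ A <;> simp [tau_apply, h2, h4, hb, swp]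

/-- `Pool.Agent.H13.BD.tau_union` and `slot_union` are about one permutation and can be used directly. -/
theorem tw_fix (r B : Set Y) (z : Y) (hz : z ∈ r) :
    (bp (fun y => swp (y ∈ B ∧ y ∈ r)) * tau T' B * bp (fun y => swp (T' y ∈ B ∧ y ∈ r))) (z, 0) =
      (z, 0) := slot_tau1 T' r B z hz

end Pool.Agent.H37.FG
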