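import Pool.Agent.H37.FG.Germ
import Pool.Agent.H37.FG.MassMeas
import Pool.Agent.H37.FG.FreeFin

/-!
# Full groups of measured actions of locally virtually free groups [H37 FG Top]
-/

set_option autoImplicit false

open Classical Topology MeasureTheory

namespace Pool.Agent.H37.FG

open Pool.Agent.H98.FJ
open Pool.Agent.H13.BD (inheritsExt raagClass)

/-- Only finitely many elements of `Γ` are needed: there is a finite set `S` such that all members of the subgroup generated
by `s` are locally given by the subgroup generated by `S`.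

Proof. For one `h` which is locally given by `Γ`: by compactness (`CompactSpace.elim_nhds_subcover`) finitely many
neighbourhoods cover `X`, so finitely many `γ` suffice. Let `S` be the union of these finite sets for `h ∈ s`. The
permutations `h` which are homeomorphisms and locally given by `closure S` form a subgroup: for `h h'` at `x`: `h' y = γ' y`
near `x`, so `h'` is continuous at `x` and `h z = γ z` near `h' x`; for `h⁻¹` at `x`: let `x' = h⁻¹ x` and `h y = γ y` for all `y` near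
`x'`; for `z` near `x = γ x'` the point `γ⁻¹ z` is near `x'`, so `h (γ⁻¹ z) = z`, that is `h⁻¹ z = γ⁻¹ z`. -/
theorem fin_germs {Γ X : Type} [Group Γ] [TopologicalSpace X] [CompactSpace X]
    [MulAction Γ X] [ContinuousConstSMul Γ X] (s : Finset (Equiv.Perm X))
    (hs : ∀ h ∈ s, ∀ x, ∃ γ : Γ, ∀ᶠ y in 𝓝 x, h y = γ • y) :
    ∃ S : Finset Γ, ∀ h ∈ Subgroup.closure (s : Set (Equiv.Perm X)), ∀ x,
      ∃ γ ∈ Subgroup.closure (S : Set Γ), ∀ᶠ y in 𝓝 x, h y = γ • y := by
  have h1 : ∀ h : Equiv.Perm X, ∃ S : Finset Γ, h ∈ s → ∀ x, ∃ γ ∈ S, ∀ᶠ y in 𝓝 x, h y = γ • y := by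
    intro h
    by_cases hh : h ∈ s
    · choose γ hγ using hs h hh
      obtain ⟨t, ht⟩ := CompactSpace.elim_nhds_subcover
        (fun x => {y | ∀ᶠ z in 𝓝 y, h z = γ x • z})
        (fun x => (isOpen_setOfPred_eventually_nhds).mem_nhds (hγ x))
      refine ⟨t.image γ, fun _ x => ?_⟩
      have hx : x ∈ ⋃ x ∈ t, {y | ∀ᶠ z in 𝓝 y, h z = γ x • z} := by
        rw [ht]
        exact Set.mem_univ x
      simp only [Set.mem_iUnion, Set.mem_ofPred_eq, exists_prop] at hx
      obtain ⟨x', hx', h2⟩ := hx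
      exact ⟨γ x', Finset.mem_image_of_mem γ hx', h2⟩
    · exact ⟨∅, fun h2 => absurd h2 hh⟩
  choose S hS using h1
  refine ⟨s.biUnion S, ?_⟩
  obtain ⟨K, hK⟩ : ∃ K : Subgroup (Equiv.Perm X), ∀ h, h ∈ K ↔ ∀ x,
      ∃ γ ∈ Subgroup.closure ((s.biUnion S : Finset Γ) : Set Γ), ∀ᶠ y in 𝓝 x, h y = γ • y := by
    refine ⟨{ carrier := {h | ∀ x, ∃ γ ∈ Subgroup.closure ((s.biUnion S : Finset Γ) : Set Γ),
                ∀ᶠ y in 𝓝 x, h y = γ • y}
              one_mem' := ?_
              mul_mem' := ?_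
              inv_mem' := ?_ }, fun h => Iff.rfl⟩
    · intro h h' hh hh' x
      obtain ⟨γ', hγ', e'⟩ := hh' x
      obtain ⟨γ, hγ, e⟩ := hh (h' x)
      refine ⟨γ * γ', mul_mem hγ hγ', ?_⟩
      have hcont : Filter.Tendsto (fun y => h' y) (𝓝 x) (𝓝 (h' x)) := by
        have e1 : h' x = γ' • x := e'.self_of_nhds
        rw [e1]
        exact ((continuous_const_smul γ').continuousAt (x := x)).congr' (e'.mono fun y hy => hy.symm)
      filter_upwards [e', hcont.eventually e] with y hy hy'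
      rw [Equiv.Perm.mul_apply, hy', hy, mul_smul]
    · intro x
      refine ⟨1, one_mem _, Filter.Eventually.of_forall fun y => ?_⟩
      rw [one_smul]
      rfl
    · intro h hh x
      obtain ⟨γ, hγ, e⟩ := hh (h⁻¹ x)
      refine ⟨γ⁻¹, inv_mem hγ, ?_⟩
      have e1 : h (h⁻¹ x) = γ • h⁻¹ x := e.self_of_nhds
      rw [show h (h⁻¹ x) = x from Equiv.apply_symm_apply h x] at e1
      have e2 : γ⁻¹ • x = h⁻¹ x := by
        conv_lhs => rw [e1]
        rw [inv_smul_smul]
      have hcont : Filter.Tendsto (fun z => γ⁻¹ • z) (𝓝 x) (𝓝 (h⁻¹ x)) := by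
        rw [← e2]
        exact (continuous_const_smul γ⁻¹).continuousAt
      filter_upwards [hcont.eventually e] with z hz
      rw [smul_inv_smul] at hz
      rw [Equiv.Perm.inv_eq_iff_eq, hz]
  intro h hh
  refine (hK h).1 ((Subgroup.closure_le K).2 ?_ hh)
  intro h2 hh2
  rw [SetLike.mem_coe, hK]
  intro x
  obtain ⟨γ, hγ, e⟩ := hS h2 hh2 x
  refine ⟨γ, Subgroup.subset_closure ?_, e⟩
  rw [Finset.mem_coe, Finset.mem_biUnion]
  exact ⟨h2, hh2, hγ⟩

/-- Proof. `RaagClass.of_local` (`raagClass (inheritsExt hC hE)`): for a finite subset `s` of `H` let `s'` be its image in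
`Equiv.Perm X`, `K := closure s'`; it suffices that `C K` (the subgroup `closure s` of `H` is isomorphic to `K`; e.g. take
`K.subgroupOf H` / `K.comap H.subtype`, which embeds in `K`). `fin_germs` gives `S`, `Γ₀ := closure S`. `Γ₀` acts on `X`
(`Subgroup` instances; `ContinuousConstSMul` as well), `hΓ S` gives the free subgroup `F` of finite index, `Group.FG Γ₀`
(`Subgroup.closure` of a finset), `free_fin` gives `FreeGroup I ≃* F`, `ι := F.subtype.comp e`, with range `F`. `germs` for `Γ₀`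
and `K` gives `ρ`; `vf_mem` for `ρ.range` with `alg_clopen`, `mass_measure` for `Γ₀` (the measures are `Γ`-invariant, so
`Γ₀`-invariant); `C ρ.range` gives `C K` by `Inherits.of_injective`. -/
theorem top_mem {C : (G : Type) → [Group G] → Prop} (hC : Inherits C) (hE : Extension C)
    (Γ X : Type) [Group Γ] [TopologicalSpace X] [CompactSpace X]
    [MeasurableSpace X] [BorelSpace X] [MulAction Γ X] [ContinuousConstSMul Γ X]
    (hΓ : ∀ S : Finset Γ, ∃ F : Subgroup (Subgroup.closure (S : Set Γ)),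
      F.FiniteIndex ∧ IsFreeGroup F)
    (hfree : ∀ γ : Γ, γ ≠ 1 → interior {x : X | γ • x = x} = ∅)
    (hμ : ∀ U : Set X, IsOpen U → U.Nonempty → ∃ μ : Measure X, IsProbabilityMeasure μ ∧
      SMulInvariantMeasure Γ X μ ∧ 0 < μ U)
    (H : Subgroup (Equiv.Perm X)) (hH : ∀ h ∈ H, ∀ x, ∃ γ : Γ, ∀ᶠ y in 𝓝 x, h y = γ • y) :
    C H := by
  have hR : Pool.Agent.H13.TFG.RaagClass C := raagClass (inheritsExt hC hE)
  refine hR.of_local ?_
  intro s
  refine ⟨Subgroup.closure (s : Set H), ?_, Subgroup.subset_closure⟩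
  obtain ⟨s', hs'⟩ : ∃ s' : Finset (Equiv.Perm X), s' = s.image (fun h : H => h.1) := ⟨_, rfl⟩
  have hle : ∀ x : Subgroup.closure (s : Set H), ((x : H) : Equiv.Perm X) ∈
      Subgroup.closure (s' : Set (Equiv.Perm X)) := by
    rintro ⟨x, hx⟩
    have h1 : Subgroup.closure (s : Set H) ≤
        (Subgroup.closure (s' : Set (Equiv.Perm X))).comap H.subtype := by
      rw [Subgroup.closure_le]
      intro y hy
      refine Subgroup.subset_closure ?_
      rw [hs', Finset.mem_coe, Finset.mem_image]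
      exact ⟨y, hy, rfl⟩
    exact h1 hx
  refine hC.of_injective ((H.subtype.comp (Subgroup.closure (s : Set H)).subtype).codRestrict
    (Subgroup.closure (s' : Set (Equiv.Perm X))) hle) ?_ ?_
  · intro x y hxy
    exact Subtype.ext (Subtype.ext (congrArg
      (fun z : Subgroup.closure (s' : Set (Equiv.Perm X)) => (z : Equiv.Perm X)) hxy))
  have hs1 : ∀ h ∈ s', ∀ x, ∃ γ : Γ, ∀ᶠ y in 𝓝 x, h y = γ • y := by
    intro h hh
    rw [hs', Finset.mem_image] at hh
    obtain ⟨h', -, rfl⟩ := hh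
    exact hH h'.1 h'.2
  obtain ⟨S, hS⟩ := fin_germs s' hs1
  obtain ⟨F, hF1, hF2⟩ := hΓ S
  have hfg : Group.FG (Subgroup.closure (S : Set Γ)) := by
    rw [Group.fg_iff_subgroup_fg]
    exact ⟨S, rfl⟩
  obtain ⟨I, hI, ⟨e⟩⟩ := free_fin hfg F hF1 hF2
  have hK : ∀ h ∈ Subgroup.closure (s' : Set (Equiv.Perm X)), ∀ x,
      ∃ γ : Subgroup.closure (S : Set Γ), ∀ᶠ y in 𝓝 x, h y = γ • y := by
    intro h hh x
    obtain ⟨γ, hγ, h2⟩ := hS h hh x
    exact ⟨⟨γ, hγ⟩, h2⟩
  have hcs : ContinuousConstSMul (Subgroup.closure (S : Set Γ)) X :=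
    ⟨fun γ => continuous_const_smul (γ : Γ)⟩
  obtain ⟨ρ, hρ, hρl⟩ := germs (Γ := Subgroup.closure (S : Set Γ)) (X := X) (by
    intro γ hγ
    exact hfree γ.1 (fun h => hγ (Subtype.ext h))) _ hK
  refine hC.of_injective ρ.rangeRestrict (fun x y hxy => hρ (congrArg Subtype.val hxy)) ?_
  have hrange : (F.subtype.comp e.toMonoidHom).range = F := by
    ext x
    rw [MonoidHom.mem_range]
    constructor
    · rintro ⟨y, rfl⟩
      exact (e y).2
    · intro hx
      exact ⟨e.symm ⟨x, hx⟩, congrArg Subtype.val (e.apply_symm_apply ⟨x, hx⟩)⟩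
  refine vf_mem hC hE (alg_clopen (Subgroup.closure (S : Set Γ)) X) (mass_measure ?_)
    (F.subtype.comp e.toMonoidHom) ?_ ?_ ρ.range ?_
  · intro U hU hne
    obtain ⟨μ, h1, h2, h3⟩ := hμ U hU hne
    exact ⟨μ, h1, ⟨fun c t ht => h2.measure_preimage_smul c.1 ht⟩, h3⟩
  · intro x y hxy
    exact e.injective (Subtype.ext hxy)
  · rw [hrange]
    exact hF1
  · rintro _ ⟨h, rfl⟩
    exact hρl h

end Pool.Agent.H37.FG
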