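import Pool.Agent.H37.FG.Mai

/-!
# Virtually free groups [H37 FG Vf]
-/

set_option autoImplicit false

open Classical

namespace Pool.Agent.H37.FG

open Pool.Agent.H98.FJ

/-- the action of a group by permutations -/
abbrev pm (Γ X : Type) [Group Γ] [MulAction Γ X] : Γ → Equiv.Perm X := fun γ => MulAction.toPerm γ

/-- The permutation of `X × Γ` is given by finitely many elements of `Γ`. -/
def IsLocG {Γ X : Type} [Group Γ] [MulAction Γ X] (𝓑 : Set (Set X)) (h : Equiv.Perm (X × Γ)) : Prop :=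
  ∃ (i : Finset 𝓑) (φ : (i → Prop) → Γ), ∀ (x : X) (g : Γ),
    h (x, g) = (φ (cl i x) • x, φ (cl i x) * g)

/-- The coordinates `(X × FreeGroup I) × Fin m ≃ X × Γ`, `((x, f), j) ↦ (r_j x, r_j ι(f))`, for representatives `r_j` of the
cosets `r ι(FreeGroup I)`. In these coordinates the permutations as in `IsLocG` are local for the free group.

Proof. `m := ι.range.index`, an equivalence `Fin m ≃ Γ ⧸ ι.range` (`Finite`, `Nat.card`), `r j` a representative
(`Quotient.out`). Each `g : Γ` is `r j * ι f` for unique `j`, `f` (`QuotientGroup.eq`, injectivity of `ι`). For `h` with data `i`,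
`φ` and `γ := φ (cl i (r_j x))`, `γ * r_j = r_{j'} * ι f₁`, so `h (Ψ ((x, f), j)) = (γ r_j x, γ r_j ι f) =
(r_{j'} ι(f₁) x, r_{j'} ι(f₁ f)) = Ψ ((ι(f₁) x, f₁ f), j')`, and `(ι(f₁) x, f₁ f) = act T f₁ (x, f)` for `T i = pm Γ X (ι (of i))`
(`act_apply`, `FreeGroup.lift T f₁ = pm (ι f₁)` by uniqueness of `lift`). -/
theorem coord {Γ X I : Type} [Group Γ] [MulAction Γ X] (ι : FreeGroup I →* Γ)
    (hι : Function.Injective ι) (hfin : ι.range.FiniteIndex) :
    ∃ (m : ℕ) (r : Fin m → Γ) (Ψ : (X × FreeGroup I) × Fin m ≃ X × Γ)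
      (a : Γ → Fin m → FreeGroup I) (b : Γ → Fin m → Fin m),
      (∀ x f j, Ψ ((x, f), j) = (r j • x, r j * ι f)) ∧
      ∀ (γ : Γ) (x : X) (f : FreeGroup I) (j : Fin m),
        (γ • r j • x, γ * (r j * ι f)) =
          Ψ (act (fun i => pm Γ X (ι (FreeGroup.of i))) (a γ j) (x, f), b γ j) := by
  have : Finite (Γ ⧸ ι.range) := Subgroup.finite_quotient_of_finiteIndex
  obtain ⟨e⟩ : Nonempty (Fin (Nat.card (Γ ⧸ ι.range)) ≃ (Γ ⧸ ι.range)) := ⟨(Finite.equivFin _).symm⟩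
  let r : Fin (Nat.card (Γ ⧸ ι.range)) → Γ := fun j => Quotient.out (e j)
  have hr : ∀ j, ((r j : Γ) : Γ ⧸ ι.range) = e j := fun j => Quotient.out_eq' (e j)
  let jj : Γ → Fin (Nat.card (Γ ⧸ ι.range)) := fun g => e.symm (g : Γ ⧸ ι.range)
  have h1 : ∀ g : Γ, ∃ f : FreeGroup I, ι f = (r (jj g))⁻¹ * g := by
    intro g
    have h2 : ((r (jj g) : Γ) : Γ ⧸ ι.range) = (g : Γ ⧸ ι.range) := by
      rw [hr, Equiv.apply_symm_apply]
    exact MonoidHom.mem_range.1 (QuotientGroup.eq.1 h2)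
  choose F hF using h1
  have hF' : ∀ g : Γ, r (jj g) * ι (F g) = g := fun g => by rw [hF, mul_inv_cancel_left]
  have hj : ∀ j f, jj (r j * ι f) = j := by
    intro j f
    apply e.injective
    rw [Equiv.apply_symm_apply, ← hr j]
    symm
    rw [QuotientGroup.eq, inv_mul_cancel_left]
    exact ⟨f, rfl⟩
  have hf : ∀ j f, F (r j * ι f) = f := by
    intro j f
    apply hι
    rw [hF, hj, inv_mul_cancel_left]
  have hlift : ∀ (g : FreeGroup I) (x : X),
      FreeGroup.lift (fun i => pm Γ X (ι (FreeGroup.of i))) g x = ι g • x := by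
    intro g
    have : FreeGroup.lift (fun i => pm Γ X (ι (FreeGroup.of i)))
        = (MulAction.toPermHom Γ X).comp ι := by
      ext i x
      simp
    intro x
    rw [this]
    rfl
  let Ψ : (X × FreeGroup I) × Fin (Nat.card (Γ ⧸ ι.range)) ≃ X × Γ :=
    { toFun := fun t => (r t.2 • t.1.1, r t.2 * ι t.1.2)
      invFun := fun t => (((r (jj t.2))⁻¹ • t.1, F t.2), jj t.2)
      left_inv := by
        rintro ⟨⟨x, f⟩, j⟩
        simp only [hj, hf, inv_smul_smul]
      right_inv := by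
        rintro ⟨x, g⟩
        simp only [hF', smul_inv_smul] }
  refine ⟨_, r, Ψ, fun γ j => F (γ * r j), fun γ j => jj (γ * r j), fun x f j => rfl, ?_⟩
  intro γ x f j
  have h3 : Ψ (act (fun i => pm Γ X (ι (FreeGroup.of i))) (F (γ * r j)) (x, f), jj (γ * r j))
      = (r (jj (γ * r j)) • ι (F (γ * r j)) • x, r (jj (γ * r j)) * ι (F (γ * r j) * f)) := by
    rw [act_apply]
    change (_, _) = _
    rw [hlift]
  rw [h3, map_mul, ← mul_smul (r (jj (γ * r j))), hF', mul_smul,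
    ← mul_assoc (r (jj (γ * r j))), hF', mul_assoc]

/-- A permutation of `Y × Fin m`, extended by the identity to the slots `≥ m`. Proof: e.g. `Equiv.Perm.extendDomain` or
`Equiv.Perm.ofSubtype` along `Y × Fin m ≃ {t : Y × ℕ // t.2 < m}`, or write the two functions down. -/
theorem ext_slots (Y : Type) (m : ℕ) : ∃ ρ : Equiv.Perm (Y × Fin m) →* Equiv.Perm (Y × ℕ),
    (∀ h y (j : Fin m), ρ h (y, j) = ((h (y, j)).1, ((h (y, j)).2 : ℕ))) ∧
    ∀ h y n, m ≤ n → ρ h (y, n) = (y, n) := by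
  let f : Y × Fin m ≃ {t : Y × ℕ // t.2 < m} :=
    { toFun := fun t => ⟨(t.1, (t.2 : ℕ)), t.2.2⟩
      invFun := fun t => (t.1.1, ⟨t.1.2, t.2⟩)
      left_inv := fun _ => rfl
      right_inv := fun _ => rfl }
  refine ⟨Equiv.Perm.extendDomainHom f, ?_, ?_⟩
  · intro h y j
    exact Equiv.Perm.extendDomain_apply_image h f (y, j)
  · intro h y n hn
    exact Equiv.Perm.extendDomain_apply_not_subtype h f (Nat.not_lt.2 hn)

/-- Proof. `T i := pm Γ X (ι (of i))`; `IsAlg T 𝓑` and `HasMass T 𝓑` follow from those for `Γ`. With `coord` and `ext_slots` let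
`ρ h := ext (Ψ⁻¹ h Ψ)` (`Equiv.permCongr`, or `MulAut.conj`-like composition), a homomorphism from `H`, injective (`ext` and
conjugation by `Ψ` are injective). `IsLoc T 𝓑 (ρ h)`: for the data `i`, `φ` of `h` let `i'` be the union of the preimages of the
members of `i` under `x ↦ r j • x`, `j : Fin m` (in `𝓑` by `IsAlg.pre`), so `cl i' x` determines all `cl i (r j • x)`; the bound is
`m`; `φ' v n := (a γ j, b γ j)` with `γ := φ (cl i (r j • x))` for `n = j < m` and any `x` with `cl i' x = v` (`(1, n)` if there is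
none, and for `n ≥ m`). Apply `loc_mem`. -/
theorem vf_mem {C : (G : Type) → [Group G] → Prop} (hC : Inherits C) (hE : Extension C)
    {Γ X I : Type} [Group Γ] [MulAction Γ X] [Finite I] {𝓑 : Set (Set X)}
    (hB : IsAlg (pm Γ X) 𝓑) (hm : HasMass (pm Γ X) 𝓑) (ι : FreeGroup I →* Γ)
    (hι : Function.Injective ι) (hfin : ι.range.FiniteIndex) (H : Subgroup (Equiv.Perm (X × Γ)))
    (hH : ∀ h ∈ H, IsLocG 𝓑 h) : C H := by
  obtain ⟨m, r, Ψ, a, b, hΨ, hab⟩ := coord (X := X) ι hι hfin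
  obtain ⟨E, hE1, hE2⟩ := ext_slots (X × FreeGroup I) m
  set T : I → Equiv.Perm X := fun i => pm Γ X (ι (FreeGroup.of i)) with hT
  have hBT : IsAlg T 𝓑 := ⟨hB.univ, hB.compl, hB.inter, fun i => hB.pre (ι (FreeGroup.of i)),
    fun i => hB.pre' (ι (FreeGroup.of i))⟩
  have hmT : HasMass T 𝓑 := by
    intro A hA hne
    obtain ⟨μ, h1, h2, h3, h4⟩ := hm A hA hne
    exact ⟨μ, h1, h2, fun i B hB => h3 (ι (FreeGroup.of i)) B hB, h4⟩
  let ρ : H →* Equiv.Perm ((X × FreeGroup I) × ℕ) :=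
    E.comp ((Ψ.permCongrHom.symm.toMonoidHom).comp H.subtype)
  have hρ1 : ∀ (h : H) (y : X × FreeGroup I) (j : Fin m),
      ρ h (y, j) = ((Ψ.symm (h.1 (Ψ (y, j)))).1, ((Ψ.symm (h.1 (Ψ (y, j)))).2 : ℕ)) := by
    intro h y j
    exact hE1 _ y j
  have hρ2 : ∀ (h : H) (y : X × FreeGroup I) (n : ℕ), m ≤ n → ρ h (y, n) = (y, n) :=
    fun h y n hn => hE2 _ y n hn
  have hinj : Function.Injective ρ := by
    intro h h' hh
    apply Subtype.ext
    apply Equiv.ext
    intro t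
    obtain ⟨⟨y, j⟩, rfl⟩ := Ψ.surjective t
    have h1 := hρ1 h y j
    rw [hh, hρ1 h' y j] at h1
    have h2 := congrArg Prod.fst h1
    have h3 := congrArg Prod.snd h1
    apply Ψ.symm.injective
    exact Prod.ext h2.symm (Fin.ext h3.symm)
  refine loc_mem hC hE hBT hmT ρ hinj ?_
  intro h
  obtain ⟨i, φ, hφ⟩ := hH h.1 h.2
  -- the finer family
  let i' : Finset 𝓑 := (Finset.univ : Finset (Fin m)).biUnion fun j =>
    i.image fun D => ⟨pm Γ X (r j) ⁻¹' D.1, hB.pre (r j) D.1 D.2⟩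
  have hcl : ∀ x x' : X, cl i' x = cl i' x' → ∀ j, cl i (r j • x) = cl i (r j • x') := by
    intro x x' hxx j
    funext D
    have hD : (⟨pm Γ X (r j) ⁻¹' D.1.1, hB.pre (r j) D.1.1 D.1.2⟩ : 𝓑) ∈ i' := by
      simp only [i', Finset.mem_biUnion, Finset.mem_univ, true_and]
      exact ⟨j, Finset.mem_image.2 ⟨D.1, D.2, rfl⟩⟩
    exact congrFun hxx ⟨_, hD⟩
  let φ' : (i' → Prop) → ℕ → FreeGroup I × ℕ := fun v n =>
    if hn : n < m then
      if hv : ∃ x, cl i' x = v then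
        (a (φ (cl i (r ⟨n, hn⟩ • hv.choose))) ⟨n, hn⟩,
          (b (φ (cl i (r ⟨n, hn⟩ • hv.choose))) ⟨n, hn⟩ : ℕ))
      else (1, n)
    else (1, n)
  refine ⟨i', φ', m, ?_, ?_⟩
  · rintro ⟨x, f⟩ n
    by_cases hn : n < m
    · have hv : ∃ x', cl i' x' = cl i' x := ⟨x, rfl⟩
      have h1 : φ' (cl i' x) n = (a (φ (cl i (r ⟨n, hn⟩ • x))) ⟨n, hn⟩,
          (b (φ (cl i (r ⟨n, hn⟩ • x))) ⟨n, hn⟩ : ℕ)) := by
        have h2 : cl i (r ⟨n, hn⟩ • hv.choose) = cl i (r ⟨n, hn⟩ • x) :=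
          hcl _ _ hv.choose_spec _
        change (if hn : n < m then _ else _) = _
        rw [dif_pos hn, dif_pos hv, h2]
      change ρ h ((x, f), ((⟨n, hn⟩ : Fin m) : ℕ)) = _
      rw [hρ1, h1, hΨ, hφ, hab, Equiv.symm_apply_apply]
    · have h1 : φ' (cl i' x) n = (1, n) := dif_neg hn
      rw [hρ2 h _ n (Nat.not_lt.1 hn), h1, map_one]
      rfl
  · intro v n hn
    exact dif_neg (Nat.not_lt.2 hn)

end Pool.Agent.H37.FG
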